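import Pool.Agent.K4H19.RO.Win

set_option autoImplicit false

/-!
# Borel-Cantelli
-/

namespace Pool.Agent.K4H19.RO

open Finset Filter MeasureTheory ProbabilityTheory
open Pool.Agent.W208.TL (PP)

open Classical in
/-- the elements of `M` in the random set -/
noncomputable def sel (D : Set ℕ) (M : Finset ℕ) : Finset ℕ := M.filter (fun p => p ∈ D)

section
variable {Ω : Type*} [MeasurableSpace Ω] (P : Measure Ω) [IsProbabilityMeasure P] (A : ℕ → Set Ω)
  (hA : ∀ p, MeasurableSet (A p)) (hind : iIndepSet A P) (q : ℕ → ℝ) (h0 : ∀ p, 0 ≤ q p) (h1 : ∀ p, q p ≤ 1)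
  (hP : ∀ p, P (A p) = ENNReal.ofReal (q p))

include hA hind h0 h1 hP in
lemma meas_sel (M S : Finset ℕ) (hS : S ⊆ M) :
    MeasurableSet {ω | sel {p | ω ∈ A p} M = S} ∧
    P {ω | sel {p | ω ∈ A p} M = S} = ENNReal.ofReal ((∏ p ∈ S, q p) * ∏ p ∈ M \ S, (1 - q p)) := by
  classical
  obtain ⟨f, hf⟩ : ∃ f : ℕ → Set Ω, f = fun p => if p ∈ S then A p else (A p)ᶜ := ⟨_, rfl⟩
  have e1 : {ω | sel {p | ω ∈ A p} M = S} = ⋂ p ∈ M, f p := by
    ext ω
    simp only [Set.mem_ofPred_eq, Set.mem_iInter]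
    rw [hf]
    dsimp only
    constructor
    · intro h p hp
      split_ifs with hpS
      · rw [← h] at hpS
        unfold sel at hpS
        exact (mem_filter.1 hpS).2
      · intro hω
        apply hpS
        rw [← h]
        unfold sel
        exact mem_filter.2 ⟨hp, hω⟩
    · intro h
      ext p
      unfold sel
      rw [mem_filter]
      constructor
      · rintro ⟨hp, hω⟩
        have := h p hp
        by_contra hc
        rw [if_neg hc] at this
        exact this hω
      · intro hpS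
        have := h p (hS hpS)
        rw [if_pos hpS] at this
        exact ⟨hS hpS, this⟩
  have e2 : ∀ p ∈ M, MeasurableSet[MeasurableSpace.generateFrom {A p}] (f p) := by
    intro p _
    rw [hf]
    dsimp only
    split_ifs
    · exact MeasurableSpace.measurableSet_generateFrom (Set.mem_singleton _)
    · exact (MeasurableSpace.measurableSet_generateFrom (Set.mem_singleton _)).compl
  have e3 : ∀ p, MeasurableSet (f p) := by
    intro p
    rw [hf]
    dsimp only
    split_ifs
    · exact hA p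
    · exact (hA p).compl
  have e4 : ∀ p, P (f p) = ENNReal.ofReal (if p ∈ S then q p else 1 - q p) := by
    intro p
    rw [hf]
    dsimp only
    split_ifs
    · exact hP p
    · rw [prob_compl_eq_one_sub (hA p), hP p, ENNReal.ofReal_sub _ (h0 p), ENNReal.ofReal_one]
  rw [e1]
  refine ⟨Finset.measurableSet_biInter M fun p _ => e3 p, ?_⟩
  rw [(iIndepSet_iff A P).1 hind M e2, prod_congr rfl fun p _ => e4 p]
  rw [← ENNReal.ofReal_prod_of_nonneg]
  · congr 1
    rw [← Finset.prod_sdiff hS, mul_comm]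
    congr 1
    · exact prod_congr rfl fun p hp => if_pos hp
    · exact prod_congr rfl fun p hp => if_neg (mem_sdiff.1 hp).2
  · intro p _
    split_ifs
    · exact h0 p
    · linarith [h1 p]

include hA hind h0 h1 hP in
open Classical in
lemma meas_event (M : Finset ℕ) (Φ : Finset ℕ → Prop) :
    P {ω | Φ (sel {p | ω ∈ A p} M)} = ENNReal.ofReal (Ex q M (fun S => if Φ S then (1 : ℝ) else 0)) := by
  have e1 : {ω | Φ (sel {p | ω ∈ A p} M)} = ⋃ S ∈ M.powerset.filter Φ, {ω | sel {p | ω ∈ A p} M = S} := by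
    ext ω
    simp only [Set.mem_ofPred_eq, Set.mem_iUnion, mem_filter, mem_powerset, exists_prop, exists_eq_right']
    constructor
    · intro h
      refine ⟨?_, h⟩
      unfold sel
      exact filter_subset _ _
    · intro h
      exact h.2
  rw [e1, measure_biUnion_finset]
  · unfold Ex
    rw [ENNReal.ofReal_sum_of_nonneg]
    · rw [sum_filter]
      apply sum_congr rfl
      intro S hS
      rw [mem_powerset] at hS
      dsimp only
      by_cases hΦ : Φ S
      · rw [if_pos hΦ, if_pos hΦ, mul_one, (meas_sel P A hA hind q h0 h1 hP M S hS).2]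
      · rw [if_neg hΦ, if_neg hΦ, mul_zero, ENNReal.ofReal_zero]
    · intro S _
      dsimp only
      apply mul_nonneg (mul_nonneg (prod_nonneg fun p _ => h0 p) (prod_nonneg fun p _ => by linarith [h1 p]))
      split_ifs <;> norm_num
  · intro S _ T _ hST
    rw [Function.onFun, Set.disjoint_left]
    intro ω hω hω2
    apply hST
    rw [← hω, ← hω2]
  · intro S hS
    rw [mem_filter, mem_powerset] at hS
    exact (meas_sel P A hA hind q h0 h1 hP M S hS.1).1

/-- the subsequence -/
noncomputable def NN (j : ℕ) : ℕ := ⌊Real.exp (Real.sqrt j)⌋₊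

lemma sqrt_tendsto : Tendsto (fun j : ℕ => Real.sqrt (j : ℝ)) atTop atTop :=
  Real.tendsto_sqrt_atTop.comp tendsto_natCast_atTop_atTop

lemma NN_tendsto : Tendsto NN atTop atTop := by
  unfold NN
  exact (tendsto_nat_floor_atTop (α := ℝ)).comp (Real.tendsto_exp_atTop.comp sqrt_tendsto)

lemma NN_log (j : ℕ) (hj : 4 ≤ j) : Real.sqrt j / 2 ≤ Real.log (NN j) := by
  have h1 : (2 : ℝ) ≤ Real.sqrt j := by
    apply Real.le_sqrt_of_sq_le
    norm_num
    exact_mod_cast hj
  have h2 : Real.exp (Real.sqrt j) < (NN j : ℝ) + 1 := Nat.lt_floor_add_one _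
  have h3 : Real.exp (Real.sqrt j) = Real.exp (Real.sqrt j / 2) * Real.exp (Real.sqrt j / 2) := by
    rw [← Real.exp_add]
    congr 1
    ring
  have h4 := Real.add_one_le_exp (Real.sqrt j / 2)
  have h5 : Real.exp (Real.sqrt j / 2) ≤ NN j := by nlinarith
  have h6 := Real.log_le_log (Real.exp_pos _) h5
  rwa [Real.log_exp] at h6

include hA hind h0 h1 hP in
theorem ae_small (hdiv : Tendsto (fun N : ℕ => ∑ p ∈ (Icc 1 N).filter (fun p : ℕ => p.Prime ∧ Real.log N < p),
      q p * (1 - q p) / p) atTop atTop) {k : ℕ} (h : Fin k → ℕ) (hinj : Function.Injective h) (H : ℕ)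
    (hH : ∀ j, h j ≤ H) (K w : ℕ) (hK : 1 ≤ K) (δ : ℝ) (hδ : 0 < δ) :
    ∀ᵐ ω ∂P, ∀ᶠ j : ℕ in atTop, Zdev h (NN j) (PP 0 (NN j + H)) (PP w (vv K (NN j)))
      (Fintype.piFinset (fun _ : Fin k => range (TT (NN j)))) (sel {p | ω ∈ A p} (PP 0 (NN j + H))) ≤
        3 * δ * (NN j : ℕ) := by
  classical
  obtain ⟨C, hC⟩ := prob_small q h0 h1 hdiv h hinj H hH K w hK δ hδ
  have hC2 := NN_tendsto.eventually hC
  rw [eventually_atTop] at hC2
  obtain ⟨j0, hj0⟩ := hC2
  obtain ⟨s, hs⟩ : ∃ s : ℕ → Set Ω, s = fun j => {ω | max j0 4 ≤ j ∧ 3 * δ * (NN j : ℕ) <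
    Zdev h (NN j) (PP 0 (NN j + H)) (PP w (vv K (NN j)))
      (Fintype.piFinset (fun _ : Fin k => range (TT (NN j)))) (sel {p | ω ∈ A p} (PP 0 (NN j + H)))} := ⟨_, rfl⟩
  have hsum : Summable (fun j : ℕ => 16 * |C| * (1 / (j : ℝ) ^ 2)) :=
    (Real.summable_one_div_nat_pow.2 (by norm_num)).mul_left _
  have hmeas : ∀ j, P (s j) ≤ ENNReal.ofReal (16 * |C| * (1 / (j : ℝ) ^ 2)) := by
    intro j
    rw [hs]
    dsimp only
    by_cases hj : max j0 4 ≤ j
    · have e1 : {ω | max j0 4 ≤ j ∧ 3 * δ * (NN j : ℕ) <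
        Zdev h (NN j) (PP 0 (NN j + H)) (PP w (vv K (NN j)))
          (Fintype.piFinset (fun _ : Fin k => range (TT (NN j)))) (sel {p | ω ∈ A p} (PP 0 (NN j + H)))} =
          {ω | (fun S => 3 * δ * (NN j : ℕ) < Zdev h (NN j) (PP 0 (NN j + H)) (PP w (vv K (NN j)))
          (Fintype.piFinset (fun _ : Fin k => range (TT (NN j)))) S) (sel {p | ω ∈ A p} (PP 0 (NN j + H)))} := by
        ext ω
        simp only [Set.mem_ofPred_eq]
        exact ⟨fun h => h.2, fun h => ⟨hj, h⟩⟩
      have e2 := meas_event P A hA hind q h0 h1 hP (PP 0 (NN j + H)) (fun S => 3 * δ * (NN j : ℕ) <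
        Zdev h (NN j) (PP 0 (NN j + H)) (PP w (vv K (NN j)))
          (Fintype.piFinset (fun _ : Fin k => range (TT (NN j)))) S)
      rw [e1]
      refine le_trans (le_of_eq e2) ?_
      apply ENNReal.ofReal_le_ofReal
      refine le_trans (le_of_eq ?_) ((hj0 j (le_trans (le_max_left _ _) hj)).trans ?_)
      · congr!
      · have hj4 : 4 ≤ j := le_trans (le_max_right _ _) hj
        have h3 := NN_log j hj4
        have hjr : (4 : ℝ) ≤ j := by exact_mod_cast hj4
        have h4 : 0 < Real.sqrt j := Real.sqrt_pos.2 (by linarith)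
        have h5 : (Real.sqrt j / 2) ^ 4 ≤ Real.log (NN j) ^ 4 := pow_le_pow_left₀ (by positivity) h3 4
        have h6 : (Real.sqrt j / 2) ^ 4 = (j : ℝ) ^ 2 / 16 := by
          have : Real.sqrt j ^ 4 = (j : ℝ) ^ 2 := by
            rw [show (4 : ℕ) = 2 * 2 by norm_num, pow_mul, Real.sq_sqrt (by linarith)]
          rw [div_pow, this]
          norm_num
        rw [h6] at h5
        calc C / Real.log (NN j) ^ 4 ≤ |C| / Real.log (NN j) ^ 4 := by
              gcongr
              exact le_abs_self C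
          _ ≤ |C| / ((j : ℝ) ^ 2 / 16) := by gcongr
          _ = 16 * |C| * (1 / (j : ℝ) ^ 2) := by field_simp
    · have e1 : {ω | max j0 4 ≤ j ∧ 3 * δ * (NN j : ℕ) <
        Zdev h (NN j) (PP 0 (NN j + H)) (PP w (vv K (NN j)))
          (Fintype.piFinset (fun _ : Fin k => range (TT (NN j)))) (sel {p | ω ∈ A p} (PP 0 (NN j + H)))} = ∅ := by
        ext ω
        simp only [Set.mem_ofPred_eq, Set.mem_empty_iff_false, iff_false]
        exact fun h => hj h.1
      rw [e1, measure_empty]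
      exact bot_le
  have hfin : ∑' j, P (s j) ≠ ⊤ :=
    ne_top_of_le_ne_top hsum.tsum_ofReal_ne_top (ENNReal.tsum_le_tsum hmeas)
  filter_upwards [ae_eventually_notMem hfin] with ω hω
  filter_upwards [hω, eventually_ge_atTop (max j0 4)] with j hj hj2
  by_contra hc
  push Not at hc
  apply hj
  rw [hs]
  exact ⟨hj2, hc⟩

end

end Pool.Agent.K4H19.RO
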