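import Pool.Agent.W208.TL.Stm
import Pool.Agent.TH575.OM.TKw

set_option autoImplicit false

/-!
# Counting: integers with few prime factors in a set, integers with many small prime factors, pairs
-/

namespace Pool.Agent.K4H19.RO

open Finset
open Pool.Agent.W208.TL (PP)

lemma mem_PP {w y p : ℕ} : p ∈ PP w y ↔ (w < p ∧ p ≤ y) ∧ p.Prime := by
  unfold PP
  rw [mem_filter, mem_Ioc]

lemma sum_inv_sq (W : Finset ℕ) (u : ℕ) (hu : 1 ≤ u) (hW : ∀ p ∈ W, u < p) :
    ∑ p ∈ W, 1 / (p : ℝ) ^ 2 ≤ 1 / (u : ℝ) := by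
  have h : ∀ y : ℕ, u ≤ y → ∑ p ∈ Ioc u y, 1 / (p : ℝ) ^ 2 ≤ 1 / (u : ℝ) - 1 / (y : ℝ) := by
    intro y hy
    induction y, hy using Nat.le_induction with
    | base => simp
    | succ y hy ih =>
      rw [Finset.sum_Ioc_succ_top hy]
      have hy0 : (0 : ℝ) < y := by exact_mod_cast (by omega : 0 < y)
      have : 1 / (((y + 1 : ℕ) : ℝ)) ^ 2 ≤ 1 / (y : ℝ) - 1 / ((y + 1 : ℕ) : ℝ) := by
        push_cast
        rw [div_sub_div _ _ hy0.ne' (by positivity), div_le_div_iff₀ (by positivity) (by positivity)]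
        nlinarith
      linarith
  have h1 : W ⊆ Ioc u (W.sup id + u) := by
    intro p hp
    rw [mem_Ioc]
    exact ⟨hW p hp, (Finset.le_sup (f := id) hp).trans (Nat.le_add_right _ _)⟩
  refine (sum_le_sum_of_subset_of_nonneg h1 fun _ _ _ => by positivity).trans ?_
  refine (h _ (Nat.le_add_left _ _)).trans ?_
  have : (0 : ℝ) ≤ 1 / ((W.sup id + u : ℕ) : ℝ) := by positivity
  linarith

/-- multiples in a shifted interval -/
lemma card_dvd (N h d : ℕ) (hd : 0 < d) :
    (((Icc 1 N).filter (fun n => d ∣ n + h)).card : ℝ) ≤ ((N : ℝ) + h) / d := by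
  have h1 : ((Icc 1 N).filter (fun n => d ∣ n + h)).card ≤ ((Ioc 0 (N + h)).filter (fun m => d ∣ m)).card := by
    apply card_le_card_of_injOn (fun n => n + h)
    · intro n hn
      rw [mem_coe, mem_filter, mem_Icc] at hn
      rw [mem_coe, mem_filter, mem_Ioc]
      have h1 := hn.1.1
      have h2 := hn.1.2
      exact ⟨⟨Nat.add_pos_left h1 h, Nat.add_le_add_right h2 h⟩, hn.2⟩
    · intro a _ b _ hab
      simpa using hab
  rw [Nat.Ioc_filter_dvd_card_eq_div] at h1
  calc (((Icc 1 N).filter (fun n => d ∣ n + h)).card : ℝ) ≤ (((N + h) / d : ℕ) : ℝ) := by exact_mod_cast h1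
    _ ≤ ((N + h : ℕ) : ℝ) / d := Nat.cast_div_le
    _ = _ := by push_cast; rfl

open Classical in
/-- few prime factors in a set of large mass -/
lemma massCount (W : Finset ℕ) (hWp : ∀ p ∈ W, p.Prime) (u v : ℕ) (hu : 1 ≤ u) (hWu : ∀ p ∈ W, u < p)
    (hWv : ∀ p ∈ W, p ≤ v) (c : ℕ → ℝ) (hc0 : ∀ p, 0 ≤ c p) (hc1 : ∀ p, c p ≤ 1) (Y L : ℝ)
    (hL : L = ∑ p ∈ W, c p / p) (hL0 : 0 < L) (hYL : Y ≤ L / 2) (N h : ℕ) :
    (((Icc 1 N).filter (fun n => ∑ p ∈ W.filter (fun p => (n + h).factorization p = 1), c p < Y)).card : ℝ) ≤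
      4 / L * (N + h + 2 * v) + (N + h) / u := by
  have key : (Icc 1 N).filter (fun n => ∑ p ∈ W.filter (fun p => (n + h).factorization p = 1), c p < Y) ⊆
      ((Icc 1 N).filter (fun n => (L / 2) ^ 2 ≤ ((∑ p ∈ W, if p ∣ n + h then c p else 0) - L) ^ 2)) ∪
      W.biUnion (fun p => (Icc 1 N).filter (fun n => p ^ 2 ∣ n + h)) := by
    intro n hn
    rw [mem_filter] at hn
    rw [mem_union, mem_biUnion]
    by_cases hsq : ∃ p ∈ W, p ^ 2 ∣ n + h
    · obtain ⟨p, hp, hd⟩ := hsq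
      exact Or.inr ⟨p, hp, mem_filter.2 ⟨hn.1, hd⟩⟩
    · push Not at hsq
      left
      rw [mem_filter]
      refine ⟨hn.1, ?_⟩
      have hne : n + h ≠ 0 := by
        have := (mem_Icc.1 hn.1).1
        omega
      have e1 : ∑ p ∈ W, (if p ∣ n + h then c p else 0) =
          ∑ p ∈ W.filter (fun p => (n + h).factorization p = 1), c p := by
        rw [← sum_filter]
        apply sum_congr _ fun _ _ => rfl
        apply filter_congr
        intro p hp
        constructor
        · intro hd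
          have a1 := ((hWp p hp).dvd_iff_one_le_factorization hne).1 hd
          have a2 : ¬ 2 ≤ (n + h).factorization p := fun h2 =>
            hsq p hp (((hWp p hp).pow_dvd_iff_le_factorization hne).2 h2)
          omega
        · intro h1
          exact ((hWp p hp).dvd_iff_one_le_factorization hne).2 (by omega)
      rw [e1]
      have := hn.2
      nlinarith
  have h1 := card_le_card key
  have h2 := (h1.trans (card_union_le _ _))
  have h3 : (((Icc 1 N).filter (fun n => (L / 2) ^ 2 ≤ ((∑ p ∈ W, if p ∣ n + h then c p else 0) - L) ^ 2)).card : ℝ) ≤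
      4 / L * (N + h + 2 * v) := by
    have tk := Pool.Agent.TH575.OM.tkw W hWp c hc0 1 (fun p _ => hc1 p) L hL (N + h)
    have e3 : ∑ n ∈ Icc 1 N, ((∑ p ∈ W, if p ∣ n + h then c p else 0) - L) ^ 2 ≤
        ∑ n ∈ Icc 1 (N + h), ((∑ p ∈ W, if p ∣ n then c p else 0) - L) ^ 2 := by
      have : ∑ n ∈ Icc 1 N, ((∑ p ∈ W, if p ∣ n + h then c p else 0) - L) ^ 2 =
          ∑ m ∈ (Icc 1 N).image (fun n => n + h), ((∑ p ∈ W, if p ∣ m then c p else 0) - L) ^ 2 := by
        rw [sum_image (fun x _ y _ hxy => by simpa using hxy)]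
      rw [this]
      apply sum_le_sum_of_subset_of_nonneg
      · intro m hm
        rw [mem_image] at hm
        obtain ⟨n, hn, rfl⟩ := hm
        rw [mem_Icc] at hn ⊢
        omega
      · intro _ _ _
        positivity
    have e4 : (((Icc 1 N).filter (fun n => (L / 2) ^ 2 ≤ ((∑ p ∈ W, if p ∣ n + h then c p else 0) - L) ^ 2)).card : ℝ) *
        (L / 2) ^ 2 ≤ ∑ n ∈ Icc 1 N, ((∑ p ∈ W, if p ∣ n + h then c p else 0) - L) ^ 2 := by
      rw [← nsmul_eq_mul, ← sum_const]
      refine (sum_le_sum fun n hn => (mem_filter.1 hn).2).trans ?_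
      exact sum_le_sum_of_subset_of_nonneg (filter_subset _ _) fun _ _ _ => by positivity
    have e5 : ∑ p ∈ W, c p ≤ v := by
      calc ∑ p ∈ W, c p ≤ ∑ p ∈ W, (1 : ℝ) := sum_le_sum fun p _ => hc1 p
        _ = W.card := by simp
        _ ≤ v := by
          have : W ⊆ Ioc 0 v := fun p hp => mem_Ioc.2 ⟨(hWp p hp).pos, hWv p hp⟩
          have := card_le_card this
          rw [Nat.card_Ioc] at this
          exact_mod_cast this.trans (by omega)
    have e6 : 1 * L * ((N + h : ℕ) : ℝ) + 2 * L * ∑ p ∈ W, c p ≤ L * (N + h + 2 * v) := by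
      push_cast
      nlinarith
    have e7 := e4.trans (e3.trans (tk.trans e6))
    rw [← le_div_iff₀ (by positivity)] at e7
    refine e7.trans (le_of_eq ?_)
    field_simp
    ring
  have h4 : (((W.biUnion (fun p => (Icc 1 N).filter (fun n => p ^ 2 ∣ n + h))).card : ℕ) : ℝ) ≤ (N + h) / u := by
    calc (((W.biUnion (fun p => (Icc 1 N).filter (fun n => p ^ 2 ∣ n + h))).card : ℕ) : ℝ)
        ≤ ∑ p ∈ W, (((Icc 1 N).filter (fun n => p ^ 2 ∣ n + h)).card : ℝ) := by
          exact_mod_cast card_biUnion_le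
      _ ≤ ∑ p ∈ W, ((N : ℝ) + h) * (1 / (p : ℝ) ^ 2) := by
          apply sum_le_sum
          intro p hp
          have := card_dvd N h (p ^ 2) (pow_pos (hWp p hp).pos 2)
          push_cast at this
          rw [mul_one_div]
          exact this
      _ = ((N : ℝ) + h) * ∑ p ∈ W, 1 / (p : ℝ) ^ 2 := by rw [mul_sum]
      _ ≤ ((N : ℝ) + h) * (1 / u) := mul_le_mul_of_nonneg_left (sum_inv_sq W u hu hWu) (by positivity)
      _ = _ := by rw [mul_one_div]
  calc _ ≤ (((Icc 1 N).filter (fun n => (L / 2) ^ 2 ≤ ((∑ p ∈ W, if p ∣ n + h then c p else 0) - L) ^ 2)).card : ℝ) +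
        (((W.biUnion (fun p => (Icc 1 N).filter (fun n => p ^ 2 ∣ n + h))).card : ℕ) : ℝ) := by exact_mod_cast h2
    _ ≤ _ := add_le_add h3 h4

lemma sum_fact (M p : ℕ) (hp : p.Prime) : ∑ m ∈ Icc 1 M, m.factorization p ≤ M := by
  have h0 : ∀ M : ℕ, (M.factorial).factorization p = ∑ m ∈ Icc 1 M, m.factorization p := by
    intro M
    induction M with
    | zero => simp
    | succ M ih =>
      rw [Nat.factorial_succ, Nat.factorization_mul (Nat.succ_ne_zero M) (Nat.factorial_ne_zero M),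
        Finset.sum_Icc_succ_top (by omega), ← ih, Finsupp.add_apply, add_comm]
  have h1 := h0 M
  rw [← h1]
  have h2 := @sub_one_mul_padicValNat_factorial p ⟨hp⟩ M
  rw [Nat.factorization_def _ hp]
  have h3 : 1 ≤ p - 1 := by
    have := hp.two_le
    omega
  calc padicValNat p M.factorial ≤ (p - 1) * padicValNat p M.factorial := Nat.le_mul_of_pos_left _ h3
    _ = M - (p.digits M).sum := h2
    _ ≤ M := Nat.sub_le _ _

open Classical in
/-- many small prime factors -/
lemma smallCount (w B N h : ℕ) (hB : 1 ≤ B) :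
    (((Icc 1 N).filter (fun n => B < ∑ p ∈ PP 0 w, (n + h).factorization p)).card : ℝ) ≤ (N + h) * w / B := by
  have h1 : ((Icc 1 N).filter (fun n => B < ∑ p ∈ PP 0 w, (n + h).factorization p)).card * B ≤ (N + h) * w := by
    calc ((Icc 1 N).filter (fun n => B < ∑ p ∈ PP 0 w, (n + h).factorization p)).card * B
        ≤ ∑ n ∈ (Icc 1 N).filter (fun n => B < ∑ p ∈ PP 0 w, (n + h).factorization p),
          ∑ p ∈ PP 0 w, (n + h).factorization p := by
          rw [← smul_eq_mul, ← sum_const]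
          exact sum_le_sum fun n hn => (mem_filter.1 hn).2.le
      _ ≤ ∑ n ∈ Icc 1 N, ∑ p ∈ PP 0 w, (n + h).factorization p :=
          sum_le_sum_of_subset (filter_subset _ _)
      _ = ∑ m ∈ (Icc 1 N).image (fun n => n + h), ∑ p ∈ PP 0 w, m.factorization p := by
          rw [sum_image (fun x _ y _ hxy => by simpa using hxy)]
      _ ≤ ∑ m ∈ Icc 1 (N + h), ∑ p ∈ PP 0 w, m.factorization p := by
          apply sum_le_sum_of_subset
          intro m hm
          rw [mem_image] at hm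
          obtain ⟨n, hn, rfl⟩ := hm
          rw [mem_Icc] at hn ⊢
          omega
      _ = ∑ p ∈ PP 0 w, ∑ m ∈ Icc 1 (N + h), m.factorization p := sum_comm
      _ ≤ ∑ p ∈ PP 0 w, (N + h) := sum_le_sum fun p hp => sum_fact _ p (mem_PP.1 hp).2
      _ = (PP 0 w).card * (N + h) := by rw [sum_const, smul_eq_mul]
      _ ≤ w * (N + h) := by
          apply Nat.mul_le_mul_right
          unfold PP
          refine (card_filter_le _ _).trans ?_
          rw [Nat.card_Ioc]
          omega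
      _ = (N + h) * w := by ring
  rw [le_div_iff₀ (by exact_mod_cast hB)]
  exact_mod_cast h1

/-- few large prime factors -/
lemma bigBound (v M m K : ℕ) (hm : m ≠ 0) (h : m < (v + 1) ^ (K + 1)) : ∑ p ∈ PP v M, m.factorization p ≤ K := by
  have h1 : ∏ p ∈ PP v M, p ^ m.factorization p ≤ m := by
    apply Nat.le_of_dvd (Nat.pos_of_ne_zero hm)
    apply Finset.prod_dvd_of_isRelPrime
    · intro p hp q hq hpq
      show IsRelPrime (p ^ m.factorization p) (q ^ m.factorization q)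
      rw [← Nat.coprime_iff_isRelPrime]
      apply Nat.Coprime.pow
      exact (Nat.coprime_primes (mem_PP.1 hp).2 (mem_PP.1 hq).2).2 hpq
    · intro p hp
      exact Nat.ordProj_dvd m p
  have h2 : (v + 1) ^ (∑ p ∈ PP v M, m.factorization p) ≤ ∏ p ∈ PP v M, p ^ m.factorization p := by
    rw [← prod_pow_eq_pow_sum]
    apply prod_le_prod'
    intro p hp
    exact Nat.pow_le_pow_left (mem_PP.1 hp).1.1 _
  by_contra hc
  push Not at hc
  have h3 : (v + 1) ^ (K + 1) ≤ (v + 1) ^ (∑ p ∈ PP v M, m.factorization p) :=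
    Nat.pow_le_pow_right (by omega) hc
  omega

open Classical in
/-- pairs with a common prime -/
lemma shareCount {k : ℕ} (W : Finset ℕ) (hWp : ∀ p ∈ W, p.Prime) (u : ℕ) (hu : 1 ≤ u) (hWu : ∀ p ∈ W, u < p)
    (h : Fin k → ℕ) (H N : ℕ) (hH : ∀ j, h j ≤ H) :
    ((((Icc 1 N) ×ˢ (Icc 1 N)).filter (fun x : ℕ × ℕ => ¬ Disjoint (W.filter (fun p => ∃ j, p ∣ x.1 + h j))
      (W.filter (fun p => ∃ j, p ∣ x.2 + h j)))).card : ℝ) ≤ ((k : ℝ) * ((N : ℝ) + H)) ^ 2 / (u : ℝ) := by
  have h1 : ((Icc 1 N) ×ˢ (Icc 1 N)).filter (fun x : ℕ × ℕ => ¬ Disjoint (W.filter (fun p => ∃ j, p ∣ x.1 + h j))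
      (W.filter (fun p => ∃ j, p ∣ x.2 + h j))) ⊆
      W.biUnion (fun p => ((Icc 1 N).filter (fun n => ∃ j, p ∣ n + h j)) ×ˢ
        ((Icc 1 N).filter (fun n => ∃ j, p ∣ n + h j))) := by
    intro x hx
    rw [mem_filter, mem_product] at hx
    obtain ⟨hx1, hx2⟩ := hx
    rw [Finset.not_disjoint_iff] at hx2
    obtain ⟨p, hp1, hp2⟩ := hx2
    rw [mem_filter] at hp1 hp2
    rw [mem_biUnion]
    exact ⟨p, hp1.1, mem_product.2 ⟨mem_filter.2 ⟨hx1.1, hp1.2⟩, mem_filter.2 ⟨hx1.2, hp2.2⟩⟩⟩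
  have h2 : ∀ p ∈ W, (((Icc 1 N).filter (fun n => ∃ j, p ∣ n + h j)).card : ℝ) ≤ (k : ℝ) * ((N : ℝ) + H) / (p : ℝ) := by
    intro p hp
    have e1 : (Icc 1 N).filter (fun n => ∃ j, p ∣ n + h j) ⊆
        (univ : Finset (Fin k)).biUnion (fun j => (Icc 1 N).filter (fun n => p ∣ n + h j)) := by
      intro n hn
      rw [mem_filter] at hn
      obtain ⟨j, hj⟩ := hn.2
      rw [mem_biUnion]
      exact ⟨j, mem_univ _, mem_filter.2 ⟨hn.1, hj⟩⟩
    calc (((Icc 1 N).filter (fun n => ∃ j, p ∣ n + h j)).card : ℝ)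
        ≤ ∑ j : Fin k, (((Icc 1 N).filter (fun n => p ∣ n + h j)).card : ℝ) := by
          exact_mod_cast (card_le_card e1).trans card_biUnion_le
      _ ≤ ∑ _j : Fin k, ((N : ℝ) + H) / p := by
          apply sum_le_sum
          intro j _
          refine (card_dvd N (h j) p (hWp p hp).pos).trans ?_
          have : (h j : ℝ) ≤ H := by exact_mod_cast hH j
          gcongr
      _ = (k : ℝ) * ((N : ℝ) + H) / (p : ℝ) := by
          rw [sum_const, card_univ, Fintype.card_fin, nsmul_eq_mul]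
          ring
  calc _ ≤ ((W.biUnion (fun p => ((Icc 1 N).filter (fun n => ∃ j, p ∣ n + h j)) ×ˢ
        ((Icc 1 N).filter (fun n => ∃ j, p ∣ n + h j)))).card : ℝ) := by exact_mod_cast card_le_card h1
    _ ≤ ∑ p ∈ W, (((Icc 1 N).filter (fun n => ∃ j, p ∣ n + h j)).card : ℝ) ^ 2 := by
        have := card_biUnion_le (s := W) (t := fun p => ((Icc 1 N).filter (fun n => ∃ j, p ∣ n + h j)) ×ˢ
          ((Icc 1 N).filter (fun n => ∃ j, p ∣ n + h j)))
        simp only [card_product] at this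
        calc _ ≤ ((∑ p ∈ W, ((Icc 1 N).filter (fun n => ∃ j, p ∣ n + h j)).card *
              ((Icc 1 N).filter (fun n => ∃ j, p ∣ n + h j)).card : ℕ) : ℝ) := by exact_mod_cast this
          _ = _ := by push_cast; exact sum_congr rfl fun p _ => by ring
    _ ≤ ∑ p ∈ W, ((k : ℝ) * ((N : ℝ) + H) / (p : ℝ)) ^ 2 := by
        apply sum_le_sum
        intro p hp
        exact pow_le_pow_left₀ (Nat.cast_nonneg _) (h2 p hp) 2
    _ = ((k : ℝ) * ((N : ℝ) + H)) ^ 2 * ∑ p ∈ W, 1 / (p : ℝ) ^ 2 := by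
        rw [mul_sum]
        exact sum_congr rfl fun p _ => by rw [div_pow, mul_one_div]
    _ ≤ ((k : ℝ) * ((N : ℝ) + H)) ^ 2 * (1 / (u : ℝ)) :=
        mul_le_mul_of_nonneg_left (sum_inv_sq W u hu hWu) (by positivity)
    _ = _ := by rw [mul_one_div]

end Pool.Agent.K4H19.RO
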