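import Pool.Agent.K4H19.RO.Core
import Pool.Agent.W479.TLClaim
import Pool.Agent.W975.TLTail
import Pool.Agent.W591.TL.Law

set_option autoImplicit false

/-!
# The truncated law is close to a product, and a law close to a product is close to the product of its marginals
-/

namespace Pool.Agent.K4H19.RO

open Finset
open Pool.Agent.W208.TL (PP mu sm lf Indep box)

/-- the number of the `n ≤ N` with vector `l` -/
noncomputable def cnt {α : Type*} (g : ℕ → α) (N : ℕ) (l : α) : ℝ := ∑ n ∈ Icc 1 N, ind (g n) l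

lemma cnt_nonneg {α : Type*} (g : ℕ → α) (N : ℕ) (l : α) : 0 ≤ cnt g N l := sum_nonneg fun _ _ => ind_nonneg _ _

lemma fact_sm {w y p n : ℕ} (hp : p ∈ PP w y) : (sm w y n).factorization p = n.factorization p := by
  unfold sm
  rw [Nat.factorization_prod (fun l hl => pow_ne_zero _ (mem_PP.1 hl).2.ne_zero), Finsupp.finsetSum_apply]
  rw [sum_eq_single p]
  · rw [(mem_PP.1 hp).2.factorization_pow, Finsupp.single_eq_same]
  · intro l hl hlp
    rw [(mem_PP.1 hl).2.factorization_pow, Finsupp.single_eq_of_ne' hlp]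
  · intro h
    exact absurd hp h

/-- signs, for finite sums -/
lemma sign_fin {α : Type*} (B : Finset α) (J M : α → ℝ) : ∃ σ : α → ℝ, (∀ l, |σ l| ≤ 1) ∧
    ∑ l ∈ B, |J l - M l| = ∑ l ∈ B, J l * σ l - ∑ l ∈ B, M l * σ l := by
  classical
  refine ⟨fun l => if 0 ≤ J l - M l then 1 else -1, ?_, ?_⟩
  · intro l
    dsimp only
    split_ifs <;> simp
  · rw [← sum_sub_distrib]
    apply sum_congr rfl
    intro l _
    dsimp only
    split_ifs with h
    · rw [abs_of_nonneg h, mul_one, mul_one]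
    · rw [abs_of_neg (lt_of_not_ge h)]
      ring

theorem law_trunc (k : ℕ) (hk : 1 ≤ k) (ε : ℝ) (hε : 0 < ε) : ∃ K w0 : ℕ, 1 ≤ K ∧ ∀ (h : Fin k → ℕ) (w H : ℕ),
    Function.Injective h → (∀ j, h j ≤ H) → w0 ≤ w → H ≤ w → ∃ y0 : ℕ, ∀ y N : ℕ, y0 ≤ y → y ^ K ≤ N → 1 ≤ N →
      ∀ S : Finset ℕ, ∃ m : ℕ → ℝ, (∀ a, 0 ≤ m a) ∧ ∀ B : Finset (Fin k → ℕ),
        ∑ l ∈ B, |cnt (gV h (PP w y) S) N l / N - ∏ i, m (l i)| ≤ ε := by
  classical
  obtain ⟨K1, K, w0, hK1, hK, h2⟩ :=
    Pool.Agent.W479.TLClaim.claim Pool.Agent.W591.TL.law Pool.Agent.W975.TL.tail k hk ε hε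
  refine ⟨K, w0, hK, fun h w H hinj hH hw hHw => ?_⟩
  obtain ⟨y0, h3⟩ := h2 w 1 hw le_rfl (fun l hl hd => absurd (Nat.dvd_one.1 hd) hl.one_lt.ne')
  refine ⟨y0, fun y N hy hyN hN S => ?_⟩
  obtain ⟨-, h4⟩ := h3 y hy
  have hind : Indep w (fun _ : Fin k => 1) (fun j => (h j : ℤ)) := by
    refine ⟨fun _ => le_rfl, fun l hl hwl => ⟨fun _ => hl.one_lt.ne' ∘ Nat.dvd_one.1, fun i j hij hd => ?_⟩⟩
    have e1 : ((1 : ℕ) : ℤ) * (h j : ℤ) - ((1 : ℕ) : ℤ) * (h i : ℤ) ≠ 0 := by
      intro e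
      apply hij
      apply hinj
      push_cast at e
      omega
    have e2 := Int.le_of_dvd (abs_pos.2 e1) ((dvd_abs _ _).2 hd)
    have := hH i
    have := hH j
    have e3 : |((1 : ℕ) : ℤ) * (h j : ℤ) - ((1 : ℕ) : ℤ) * (h i : ℤ)| ≤ H := by
      rw [abs_le]
      push_cast
      constructor <;> omega
    omega
  have h5 := h4 _ _ hind 0 N hyN
  obtain ⟨φ, hφ⟩ : ∃ φ : ℕ → ℕ, φ = fun d => ∑ p ∈ PP w y \ S, d.factorization p := ⟨_, rfl⟩
  obtain ⟨m, hm⟩ : ∃ m : ℕ → ℝ, m = fun a => ∑ d ∈ Icc 1 (y ^ K1), ind (φ d) a * mu w y d := ⟨_, rfl⟩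
  refine ⟨m, fun a => ?_, fun B => ?_⟩
  · rw [hm]
    exact sum_nonneg fun d _ => mul_nonneg (ind_nonneg _ _) (Pool.Agent.W479.TLClaim.mu_nonneg w y d)
  · obtain ⟨σ, hσ1, hσ2⟩ := sign_fin B (fun l => cnt (gV h (PP w y) S) N l / N) (fun l => ∏ i, m (l i))
    rw [hσ2]
    obtain ⟨ψ, hψ⟩ : ∃ ψ : (Fin k → ℕ) → ℝ, ψ = fun x => ∑ l ∈ B, ind x l * σ l := ⟨_, rfl⟩
    have hψ1 : ∀ x, |ψ x| ≤ 1 := by
      intro x
      rw [hψ]
      refine (abs_sum_le_sum_abs _ _).trans ?_
      refine (sum_le_sum fun l _ => ?_).trans (sum_ind_le B x)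
      rw [abs_mul, abs_of_nonneg (ind_nonneg _ _)]
      exact mul_le_of_le_one_right (ind_nonneg _ _) (hσ1 l)
    have h6 := h5 (fun d => ((ψ (fun i => φ (d i)) : ℝ) : ℂ)) (fun d => by
      rw [Complex.norm_real, Real.norm_eq_abs]
      exact hψ1 _)
    have e1 : (Ioc 0 N).filter (fun m => m ≡ 0 [MOD 1]) = Icc 1 N := by
      rw [filter_true_of_mem (fun m _ => Nat.modEq_one)]
      ext n
      rw [mem_Ioc, mem_Icc]
      omega
    rw [e1] at h6
    have e2 : ∀ n ∈ Icc 1 N, (((ψ (fun i => φ (sm w y (lf 1 (h i : ℤ) n))) : ℝ) : ℂ)) =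
        ((ψ (gV h (PP w y) S n) : ℝ) : ℂ) := by
      intro n hn
      congr 2
      funext i
      rw [hφ]
      dsimp only
      unfold gV
      have e3 : lf 1 (h i : ℤ) n = n + h i := by
        unfold lf
        push_cast
        omega
      rw [e3]
      apply sum_congr rfl
      intro p hp
      exact fact_sm (mem_sdiff.1 hp).1
    rw [sum_congr rfl e2] at h6
    have e4 : (((1 : ℕ) : ℂ) / (N : ℂ)) * ∑ n ∈ Icc 1 N, ((ψ (gV h (PP w y) S n) : ℝ) : ℂ) -
        ∑ d ∈ box k (y ^ K1), ((ψ (fun i => φ (d i)) : ℝ) : ℂ) * ∏ i, (mu w y (d i) : ℂ) =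
        (((∑ n ∈ Icc 1 N, ψ (gV h (PP w y) S n)) / N -
          ∑ d ∈ box k (y ^ K1), ψ (fun i => φ (d i)) * ∏ i, mu w y (d i) : ℝ) : ℂ) := by
      push_cast
      ring
    rw [e4, Complex.norm_real, Real.norm_eq_abs] at h6
    have e5 : ∑ l ∈ B, cnt (gV h (PP w y) S) N l / N * σ l = (∑ n ∈ Icc 1 N, ψ (gV h (PP w y) S n)) / N := by
      rw [hψ]
      dsimp only
      rw [sum_comm, sum_div]
      apply sum_congr rfl
      intro l _
      unfold cnt
      rw [← sum_mul]
      ring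
    have e6 : ∑ l ∈ B, (∏ i, m (l i)) * σ l = ∑ d ∈ box k (y ^ K1), ψ (fun i => φ (d i)) * ∏ i, mu w y (d i) := by
      have e7 : ∀ l : Fin k → ℕ, ∏ i, m (l i) = ∑ d ∈ box k (y ^ K1), ind (fun i => φ (d i)) l * ∏ i, mu w y (d i) := by
        intro l
        rw [hm]
        dsimp only
        rw [Finset.prod_univ_sum]
        unfold Pool.Agent.W208.TL.box
        apply sum_congr rfl
        intro d _
        rw [prod_mul_distrib]
        congr 1
        unfold ind
        by_cases hc : (fun i => φ (d i)) = l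
        · rw [if_pos hc]
          apply prod_eq_one
          intro i _
          rw [if_pos (congrFun hc i)]
        · rw [if_neg hc]
          obtain ⟨i, hi⟩ := Function.ne_iff.1 hc
          exact prod_eq_zero (mem_univ i) (if_neg hi)
      simp_rw [e7, sum_mul]
      rw [sum_comm]
      apply sum_congr rfl
      intro d _
      rw [hψ]
      dsimp only
      rw [sum_mul]
      apply sum_congr rfl
      intro l _
      ring
    rw [e5, e6]
    exact (le_abs_self _).trans h6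

lemma sum_ind_comm (I : Finset ℕ) (a : ℕ) (ha : a ∈ I) (m : ℕ → ℝ) : ∑ a' ∈ I, ind a' a * m a' = m a := by
  classical
  unfold ind
  simp only [ite_mul, one_mul, zero_mul]
  rw [Finset.sum_ite_eq', if_pos ha]

/-- marginals -/
noncomputable def marg {k : ℕ} (I : Finset ℕ) (J : (Fin k → ℕ) → ℝ) (i : Fin k) (a : ℕ) : ℝ :=
  ∑ l ∈ Fintype.piFinset (fun _ : Fin k => I), ind (l i) a * J l

lemma prod_diff {k : ℕ} (I : Finset ℕ) (f g : Fin k → ℕ → ℝ) (hg : ∀ i a, 0 ≤ g i a) (η : ℝ) (s : ℝ)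
    (hs : ∀ i, ∑ a ∈ I, g i a = s) (hη : ∀ i, ∑ a ∈ I, |f i a - g i a| ≤ η) :
    ∑ l ∈ Fintype.piFinset (fun _ : Fin k => I), |∏ i, f i (l i) - ∏ i, g i (l i)| ≤ (s + η) ^ k - s ^ k := by
  classical
  have key : ∀ (T : Finset (Fin k)) (x y : Fin k → ℝ), (∀ i, 0 ≤ y i) →
      |∏ i ∈ T, x i - ∏ i ∈ T, y i| ≤ ∏ i ∈ T, (y i + |x i - y i|) - ∏ i ∈ T, y i := by
    intro T x y hy
    induction T using Finset.induction_on with
    | empty => simp
    | insert a T ha ih =>
      rw [prod_insert ha, prod_insert ha, prod_insert ha]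
      have h1 : 0 ≤ ∏ i ∈ T, y i := prod_nonneg fun i _ => hy i
      have h2 : |∏ i ∈ T, x i| ≤ ∏ i ∈ T, (y i + |x i - y i|) := by
        rw [abs_prod]
        apply prod_le_prod (fun i _ => abs_nonneg _)
        intro i _
        have := abs_add_le (x i - y i) (y i)
        rw [sub_add_cancel, abs_of_nonneg (hy i)] at this
        linarith
      have h3 : x a * ∏ i ∈ T, x i - y a * ∏ i ∈ T, y i =
          (x a - y a) * ∏ i ∈ T, x i + y a * (∏ i ∈ T, x i - ∏ i ∈ T, y i) := by ring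
      rw [h3]
      refine (abs_add_le _ _).trans ?_
      rw [abs_mul, abs_mul, abs_of_nonneg (hy a)]
      have h4 := mul_le_mul_of_nonneg_left h2 (abs_nonneg (x a - y a))
      have h5 := mul_le_mul_of_nonneg_left ih (hy a)
      linarith
  calc ∑ l ∈ Fintype.piFinset (fun _ : Fin k => I), |∏ i, f i (l i) - ∏ i, g i (l i)|
      ≤ ∑ l ∈ Fintype.piFinset (fun _ : Fin k => I), (∏ i, (g i (l i) + |f i (l i) - g i (l i)|) -
          ∏ i, g i (l i)) := sum_le_sum fun l _ => key univ _ _ fun i => hg i _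
    _ = ∏ i, ∑ a ∈ I, (g i a + |f i a - g i a|) - ∏ i, ∑ a ∈ I, g i a := by
        rw [sum_sub_distrib, Finset.prod_univ_sum, Finset.prod_univ_sum]
    _ ≤ (s + η) ^ k - s ^ k := by
        have e1 : ∏ i, ∑ a ∈ I, g i a = s ^ k := by
          rw [prod_congr rfl fun i _ => hs i, prod_const, card_univ, Fintype.card_fin]
        have e2 : ∏ i, ∑ a ∈ I, (g i a + |f i a - g i a|) ≤ (s + η) ^ k := by
          calc ∏ i, ∑ a ∈ I, (g i a + |f i a - g i a|) ≤ ∏ _i : Fin k, (s + η) := by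
                apply prod_le_prod (fun i _ => sum_nonneg fun a _ => add_nonneg (hg i a) (abs_nonneg _))
                intro i _
                rw [sum_add_distrib, hs i]
                linarith [hη i]
            _ = (s + η) ^ k := by rw [prod_const, card_univ, Fintype.card_fin]
        rw [e1]
        linarith

/-- a law close to a product is close to the product of its marginals -/
lemma marg_close {k : ℕ} (hk : 1 ≤ k) (I : Finset ℕ) (J : (Fin k → ℕ) → ℝ) (m : ℕ → ℝ) (hm : ∀ a, 0 ≤ m a)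
    (hJ1 : ∑ l ∈ Fintype.piFinset (fun _ : Fin k => I), J l = 1) (η : ℝ) (hη0 : 0 ≤ η) (hη1 : η ≤ 1)
    (hη : ∑ l ∈ Fintype.piFinset (fun _ : Fin k => I), |J l - ∏ i, m (l i)| ≤ η) :
    ∑ l ∈ Fintype.piFinset (fun _ : Fin k => I), |J l - ∏ i, marg I J i (l i)| ≤ (1 + 2 * k * 3 ^ k) * η := by
  classical
  obtain ⟨s, hs⟩ : ∃ s, s = ∑ a ∈ I, m a := ⟨_, rfl⟩
  have hs0 : 0 ≤ s := by rw [hs]; exact sum_nonneg fun a _ => hm a
  obtain ⟨t, ht⟩ : ∃ t, t = s ^ k := ⟨_, rfl⟩
  have ht2 : ∑ l ∈ Fintype.piFinset (fun _ : Fin k => I), ∏ i, m (l i) = t := by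
    rw [ht, hs]
    have := (Finset.prod_univ_sum (fun _ : Fin k => I) (fun _ a => m a)).symm
    rw [this, prod_const, card_univ, Fintype.card_fin]
  have ht1 : |t - 1| ≤ η := by
    rw [← ht2, ← hJ1, abs_sub_comm, ← sum_sub_distrib]
    exact (abs_sum_le_sum_abs _ _).trans hη
  have ht0 : 0 ≤ t := by rw [ht]; positivity
  have ht3 : t ≤ 2 := by
    have := (abs_le.1 ht1).2
    linarith
  -- marginals
  obtain ⟨c, hc⟩ : ∃ c, c = s ^ (k - 1) := ⟨_, rfl⟩
  have hc0 : 0 ≤ c := by rw [hc]; positivity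
  have hsc : s * c = t := by
    rw [hc, ht, mul_comm, ← pow_succ, Nat.sub_add_cancel hk]
  have hmarg : ∀ i, ∑ a ∈ I, |marg I J i a - m a * c| ≤ η := by
    intro i
    have e1 : ∀ a ∈ I, m a * c = ∑ l ∈ Fintype.piFinset (fun _ : Fin k => I), ind (l i) a * ∏ j, m (l j) := by
      intro a ha
      have e2 : ∀ l ∈ Fintype.piFinset (fun _ : Fin k => I), ind (l i) a * ∏ j, m (l j) =
          ∏ j, ((if j = i then ind (l j) a else 1) * m (l j)) := by
        intro l _
        rw [prod_mul_distrib, Finset.prod_ite_eq' univ i, if_pos (mem_univ i)]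
      rw [sum_congr rfl e2]
      have e3 := (Finset.prod_univ_sum (fun _ : Fin k => I)
        (fun j a' => (if j = i then ind a' a else 1) * m a')).symm
      rw [e3, ← mul_prod_erase univ _ (mem_univ i)]
      simp only [if_true]
      rw [sum_ind_comm I a ha m]
      congr 1
      rw [prod_congr rfl (g := fun _ => s) (fun j hj => by
        rw [hs]
        apply sum_congr rfl
        intro a' _
        rw [if_neg (ne_of_mem_erase hj), one_mul])]
      rw [prod_const, card_erase_of_mem (mem_univ i), card_univ, Fintype.card_fin, hc]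
    calc ∑ a ∈ I, |marg I J i a - m a * c|
        ≤ ∑ a ∈ I, ∑ l ∈ Fintype.piFinset (fun _ : Fin k => I), ind (l i) a * |J l - ∏ j, m (l j)| := by
          apply sum_le_sum
          intro a ha
          rw [e1 a ha]
          unfold marg
          rw [← sum_sub_distrib]
          refine (abs_sum_le_sum_abs _ _).trans (le_of_eq ?_)
          apply sum_congr rfl
          intro l _
          rw [← mul_sub, abs_mul, abs_of_nonneg (ind_nonneg _ _)]
      _ = ∑ l ∈ Fintype.piFinset (fun _ : Fin k => I), (∑ a ∈ I, ind (l i) a) * |J l - ∏ j, m (l j)| := by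
          rw [sum_comm]
          exact sum_congr rfl fun l _ => (sum_mul _ _ _).symm
      _ ≤ ∑ l ∈ Fintype.piFinset (fun _ : Fin k => I), |J l - ∏ j, m (l j)| := by
          apply sum_le_sum
          intro l _
          exact mul_le_of_le_one_left (abs_nonneg _) (sum_ind_le _ _)
      _ ≤ η := hη
  have h3 := prod_diff I (marg I J) (fun _ a => m a * c) (fun _ a => mul_nonneg (hm a) hc0) η t
    (fun _ => by rw [← sum_mul, ← hs, hsc]) hmarg
  -- powers
  have h4 : (t + η) ^ k - t ^ k ≤ k * 3 ^ k * η := by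
    have e1 := abs_pow_sub_pow_le (t + η) t k
    have e2 : |t + η - t| = η := by rw [add_sub_cancel_left, abs_of_nonneg hη0]
    have e3 : max |t + η| |t| ≤ 3 := by
      rw [abs_of_nonneg (by linarith), abs_of_nonneg ht0, max_le_iff]
      constructor <;> linarith
    have e4 : max |t + η| |t| ^ (k - 1) ≤ (3 : ℝ) ^ k :=
      (pow_le_pow_left₀ (le_trans (abs_nonneg _) (le_max_left _ _)) e3 _).trans
        (pow_le_pow_right₀ (by norm_num) (Nat.sub_le _ _))
    rw [e2] at e1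
    calc (t + η) ^ k - t ^ k ≤ |(t + η) ^ k - t ^ k| := le_abs_self _
      _ ≤ η * k * max |t + η| |t| ^ (k - 1) := e1
      _ ≤ η * k * 3 ^ k := mul_le_mul_of_nonneg_left e4 (by positivity)
      _ = _ := by ring
  have h5 : ∀ l : Fin k → ℕ, ∏ i, (m (l i) * c) = (∏ i, m (l i)) * t ^ (k - 1) := by
    intro l
    rw [prod_mul_distrib, prod_const, card_univ, Fintype.card_fin, hc, ht, ← pow_mul, ← pow_mul, mul_comm k]
  have h6 : ∑ l ∈ Fintype.piFinset (fun _ : Fin k => I), |∏ i, (m (l i) * c) - ∏ i, m (l i)| ≤ k * 3 ^ k * η := by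
    have e1 : ∀ l : Fin k → ℕ, |∏ i, (m (l i) * c) - ∏ i, m (l i)| = (∏ i, m (l i)) * |t ^ (k - 1) - 1| := by
      intro l
      rw [h5, ← mul_sub_one, abs_mul, abs_of_nonneg (prod_nonneg fun i _ => hm _)]
    rw [sum_congr rfl fun l _ => e1 l, ← sum_mul, ht2]
    have e2 := abs_pow_sub_pow_le t 1 (k - 1)
    rw [one_pow] at e2
    have e3 : max |t| |(1 : ℝ)| ≤ 3 := by
      rw [abs_of_nonneg ht0, abs_one, max_le_iff]
      constructor <;> linarith
    obtain ⟨k', rfl⟩ : ∃ k', k = k' + 1 := ⟨k - 1, by omega⟩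
    simp only [Nat.add_sub_cancel] at e2 ⊢
    have e4 : max |t| |(1 : ℝ)| ^ (k' - 1) ≤ (3 : ℝ) ^ k' :=
      (pow_le_pow_left₀ (le_trans (abs_nonneg _) (le_max_left _ _)) e3 _).trans
        (pow_le_pow_right₀ (by norm_num) (Nat.sub_le _ _))
    calc t * |t ^ k' - 1| ≤ 3 * (|t - 1| * k' * max |t| |(1 : ℝ)| ^ (k' - 1)) :=
          mul_le_mul (by linarith) e2 (abs_nonneg _) (by norm_num)
      _ ≤ 3 * (η * k' * 3 ^ k') := by
          apply mul_le_mul_of_nonneg_left _ (by norm_num)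
          exact mul_le_mul (mul_le_mul_of_nonneg_right ht1 (Nat.cast_nonneg _)) e4 (by positivity) (by positivity)
      _ ≤ ((k' + 1 : ℕ) : ℝ) * 3 ^ (k' + 1) * η := by
          push_cast
          rw [pow_succ]
          have : (0 : ℝ) ≤ 3 ^ k' * 3 * η := by positivity
          nlinarith
  calc ∑ l ∈ Fintype.piFinset (fun _ : Fin k => I), |J l - ∏ i, marg I J i (l i)|
      ≤ ∑ l ∈ Fintype.piFinset (fun _ : Fin k => I), (|J l - ∏ i, m (l i)| +
          |∏ i, (m (l i) * c) - ∏ i, m (l i)| + |∏ i, marg I J i (l i) - ∏ i, (m (l i) * c)|) := by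
        apply sum_le_sum
        intro l _
        have e1 : J l - ∏ i, marg I J i (l i) = (J l - ∏ i, m (l i)) - (∏ i, (m (l i) * c) - ∏ i, m (l i)) -
          (∏ i, marg I J i (l i) - ∏ i, (m (l i) * c)) := by ring
        rw [e1]
        exact (abs_sub _ _).trans (add_le_add (abs_sub _ _) le_rfl)
    _ ≤ η + k * 3 ^ k * η + k * 3 ^ k * η := by
        rw [sum_add_distrib, sum_add_distrib]
        exact add_le_add (add_le_add hη h6) (h3.trans h4)
    _ = _ := by ring

end Pool.Agent.K4H19.RO
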