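import Pool.Agent.K4H19.RO.Prob
import Pool.Agent.K4H19.RO.Law

set_option autoImplicit false

/-!
# The assembly
-/

namespace Pool.Agent.K4H19.RO

open Finset Filter
open Pool.Agent.W208.TL (PP)

open Classical in
/-- the number of prime factors of `n` outside `D`, with multiplicity -/
noncomputable def Om (D : Set ℕ) (n : ℕ) : ℕ := ∑ p ∈ n.primeFactors.filter (fun p => p ∉ D), n.factorization p

lemma Om_eq_gV {k : ℕ} (h : Fin k → ℕ) (D : Set ℕ) (M n : ℕ) (hM : ∀ j, n + h j ≤ M) :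
    (fun i => Om D (n + h i)) = gV h (PP 0 M) (sel D (PP 0 M)) n := by
  classical
  funext i
  unfold Om gV
  apply sum_subset
  · intro p hp
    rw [mem_filter, Nat.mem_primeFactors] at hp
    obtain ⟨⟨hpp, hd, hne⟩, hpD⟩ := hp
    rw [Finset.mem_sdiff, mem_PP]
    refine ⟨⟨⟨hpp.pos, (Nat.le_of_dvd (Nat.pos_of_ne_zero hne) hd).trans (hM i)⟩, hpp⟩, ?_⟩
    intro hs
    unfold sel at hs
    exact hpD (mem_filter.1 hs).2
  · intro p hp hp2
    rw [Finset.mem_sdiff, mem_PP] at hp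
    by_contra hc
    apply hp2
    rw [mem_filter, ← Nat.support_factorization, Finsupp.mem_support_iff]
    refine ⟨hc, fun hD => hp.2 ?_⟩
    unfold sel
    exact mem_filter.2 ⟨mem_PP.2 hp.1, hD⟩

lemma cnt_card {α : Type*} [DecidableEq α] (g : ℕ → α) (N : ℕ) (l : α) :
    cnt g N l = (((Icc 1 N).filter (fun n => g n = l)).card : ℝ) := by
  unfold cnt
  have : ∀ n ∈ Icc 1 N, ind (g n) l = if g n = l then (1 : ℝ) else 0 := by
    intro n _
    unfold ind
    congr!
  rw [sum_congr rfl this, sum_boole]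

lemma sum_cnt_le {α : Type*} (g : ℕ → α) (N : ℕ) (B : Finset α) : ∑ l ∈ B, cnt g N l ≤ N := by
  unfold cnt
  rw [sum_comm]
  refine (sum_le_sum fun n _ => sum_ind_le B (g n)).trans ?_
  rw [sum_const, Nat.card_Icc, nsmul_eq_mul]
  simp

lemma sum_cnt {α : Type*} (g : ℕ → α) (N : ℕ) (B : Finset α) (hB : ∀ n ∈ Icc 1 N, g n ∈ B) :
    ∑ l ∈ B, cnt g N l = N := by
  unfold cnt
  rw [sum_comm]
  have : ∀ n ∈ Icc 1 N, ∑ l ∈ B, ind (g n) l = 1 := by
    intro n hn
    have := sum_ind B (g n) (hB n hn) (fun _ => 1)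
    simpa using this
  rw [sum_congr rfl this, sum_const, Nat.card_Icc, nsmul_eq_mul]
  simp

/-- comparison of two scales -/
lemma scale_close {α : Type*} (g : ℕ → α) (N' N : ℕ) (hN' : 1 ≤ N') (hN : N' ≤ N) (B : Finset α) :
    ∑ l ∈ B, |cnt g N l / N - cnt g N' l / N'| ≤ 2 * (1 - (N' : ℝ) / N) := by
  have h1 : (0 : ℝ) < N' := by exact_mod_cast hN'
  have h2 : (N' : ℝ) ≤ N := by exact_mod_cast hN
  have h3 : (0 : ℝ) < N := by linarith
  have e1 : ∀ l, cnt g N l = cnt g N' l + ∑ n ∈ Ioc N' N, ind (g n) l := by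
    intro l
    unfold cnt
    rw [← sum_union]
    · congr 1
      ext n
      rw [mem_union, mem_Icc, mem_Icc, mem_Ioc]
      omega
    · rw [disjoint_left]
      intro n hn hn2
      rw [mem_Icc] at hn
      rw [mem_Ioc] at hn2
      omega
  have e2 : ∀ l ∈ B, |cnt g N l / N - cnt g N' l / N'| ≤ (∑ n ∈ Ioc N' N, ind (g n) l) / N +
      cnt g N' l * (1 / N' - 1 / N) := by
    intro l _
    rw [e1 l]
    have r0 : 0 ≤ (∑ n ∈ Ioc N' N, ind (g n) l) / N := div_nonneg (sum_nonneg fun _ _ => ind_nonneg _ _) h3.le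
    have r1 : (1 : ℝ) / N ≤ 1 / N' := one_div_le_one_div_of_le h1 h2
    have r2 : 0 ≤ cnt g N' l * (1 / N' - 1 / N) := mul_nonneg (cnt_nonneg _ _ _) (by linarith)
    have r3 : (cnt g N' l + ∑ n ∈ Ioc N' N, ind (g n) l) / N - cnt g N' l / N' =
        (∑ n ∈ Ioc N' N, ind (g n) l) / N - cnt g N' l * (1 / N' - 1 / N) := by ring
    rw [r3]
    refine (abs_sub _ _).trans ?_
    rw [abs_of_nonneg r0, abs_of_nonneg r2]
  refine (sum_le_sum e2).trans ?_
  rw [sum_add_distrib, ← sum_div, ← sum_mul]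
  have e3 : ∑ l ∈ B, ∑ n ∈ Ioc N' N, ind (g n) l ≤ (N : ℝ) - N' := by
    rw [sum_comm]
    refine (sum_le_sum fun n _ => sum_ind_le B (g n)).trans ?_
    rw [sum_const, Nat.card_Ioc, nsmul_eq_mul, Nat.cast_sub hN]
    simp
  have e4 := sum_cnt_le g N' B
  have r1 : (0 : ℝ) ≤ 1 / N' - 1 / N := by
    have := one_div_le_one_div_of_le h1 h2
    linarith
  calc (∑ l ∈ B, ∑ n ∈ Ioc N' N, ind (g n) l) / N + (∑ l ∈ B, cnt g N' l) * (1 / N' - 1 / N)
      ≤ ((N : ℝ) - N') / N + N' * (1 / N' - 1 / N) := by gcongr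
    _ = 2 * (1 - (N' : ℝ) / N) := by
        field_simp
        ring

/-- comparison of two shifts -/
lemma shift_close (f : ℕ → ℕ) (N t : ℕ) (B : Finset ℕ) :
    ∑ a ∈ B, |cnt (fun n => f (n + t)) N a - cnt f N a| ≤ 2 * t := by
  have e1 : ∀ a, cnt (fun n => f (n + t)) N a = ∑ m ∈ (Icc 1 N).image (fun n => n + t), ind (f m) a := by
    intro a
    unfold cnt
    rw [sum_image (fun x _ y _ hxy => by simpa using hxy)]
  have e2 : ∀ a ∈ B, |cnt (fun n => f (n + t)) N a - cnt f N a| ≤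
      ∑ m ∈ Icc 1 t, ind (f m) a + ∑ m ∈ Ioc N (N + t), ind (f m) a := by
    intro a _
    rw [e1 a]
    unfold cnt
    obtain ⟨S1, hS1⟩ : ∃ S1, S1 = (Icc 1 N).image (fun n => n + t) := ⟨_, rfl⟩
    rw [← hS1]
    have d1 : ∑ m ∈ S1, ind (f m) a = ∑ m ∈ S1 \ Icc 1 N, ind (f m) a + ∑ m ∈ S1 ∩ Icc 1 N, ind (f m) a := by
      rw [← sum_sdiff (s₁ := S1 ∩ Icc 1 N) (s₂ := S1) inter_subset_left, sdiff_inter_self_left]
    have d2 : ∑ m ∈ Icc 1 N, ind (f m) a = ∑ m ∈ Icc 1 N \ S1, ind (f m) a + ∑ m ∈ S1 ∩ Icc 1 N, ind (f m) a := by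
      rw [← sum_sdiff (s₁ := S1 ∩ Icc 1 N) (s₂ := Icc 1 N) inter_subset_right, sdiff_inter_self_right]
    rw [d1, d2, add_sub_add_right_eq_sub]
    refine (abs_sub _ _).trans ?_
    rw [abs_of_nonneg (sum_nonneg fun _ _ => ind_nonneg _ _), abs_of_nonneg (sum_nonneg fun _ _ => ind_nonneg _ _),
      add_comm]
    apply add_le_add
    · apply sum_le_sum_of_subset_of_nonneg
      · intro m hm
        rw [Finset.mem_sdiff, mem_Icc, hS1, mem_image] at hm
        rw [mem_Icc]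
        refine ⟨hm.1.1, ?_⟩
        by_contra hc
        apply hm.2
        exact ⟨m - t, mem_Icc.2 (by omega), by omega⟩
      · intro _ _ _
        exact ind_nonneg _ _
    · apply sum_le_sum_of_subset_of_nonneg
      · intro m hm
        rw [Finset.mem_sdiff, mem_Icc, hS1, mem_image] at hm
        obtain ⟨⟨n, hn, rfl⟩, hm2⟩ := hm
        rw [mem_Icc] at hn
        rw [mem_Ioc]
        omega
      · intro _ _ _
        exact ind_nonneg _ _
  refine (sum_le_sum e2).trans ?_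
  rw [sum_add_distrib]
  have e3 : ∀ s : Finset ℕ, ∑ a ∈ B, ∑ m ∈ s, ind (f m) a ≤ s.card := by
    intro s
    rw [sum_comm]
    refine (sum_le_sum fun n _ => sum_ind_le B (f n)).trans ?_
    rw [sum_const, nsmul_eq_mul, mul_one]
  have e4 := e3 (Icc 1 t)
  have e5 := e3 (Ioc N (N + t))
  rw [Nat.card_Icc, Nat.add_sub_cancel] at e4
  rw [Nat.card_Ioc, Nat.add_sub_cancel_left] at e5
  linarith

/-- the sum of Q1 -/
noncomputable def dev (D : Set ℕ) {k : ℕ} (h : Fin k → ℕ) (N : ℕ) : ℝ :=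
  ∑' l : Fin k → ℕ, |(((Icc 1 N).filter (fun n => ∀ i, Om D (n + h i) = l i)).card : ℝ) / N -
    ∏ i, (((Icc 1 N).filter (fun n => Om D n = l i)).card : ℝ) / N|

lemma Om_lt (D : Set ℕ) (m T : ℕ) (hm : 1 ≤ m) (hT : 1 ≤ T) (hmT : m < 2 ^ T) : Om D m < T := by
  have h1 := Om_eq_gV (fun _ : Fin 1 => 0) D m m (fun _ => le_rfl)
  have h2 := congrFun h1 0
  have h3 := gV_lt (fun _ : Fin 1 => 0) m T (sel D (PP 0 m)) hmT hT m hm (fun _ => le_rfl) 0 (PP 0 m) (Subset.refl _)
  rw [← h2] at h3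
  exact h3

lemma dev_eq (D : Set ℕ) {k : ℕ} (h : Fin k → ℕ) (N T : ℕ) (hT : 1 ≤ T) (hNT : ∀ i, N + h i < 2 ^ T) :
    dev D h N = ∑ l ∈ Fintype.piFinset (fun _ : Fin k => range T),
      |cnt (fun n i => Om D (n + h i)) N l / N - ∏ i, cnt (Om D) N (l i) / N| := by
  classical
  unfold dev
  rw [tsum_eq_sum (s := Fintype.piFinset (fun _ : Fin k => range T))]
  · apply sum_congr rfl
    intro l _
    rw [cnt_card]
    congr 2
    · congr 3
      ext n
      rw [mem_filter, mem_filter, funext_iff]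
    · apply prod_congr rfl
      intro i _
      rw [cnt_card]
  · intro l hl
    rw [Fintype.mem_piFinset] at hl
    push Not at hl
    obtain ⟨i, hi⟩ := hl
    rw [mem_range, not_lt] at hi
    have e1 : (Icc 1 N).filter (fun n => ∀ i, Om D (n + h i) = l i) = ∅ := by
      rw [filter_eq_empty_iff]
      intro n hn hc
      have h1 := Om_lt D (n + h i) T (by have := (mem_Icc.1 hn).1; omega) hT
        (lt_of_le_of_lt (Nat.add_le_add_right (mem_Icc.1 hn).2 _) (hNT i))
      rw [hc i] at h1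
      omega
    have e2 : (Icc 1 N).filter (fun n => Om D n = l i) = ∅ := by
      rw [filter_eq_empty_iff]
      intro n hn hc
      have h1 := Om_lt D n T (mem_Icc.1 hn).1 hT
        (lt_of_le_of_lt ((mem_Icc.1 hn).2.trans (Nat.le_add_right _ _)) (hNT i))
      rw [hc] at h1
      omega
    rw [e1, card_empty, Nat.cast_zero, zero_div, prod_eq_zero (mem_univ i), sub_zero, abs_zero]
    rw [e2, card_empty, Nat.cast_zero, zero_div]

/-- from closeness to a product to the sum of Q1 -/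
lemma dev_le (D : Set ℕ) {k : ℕ} (hk : 1 ≤ k) (h : Fin k → ℕ) (H : ℕ) (hH : ∀ i, h i ≤ H) (N T : ℕ) (hN : 1 ≤ N)
    (hT : 1 ≤ T) (hNT : N + H < 2 ^ T) (m : ℕ → ℝ) (hm : ∀ a, 0 ≤ m a) (η : ℝ) (hη0 : 0 ≤ η) (hη1 : η ≤ 1)
    (hη : ∑ l ∈ Fintype.piFinset (fun _ : Fin k => range T),
      |cnt (fun n i => Om D (n + h i)) N l / N - ∏ i, m (l i)| ≤ η) :
    dev D h N ≤ (1 + 2 * k * 3 ^ k) * η + ((1 + 2 * H / N) ^ k - 1) := by
  classical
  have hNr : (0 : ℝ) < N := by exact_mod_cast hN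
  have hNT' : ∀ i, N + h i < 2 ^ T := fun i => by
    have := hH i
    omega
  rw [dev_eq D h N T hT hNT']
  obtain ⟨J, hJ⟩ : ∃ J : (Fin k → ℕ) → ℝ, J = fun l => cnt (fun n i => Om D (n + h i)) N l / N := ⟨_, rfl⟩
  have hbox : ∀ n ∈ Icc 1 N, (fun i => Om D (n + h i)) ∈ Fintype.piFinset (fun _ : Fin k => range T) := by
    intro n hn
    rw [Fintype.mem_piFinset]
    intro i
    rw [mem_range]
    exact Om_lt D (n + h i) T (by have := (mem_Icc.1 hn).1; omega) hT
      (lt_of_le_of_lt (Nat.add_le_add_right (mem_Icc.1 hn).2 _) (hNT' i))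
  have hJ1 : ∑ l ∈ Fintype.piFinset (fun _ : Fin k => range T), J l = 1 := by
    rw [hJ]
    dsimp only
    rw [← sum_div, sum_cnt _ N _ hbox, div_self hNr.ne']
  have h1 := marg_close hk (range T) J m hm hJ1 η hη0 hη1 (by rw [hJ]; exact hη)
  have hmarg : ∀ i, ∀ a ∈ range T, marg (range T) J i a = cnt (fun n => Om D (n + h i)) N a / N := by
    intro i a _
    unfold marg
    rw [hJ]
    dsimp only
    unfold cnt
    simp_rw [mul_div_assoc', mul_sum]
    rw [← sum_div, sum_comm]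
    congr 1
    apply sum_congr rfl
    intro n hn
    have := sum_ind (Fintype.piFinset (fun _ : Fin k => range T)) (fun i => Om D (n + h i)) (hbox n hn)
      (fun l => ind (l i) a)
    dsimp only at this
    rw [← this]
    apply sum_congr rfl
    intro l _
    ring
  have hpi : ∀ _i : Fin k, ∑ a ∈ range T, cnt (Om D) N a / N = 1 := by
    intro _
    rw [← sum_div, sum_cnt _ N _ (fun n hn => ?_), div_self hNr.ne']
    rw [mem_range]
    exact Om_lt D n T (mem_Icc.1 hn).1 hT (lt_of_le_of_lt ((mem_Icc.1 hn).2.trans (Nat.le_add_right _ _)) hNT)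
  have h2 := prod_diff (range T) (marg (range T) J) (fun _ a => cnt (Om D) N a / N)
    (fun _ a => div_nonneg (cnt_nonneg _ _ _) hNr.le) (2 * H / N) 1 hpi (fun i => by
      have e1 : ∀ a ∈ range T, |marg (range T) J i a - cnt (Om D) N a / N| =
          |cnt (fun n => Om D (n + h i)) N a - cnt (Om D) N a| / N := by
        intro a ha
        rw [hmarg i a ha, ← sub_div, abs_div, abs_of_pos hNr]
      rw [sum_congr rfl e1, ← sum_div]
      apply div_le_div_of_nonneg_right _ hNr.le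
      refine (shift_close (Om D) N (h i) (range T)).trans ?_
      have : (h i : ℝ) ≤ H := by exact_mod_cast hH i
      linarith)
  rw [one_pow] at h2
  calc ∑ l ∈ Fintype.piFinset (fun _ : Fin k => range T),
        |cnt (fun n i => Om D (n + h i)) N l / N - ∏ i, cnt (Om D) N (l i) / N|
      ≤ ∑ l ∈ Fintype.piFinset (fun _ : Fin k => range T), (|J l - ∏ i, marg (range T) J i (l i)| +
          |∏ i, marg (range T) J i (l i) - ∏ i, cnt (Om D) N (l i) / N|) := by
        apply sum_le_sum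
        intro l _
        rw [hJ]
        dsimp only
        exact abs_sub_le _ _ _
    _ ≤ _ := by
        rw [sum_add_distrib]
        exact add_le_add h1 h2

/-- the scale -/
noncomputable def jj (N : ℕ) : ℕ := ⌊(Real.log N) ^ 2⌋₊

lemma jj_tendsto : Tendsto jj atTop atTop := by
  unfold jj
  exact (tendsto_nat_floor_atTop (α := ℝ)).comp ((tendsto_pow_atTop (by norm_num)).comp log_tendsto)

lemma NN_jj_le (N : ℕ) (hN : 1 ≤ N) : NN (jj N) ≤ N := by
  have hNr : (1 : ℝ) ≤ N := by exact_mod_cast hN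
  have h0 : 0 ≤ Real.log N := Real.log_nonneg hNr
  have h1 : Real.sqrt (jj N : ℕ) ≤ Real.log N := by
    apply Real.sqrt_le_iff.2
    exact ⟨h0, Nat.floor_le (by positivity)⟩
  have h2 : Real.exp (Real.sqrt (jj N : ℕ)) ≤ N := by
    calc Real.exp (Real.sqrt (jj N : ℕ)) ≤ Real.exp (Real.log N) := Real.exp_le_exp.2 h1
      _ = N := Real.exp_log (by linarith)
  unfold NN
  exact Nat.floor_le_of_le h2

lemma NN_jj_ge : ∀ᶠ N : ℕ in atTop, 1 - (NN (jj N) : ℝ) / N ≤ 2 / Real.log N := by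
  filter_upwards [log_tendsto.eventually_ge_atTop 1, eventually_ge_atTop 1] with N h1 hN
  have hNr : (1 : ℝ) ≤ N := by exact_mod_cast hN
  have hN0 : (0 : ℝ) < N := by linarith
  have h2 : (Real.log N) ^ 2 < (jj N : ℝ) + 1 := Nat.lt_floor_add_one _
  have h3 : Real.log N - 1 / Real.log N ≤ Real.sqrt (jj N : ℕ) := by
    apply Real.le_sqrt_of_sq_le
    have e1 : (Real.log N - 1 / Real.log N) ^ 2 = (Real.log N) ^ 2 - 2 + 1 / (Real.log N) ^ 2 := by
      field_simp
      ring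
    have e2 : 1 / (Real.log N) ^ 2 ≤ 1 := by
      rw [div_le_one (by positivity)]
      nlinarith
    linarith
  have h4 : Real.exp (Real.sqrt (jj N : ℕ)) < (NN (jj N) : ℝ) + 1 := Nat.lt_floor_add_one _
  have h5 : Real.exp (Real.log N - 1 / Real.log N) ≤ Real.exp (Real.sqrt (jj N : ℕ)) := Real.exp_le_exp.2 h3
  have h6 : Real.exp (Real.log N - 1 / Real.log N) = N * Real.exp (-(1 / Real.log N)) := by
    rw [sub_eq_add_neg, Real.exp_add, Real.exp_log hN0]
  have h7 := Real.add_one_le_exp (-(1 / Real.log N))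
  have h8 : (N : ℝ) * (1 - 1 / Real.log N) ≤ N * Real.exp (-(1 / Real.log N)) :=
    mul_le_mul_of_nonneg_left (by linarith) hN0.le
  have h9 : Real.log N ≤ N := (Real.log_le_sub_one_of_pos hN0).trans (by linarith)
  have h10 : 1 / (N : ℝ) ≤ 1 / Real.log N := one_div_le_one_div_of_le (by linarith) h9
  have h11 : (N : ℝ) * (1 - 1 / Real.log N) - 1 ≤ NN (jj N) := by linarith
  have h12 : 1 - 1 / Real.log N - 1 / N ≤ (NN (jj N) : ℝ) / N := by
    rw [le_div_iff₀ hN0]
    have : (1 - 1 / Real.log N - 1 / N) * (N : ℝ) = (N : ℝ) * (1 - 1 / Real.log N) - 1 := by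
      field_simp
    rw [this]
    exact h11
  have h13 : 2 / Real.log N = 1 / Real.log N + 1 / Real.log N := by ring
  linarith

theorem assemble (D : Set ℕ) {k : ℕ} (hk : 1 ≤ k) (h : Fin k → ℕ) (hinj : Function.Injective h) (H : ℕ)
    (hH : ∀ i, h i ≤ H)
    (hyp : ∀ K w : ℕ, 1 ≤ K → ∀ m : ℕ, ∀ᶠ j : ℕ in atTop, Zdev h (NN j) (PP 0 (NN j + H)) (PP w (vv K (NN j)))
      (Fintype.piFinset (fun _ : Fin k => range (TT (NN j)))) (sel D (PP 0 (NN j + H))) ≤
        3 * (1 / ((m : ℝ) + 1)) * (NN j : ℕ)) :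
    Tendsto (fun N : ℕ => dev D h N) atTop (nhds 0) := by
  classical
  obtain ⟨C, hC⟩ : ∃ C : ℝ, C = 1 + 2 * k * 3 ^ k := ⟨_, rfl⟩
  have hC1 : 1 ≤ C := by
    rw [hC]
    have : (0 : ℝ) ≤ 2 * k * 3 ^ k := by positivity
    linarith
  rw [Metric.tendsto_nhds]
  intro η hη
  obtain ⟨ε, hε⟩ : ∃ ε : ℝ, ε = min (η / (8 * C)) (1 / 3) := ⟨_, rfl⟩
  have hε0 : 0 < ε := by
    rw [hε]
    apply lt_min
    · positivity
    · norm_num
  have hε1 : ε ≤ 1 / 3 := by rw [hε]; exact min_le_right _ _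
  have hε2 : C * (3 * ε) ≤ 3 / 8 * η := by
    have : ε ≤ η / (8 * C) := by rw [hε]; exact min_le_left _ _
    rw [le_div_iff₀ (by linarith)] at this
    nlinarith
  obtain ⟨m0, hm0⟩ : ∃ m0 : ℕ, 3 * (1 / ((m0 : ℝ) + 1)) ≤ ε := by
    obtain ⟨m0, hm0⟩ := exists_nat_ge (3 / ε)
    refine ⟨m0, ?_⟩
    rw [div_le_iff₀ hε0] at hm0
    rw [mul_one_div, div_le_iff₀ (by positivity)]
    nlinarith
  obtain ⟨K, w0, hK, hlaw⟩ := law_trunc k hk ε hε0
  obtain ⟨w, hw⟩ : ∃ w, w = max w0 H := ⟨_, rfl⟩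
  obtain ⟨y0, hy0⟩ := hlaw h w H hinj hH (by rw [hw]; exact le_max_left _ _) (by rw [hw]; exact le_max_right _ _)
  have htail : Tendsto (fun N : ℕ => (1 + 2 * (H : ℝ) / N) ^ k - 1) atTop (nhds 0) := by
    have h1 : Tendsto (fun N : ℕ => 2 * (H : ℝ) / N) atTop (nhds 0) :=
      tendsto_const_div_atTop_nhds_zero_nat _
    have h2 := ((h1.const_add 1).pow k).sub_const 1
    simpa using h2
  have hlog2 : Tendsto (fun N : ℕ => 2 * (2 / Real.log (N : ℝ))) atTop (nhds 0) := by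
    have := (log_tendsto.const_div_atTop 2).const_mul 2
    simpa using this
  filter_upwards [jj_tendsto.eventually (hyp K w hK m0), NN_jj_ge,
    (NN_tendsto.comp jj_tendsto).eventually ((vv_tendsto K hK).eventually_ge_atTop y0),
    (NN_tendsto.comp jj_tendsto).eventually_ge_atTop (max H 8), eventually_ge_atTop (max H 8),
    (Metric.tendsto_nhds.1 htail) (η / 4) (by positivity), (Metric.tendsto_nhds.1 hlog2) ε hε0]
    with N g1 g2 g3 g4 g5 g6 g7
  dsimp only [Function.comp_apply] at g3 g4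
  obtain ⟨N', hN'⟩ : ∃ N', N' = NN (jj N) := ⟨_, rfl⟩
  rw [← hN'] at g1 g2 g3 g4
  have g4a : H ≤ N' := le_trans (le_max_left _ _) g4
  have g4b : 8 ≤ N' := le_trans (le_max_right _ _) g4
  have g5a : H ≤ N := le_trans (le_max_left _ _) g5
  have g5b : 8 ≤ N := le_trans (le_max_right _ _) g5
  have hNN : N' ≤ N := by rw [hN']; exact NN_jj_le N (by omega)
  have hN'r : (0 : ℝ) < N' := by exact_mod_cast (by omega : 0 < N')
  have hNr : (0 : ℝ) < N := by exact_mod_cast (by omega : 0 < N)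
  have hTT : ∀ M : ℕ, 2 * M < 2 ^ TT M := fun M => Nat.lt_pow_succ_log_self (by norm_num) _
  obtain ⟨m, hm, hml⟩ := hy0 (vv K N') N' g3 (vv_pow K N' hK) (by omega) (sel D (PP 0 (N' + H)))
  obtain ⟨B, hB⟩ : ∃ B, B = Fintype.piFinset (fun _ : Fin k => range (TT N)) := ⟨_, rfl⟩
  obtain ⟨B', hB'⟩ : ∃ B', B' = Fintype.piFinset (fun _ : Fin k => range (TT N')) := ⟨_, rfl⟩
  -- the first step
  have s1 := scale_close (fun n i => Om D (n + h i)) N' N (by omega) hNN B
  have s1' : 2 * (1 - (N' : ℝ) / N) ≤ ε := by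
    rw [Real.dist_eq, sub_zero] at g7
    have := le_abs_self (2 * (2 / Real.log (N : ℝ)))
    linarith
  -- the second step
  have hvec : ∀ n ∈ Icc 1 N', (fun i => Om D (n + h i)) = gV h (PP 0 (N' + H)) (sel D (PP 0 (N' + H))) n := by
    intro n hn
    apply Om_eq_gV
    intro j
    have := (mem_Icc.1 hn).2
    have := hH j
    omega
  have hsubU : PP w (vv K N') ⊆ PP 0 (N' + H) := by
    intro p hp
    rw [mem_PP] at hp ⊢
    have := vv_le K N' hK
    exact ⟨⟨by omega, by omega⟩, hp.2⟩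
  have hval : ∀ U, U ⊆ PP 0 (N' + H) → ∀ n ∈ Icc 1 N', gV h U (sel D (PP 0 (N' + H))) n ∈ B' := by
    intro U hU n hn
    rw [hB', Fintype.mem_piFinset]
    intro j
    rw [mem_range]
    apply gV_lt h (N' + H) (TT N') (sel D (PP 0 (N' + H))) (lt_of_le_of_lt (by omega) (hTT N'))
      (by unfold TT; omega) n (mem_Icc.1 hn).1 _ j U hU
    intro j
    have := (mem_Icc.1 hn).2
    have := hH j
    omega
  have s2 : ∑ l ∈ B, |cnt (fun n i => Om D (n + h i)) N' l / N' -
      cnt (gV h (PP w (vv K N')) (sel D (PP 0 (N' + H)))) N' l / N'| ≤ ε := by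
    have e1 : ∀ l, |cnt (fun n i => Om D (n + h i)) N' l / N' -
      cnt (gV h (PP w (vv K N')) (sel D (PP 0 (N' + H)))) N' l / N'| =
      |∑ n ∈ Icc 1 N', (ind (gV h (PP 0 (N' + H)) (sel D (PP 0 (N' + H))) n) l -
        ind (gV h (PP w (vv K N')) (sel D (PP 0 (N' + H))) n) l)| / N' := by
      intro l
      rw [← sub_div, abs_div, abs_of_pos hN'r]
      congr 2
      unfold cnt
      rw [← sum_sub_distrib]
      apply sum_congr rfl
      intro n hn
      dsimp only
      rw [hvec n hn]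
    have e2 : ∀ l, l ∉ B' → ∑ n ∈ Icc 1 N', (ind (gV h (PP 0 (N' + H)) (sel D (PP 0 (N' + H))) n) l -
        ind (gV h (PP w (vv K N')) (sel D (PP 0 (N' + H))) n) l) = 0 := by
      intro l hl
      apply sum_eq_zero
      intro n hn
      unfold ind
      rw [if_neg, if_neg, sub_zero]
      · intro e
        exact hl (e ▸ hval _ hsubU n hn)
      · intro e
        exact hl (e ▸ hval _ (Subset.refl _) n hn)
    rw [sum_congr rfl fun l _ => e1 l, ← sum_div]
    rw [div_le_iff₀ hN'r]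
    calc ∑ l ∈ B, |∑ n ∈ Icc 1 N', (ind (gV h (PP 0 (N' + H)) (sel D (PP 0 (N' + H))) n) l -
        ind (gV h (PP w (vv K N')) (sel D (PP 0 (N' + H))) n) l)|
        ≤ ∑ l ∈ B', |∑ n ∈ Icc 1 N', (ind (gV h (PP 0 (N' + H)) (sel D (PP 0 (N' + H))) n) l -
        ind (gV h (PP w (vv K N')) (sel D (PP 0 (N' + H))) n) l)| := by
          rw [← sum_filter_add_sum_filter_not B (fun l => l ∈ B')]
          rw [sum_eq_zero (s := B.filter (fun l => l ∉ B')) (fun l hl => by
            rw [e2 l (mem_filter.1 hl).2, abs_zero]), add_zero]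
          apply sum_le_sum_of_subset_of_nonneg
          · intro l hl
            exact (mem_filter.1 hl).2
          · intro _ _ _
            exact abs_nonneg _
      _ ≤ 3 * (1 / ((m0 : ℝ) + 1)) * N' := by
          rw [hB']
          exact g1
      _ ≤ ε * N' := mul_le_mul_of_nonneg_right hm0 hN'r.le
  have s3 := hml B
  have s4 : ∑ l ∈ B, |cnt (fun n i => Om D (n + h i)) N l / N - ∏ i, m (l i)| ≤ 3 * ε := by
    calc ∑ l ∈ B, |cnt (fun n i => Om D (n + h i)) N l / N - ∏ i, m (l i)|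
        ≤ ∑ l ∈ B, (|cnt (fun n i => Om D (n + h i)) N l / N - cnt (fun n i => Om D (n + h i)) N' l / N'| +
          |cnt (fun n i => Om D (n + h i)) N' l / N' -
            cnt (gV h (PP w (vv K N')) (sel D (PP 0 (N' + H)))) N' l / N'| +
          |cnt (gV h (PP w (vv K N')) (sel D (PP 0 (N' + H)))) N' l / N' - ∏ i, m (l i)|) := by
          apply sum_le_sum
          intro l _
          refine (abs_sub_le _ (cnt (gV h (PP w (vv K N')) (sel D (PP 0 (N' + H)))) N' l / N') _).trans ?_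
          exact add_le_add (abs_sub_le _ _ _) le_rfl
      _ ≤ ε + ε + ε := by
          rw [sum_add_distrib, sum_add_distrib]
          exact add_le_add (add_le_add (s1.trans s1') s2) s3
      _ = 3 * ε := by ring
  have s5 := dev_le D hk h H hH N (TT N) (by omega) (by unfold TT; omega) (lt_of_le_of_lt (by omega) (hTT N)) m hm
    (3 * ε) (by positivity) (by linarith) (by rw [hB] at s4; exact s4)
  rw [← hC] at s5
  have s6 : 0 ≤ dev D h N := by
    unfold dev
    exact tsum_nonneg fun _ => abs_nonneg _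
  rw [Real.dist_eq, sub_zero, abs_of_nonneg s6]
  rw [Real.dist_eq, sub_zero] at g6
  have := le_abs_self ((1 + 2 * (H : ℝ) / N) ^ k - 1)
  linarith

end Pool.Agent.K4H19.RO
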