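import Pool.Agent.K4H19.RO.Ex

set_option autoImplicit false

/-!
# The second moment of the deviation of an empirical law
-/

namespace Pool.Agent.K4H19.RO

open Finset

open Classical in
/-- indicator -/
noncomputable def ind {α : Type*} (a b : α) : ℝ := if a = b then 1 else 0

lemma ind_nonneg {α : Type*} (a b : α) : 0 ≤ ind a b := by unfold ind; split_ifs <;> norm_num

lemma ind_le {α : Type*} (a b : α) : ind a b ≤ 1 := by unfold ind; split_ifs <;> norm_num

lemma sum_ind_le {α : Type*} (B : Finset α) (a : α) : ∑ l ∈ B, ind a l ≤ 1 := by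
  classical
  unfold ind
  rw [Finset.sum_ite_eq]
  split_ifs <;> norm_num

lemma sum_ind {α : Type*} (B : Finset α) (a : α) (ha : a ∈ B) (F : α → ℝ) : ∑ l ∈ B, ind a l * F l = F a := by
  classical
  unfold ind
  simp only [ite_mul, one_mul, zero_mul]
  rw [Finset.sum_ite_eq, if_pos ha]

open Classical in
/-- the second moment -/
lemma second {α : Type*} {q : ℕ → ℝ} (h0 : ∀ p, 0 ≤ q p) (h1 : ∀ p, q p ≤ 1) (W : Finset ℕ)
    (s : Finset ℕ) (B : Finset α) (P : ℕ → Finset ℕ) (hP : ∀ n ∈ s, P n ⊆ W)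
    (g : ℕ → Finset ℕ → α) (hg : ∀ n ∈ s, ∀ D, g n D = g n (D ∩ P n)) :
    Ex q W (fun D => (∑ l ∈ B, |∑ n ∈ s, (ind (g n D) l - Ex q W (fun D => ind (g n D) l))|) ^ 2) ≤
      B.card * ((s ×ˢ s).filter (fun x => ¬ Disjoint (P x.1) (P x.2))).card := by
  have e1 : Ex q W (fun D => (∑ l ∈ B, |∑ n ∈ s, (ind (g n D) l - Ex q W (fun D => ind (g n D) l))|) ^ 2) ≤
      Ex q W (fun D => B.card * ∑ l ∈ B, (∑ n ∈ s, (ind (g n D) l - Ex q W (fun D => ind (g n D) l))) ^ 2) := by
    apply Ex_mono h0 h1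
    intro D _
    have := sq_sum_le_card_mul_sum_sq (s := B) (f := fun l => |∑ n ∈ s, (ind (g n D) l - Ex q W (fun D => ind (g n D) l))|)
    refine this.trans (le_of_eq ?_)
    congr 1
    apply sum_congr rfl
    intro l _
    rw [sq_abs]
  refine e1.trans ?_
  rw [Ex_mul]
  apply mul_le_mul_of_nonneg_left _ (Nat.cast_nonneg _)
  -- expand
  have e2 : ∀ l, Ex q W (fun D => (∑ n ∈ s, (ind (g n D) l - Ex q W (fun D => ind (g n D) l))) ^ 2) =
      ∑ x ∈ s ×ˢ s, (Ex q W (fun D => ind (g x.1 D) l * ind (g x.2 D) l) -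
        Ex q W (fun D => ind (g x.1 D) l) * Ex q W (fun D => ind (g x.2 D) l)) := by
    intro l
    have : ∀ D, (∑ n ∈ s, (ind (g n D) l - Ex q W (fun D => ind (g n D) l))) ^ 2 =
        ∑ x ∈ s ×ˢ s, ((ind (g x.1 D) l - Ex q W (fun D => ind (g x.1 D) l)) *
          (ind (g x.2 D) l - Ex q W (fun D => ind (g x.2 D) l))) := by
      intro D
      rw [sq, sum_mul_sum, sum_product]
    simp only [this]
    rw [Ex_sum]
    apply sum_congr rfl
    intro x _
    obtain ⟨u, hu⟩ : ∃ u, u = Ex q W (fun D => ind (g x.1 D) l) := ⟨_, rfl⟩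
    obtain ⟨v, hv⟩ : ∃ v, v = Ex q W (fun D => ind (g x.2 D) l) := ⟨_, rfl⟩
    rw [← hu, ← hv]
    have e3 : (fun D => (ind (g x.1 D) l - u) * (ind (g x.2 D) l - v)) =
        (fun D => (ind (g x.1 D) l * ind (g x.2 D) l - v * ind (g x.1 D) l) -
          (u * ind (g x.2 D) l - u * v)) := by
      funext D; ring
    rw [e3, Ex_sub, Ex_sub, Ex_sub, Ex_mul, Ex_mul, Ex_const, ← hu, ← hv]
    ring
  rw [Ex_sum]
  simp only [e2]
  rw [sum_comm, card_filter]
  push_cast
  apply sum_le_sum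
  intro x hx
  rw [mem_product] at hx
  split_ifs with hd
  · -- disjoint: independence
    rw [← Finset.disjoint_coe] at hd
    apply le_of_eq
    apply sum_eq_zero
    intro l _
    rw [sub_eq_zero]
    apply Ex_indep (hP x.1 hx.1)
    · intro S
      rw [hg x.1 hx.1 S]
    · intro S
      rw [hg x.2 hx.2 S, hg x.2 hx.2 (S \ P x.1)]
      congr 2
      ext y
      simp only [mem_inter, mem_sdiff]
      constructor
      · rintro ⟨a, b⟩
        exact ⟨⟨a, fun h => (Finset.disjoint_left.1 (Finset.disjoint_coe.1 hd)) h b⟩, b⟩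
      · rintro ⟨⟨a, _⟩, b⟩
        exact ⟨a, b⟩
  · have : ∑ l ∈ B, (Ex q W (fun D => ind (g x.1 D) l * ind (g x.2 D) l) -
        Ex q W (fun D => ind (g x.1 D) l) * Ex q W (fun D => ind (g x.2 D) l)) ≤
        ∑ l ∈ B, Ex q W (fun D => ind (g x.1 D) l) := by
      apply sum_le_sum
      intro l _
      have a1 : Ex q W (fun D => ind (g x.1 D) l * ind (g x.2 D) l) ≤ Ex q W (fun D => ind (g x.1 D) l) := by
        apply Ex_mono h0 h1
        intro D _
        nlinarith [ind_nonneg (g x.1 D) l, ind_le (g x.2 D) l]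
      have a2 : 0 ≤ Ex q W (fun D => ind (g x.1 D) l) := Ex_nonneg h0 h1 fun D _ => ind_nonneg _ _
      have a3 : 0 ≤ Ex q W (fun D => ind (g x.2 D) l) := Ex_nonneg h0 h1 fun D _ => ind_nonneg _ _
      nlinarith [mul_nonneg a2 a3]
    refine this.trans ?_
    rw [← Ex_sum]
    refine (Ex_mono h0 h1 (Ψ := fun _ => 1) fun D _ => sum_ind_le B _).trans (by rw [Ex_const])

end Pool.Agent.K4H19.RO
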