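import Pool.Agent.K4H19.RO.Sm2
import Pool.Agent.K4H19.RO.Var
import Pool.Agent.K4H19.RO.Cnt

set_option autoImplicit false

/-!
# The law of the vector of the numbers of the kept prime factors is close to the truncated one
-/

namespace Pool.Agent.K4H19.RO

open Finset
open Pool.Agent.W208.TL (PP)

/-- the exponents -/
def nu {k : ℕ} (h : Fin k → ℕ) (n : ℕ) (j : Fin k) (p : ℕ) : ℕ := (n + h j).factorization p

/-- the numbers of prime factors in `U \ S` -/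
def gV {k : ℕ} (h : Fin k → ℕ) (U S : Finset ℕ) (n : ℕ) (j : Fin k) : ℕ :=
  ∑ p ∈ U \ S, (n + h j).factorization p

/-- the elements of `W` dividing one of the `n + h j` -/
def shr {k : ℕ} (h : Fin k → ℕ) (W : Finset ℕ) (n : ℕ) : Finset ℕ := W.filter (fun p => ∃ j, p ∣ n + h j)

lemma XX_inter {k : ℕ} (h : Fin k → ℕ) (W D : Finset ℕ) (n : ℕ) (j : Fin k) :
    XX (nu h n) W D j = XX (nu h n) W (D ∩ shr h W n) j := by
  unfold XX
  apply sum_subset
  · intro p hp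
    rw [mem_sdiff] at hp ⊢
    exact ⟨hp.1, fun h1 => hp.2 (mem_inter.1 h1).1⟩
  · intro p hp hp2
    rw [mem_sdiff] at hp hp2
    unfold nu
    apply Nat.factorization_eq_zero_of_not_dvd
    intro hd
    by_cases h3 : p ∈ D
    · exact hp.2 (mem_inter.2 ⟨h3, mem_filter.2 ⟨hp.1, j, hd⟩⟩)
    · exact hp2 ⟨hp.1, h3⟩

lemma gV_split {k : ℕ} (h : Fin k → ℕ) {U W E D : Finset ℕ} (hWU : W ⊆ U) (hE : Disjoint E W) (hD : D ⊆ W)
    (n : ℕ) (j : Fin k) : gV h U (E ∪ D) n j = XX (nu h n) W D j + gV h (U \ W) E n j := by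
  unfold gV XX nu
  rw [← sum_union]
  · apply sum_congr _ fun _ _ => rfl
    ext p
    simp only [mem_sdiff, mem_union]
    constructor
    · rintro ⟨h1, h2⟩
      push Not at h2
      by_cases h3 : p ∈ W
      · exact Or.inl ⟨h3, h2.2⟩
      · exact Or.inr ⟨⟨h1, h3⟩, h2.1⟩
    · rintro (⟨h1, h2⟩ | ⟨⟨h1, h2⟩, h3⟩)
      · refine ⟨hWU h1, ?_⟩
        rintro (h4 | h4)
        · exact disjoint_left.1 hE h4 h1
        · exact h2 h4
      · refine ⟨h1, ?_⟩
        rintro (h4 | h4)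
        · exact h3 h4
        · exact h2 (hD h4)
  · rw [disjoint_left]
    intro p hp hp2
    rw [mem_sdiff] at hp hp2
    exact (mem_sdiff.1 hp2.1).2 hp.1

lemma gV_add {k : ℕ} (h : Fin k → ℕ) {U U' E : Finset ℕ} (hU : U' ⊆ U) (n : ℕ) (j : Fin k) :
    gV h U E n j = gV h U' E n j + gV h (U \ U') E n j := by
  unfold gV
  rw [← sum_union]
  · apply sum_congr _ fun _ _ => rfl
    ext p
    simp only [mem_sdiff, mem_union]
    constructor
    · rintro ⟨h1, h2⟩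
      by_cases h3 : p ∈ U'
      · exact Or.inl ⟨h3, h2⟩
      · exact Or.inr ⟨⟨h1, h3⟩, h2⟩
    · rintro (⟨h1, h2⟩ | ⟨⟨h1, _⟩, h3⟩)
      · exact ⟨hU h1, h2⟩
      · exact ⟨h1, h3⟩
  · rw [disjoint_left]
    intro p hp hp2
    rw [mem_sdiff] at hp hp2
    exact (mem_sdiff.1 hp2.1).2 hp.1

lemma nu_disj {k : ℕ} (h : Fin k → ℕ) (hinj : Function.Injective h) (H u : ℕ) (hH : ∀ j, h j ≤ H) (hHu : H ≤ u)
    (n p : ℕ) (hp : u < p) (j i : Fin k) (hij : i ≠ j) (h1 : nu h n j p = 1) : nu h n i p = 0 := by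
  unfold nu at *
  apply Nat.factorization_eq_zero_of_not_dvd
  intro hd
  have hd2 : p ∣ n + h j := by
    apply Nat.dvd_of_factorization_pos
    omega
  have hne : h i ≠ h j := fun e => hij (hinj e)
  have hi := hH i
  have hj := hH j
  rcases lt_or_gt_of_ne hne with hlt | hlt
  · have := (Nat.dvd_sub hd2 hd)
    have e : n + h j - (n + h i) = h j - h i := by omega
    rw [e] at this
    have := Nat.le_of_dvd (by omega) this
    omega
  · have := (Nat.dvd_sub hd hd2)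
    have e : n + h i - (n + h j) = h i - h j := by omega
    rw [e] at this
    have := Nat.le_of_dvd (by omega) this
    omega

/-- signs -/
lemma sign_sum {α : Type*} {q : ℕ → ℝ} (W : Finset ℕ) (Bx : Finset α) (X Y : Finset ℕ → α) :
    ∃ G : α → ℝ, (∀ x, |G x| ≤ 1) ∧
      ∑ l ∈ Bx, |Ex q W (fun D => ind (X D) l) - Ex q W (fun D => ind (Y D) l)| =
        Ex q W (fun D => G (X D)) - Ex q W (fun D => G (Y D)) := by
  classical
  obtain ⟨σ, hσ⟩ : ∃ σ : α → ℝ, σ = fun l =>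
    if 0 ≤ Ex q W (fun D => ind (X D) l) - Ex q W (fun D => ind (Y D) l) then 1 else -1 := ⟨_, rfl⟩
  have hσ1 : ∀ l, |σ l| ≤ 1 := by
    intro l
    rw [hσ]
    dsimp only
    split_ifs <;> simp
  have hσ2 : ∀ l, |Ex q W (fun D => ind (X D) l) - Ex q W (fun D => ind (Y D) l)| =
      Ex q W (fun D => ind (X D) l * σ l) - Ex q W (fun D => ind (Y D) l * σ l) := by
    intro l
    have e1 : ∀ X : Finset ℕ → α, Ex q W (fun D => ind (X D) l * σ l) = σ l * Ex q W (fun D => ind (X D) l) := by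
      intro X
      rw [← Ex_mul]
      exact Ex_congr fun S _ => mul_comm _ _
    rw [e1, e1, ← mul_sub, hσ]
    dsimp only
    split_ifs with h
    · rw [abs_of_nonneg h, one_mul]
    · rw [abs_of_neg (lt_of_not_ge h)]
      ring
  refine ⟨fun x => ∑ l ∈ Bx, ind x l * σ l, ?_, ?_⟩
  · intro x
    refine (abs_sum_le_sum_abs _ _).trans ?_
    refine (sum_le_sum fun l _ => ?_).trans (sum_ind_le Bx x)
    rw [abs_mul, abs_of_nonneg (ind_nonneg _ _)]
    exact mul_le_of_le_one_right (ind_nonneg _ _) (hσ1 l)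
  · rw [Ex_sum, Ex_sum, ← sum_sub_distrib]
    exact sum_congr rfl fun l _ => hσ2 l

lemma two_bound {α : Type*} {q : ℕ → ℝ} (h0 : ∀ p, 0 ≤ q p) (h1 : ∀ p, q p ≤ 1) (W : Finset ℕ) (G : α → ℝ)
    (hG : ∀ x, |G x| ≤ 1) (X Y : Finset ℕ → α) :
    Ex q W (fun D => G (X D)) - Ex q W (fun D => G (Y D)) ≤ 2 := by
  have e1 : ∀ X : Finset ℕ → α, |Ex q W (fun D => G (X D))| ≤ 1 := by
    intro X
    refine (Ex_abs_le h0 h1 W _).trans ?_
    have := Ex_mono h0 h1 (M := W) (Φ := fun D => |G (X D)|) (Ψ := fun _ => 1) (fun S _ => hG _)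
    rwa [Ex_const] at this
  have := abs_le.1 (e1 X)
  have := abs_le.1 (e1 Y)
  linarith

open Classical in
/-- the exceptional integers -/
noncomputable def bad {k : ℕ} (q : ℕ → ℝ) (h : Fin k → ℕ) (W : Finset ℕ) (N w B : ℕ) (Y : ℝ) : Finset ℕ :=
  (Icc 1 N).filter (fun n => ¬ ((∀ j, Y ≤ ∑ p ∈ W.filter (fun p => nu h n j p = 1), q p * (1 - q p)) ∧
    ∀ j, ∑ p ∈ PP 0 w, (n + h j).factorization p ≤ B))

/-- the total deviation of the full from the truncated law -/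
noncomputable def Zdev {k : ℕ} (h : Fin k → ℕ) (N : ℕ) (U U' : Finset ℕ) (Bx : Finset (Fin k → ℕ)) (S : Finset ℕ) : ℝ :=
  ∑ l ∈ Bx, |∑ n ∈ Icc 1 N, (ind (gV h U S n) l - ind (gV h U' S n) l)|

lemma inner {ε Y : ℝ} (hε : 0 ≤ ε) (hY : ∀ q : ℕ → ℝ, (∀ p, 0 ≤ q p) → (∀ p, q p ≤ 1) →
    ∀ P : Finset ℕ, Y ≤ ∑ p ∈ P, q p * (1 - q p) → ∀ G : ℕ → ℝ, (∀ n, |G n| ≤ 1) →
    |Ex q P (fun D => G ((P \ D).card + 1)) - Ex q P (fun D => G (P \ D).card)| ≤ ε)
    {k : ℕ} (q : ℕ → ℝ) (h0 : ∀ p, 0 ≤ q p) (h1 : ∀ p, q p ≤ 1) (h : Fin k → ℕ) (hinj : Function.Injective h)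
    (H N w u v K B : ℕ) (hN : 1 ≤ N) (hH : ∀ j, h j ≤ H) (hHu : H ≤ u) (hwu : w ≤ u) (hu : 1 ≤ u)
    (huv : u ≤ v) (hvM : v ≤ N + H) (hK : N + H < (v + 1) ^ (K + 1)) (Bx : Finset (Fin k → ℕ)) (δ : ℝ) (hδ : 0 < δ)
    (hbad : k * (B + K) * ε * N + 2 * ((bad q h (PP u v) N w B Y).card : ℝ) ≤ δ * N)
    (E : Finset ℕ) (hE : Disjoint E (PP u v)) :
    Ex q (PP u v) (fun D => if 3 * δ * N < Zdev h N (PP 0 (N + H)) (PP w v) Bx (E ∪ D) then (1 : ℝ) else 0) ≤
      2 * Bx.card * (((k : ℝ) * ((N : ℝ) + H)) ^ 2 / (u : ℝ)) / (δ * N) ^ 2 := by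
  classical
  obtain ⟨W, hW⟩ : ∃ W, W = PP u v := ⟨_, rfl⟩
  have hNr : (0 : ℝ) < N := by exact_mod_cast hN
  have hW1 : W ⊆ PP w v := by
    intro p hp
    rw [hW, mem_PP] at hp
    rw [mem_PP]
    exact ⟨⟨by omega, hp.1.2⟩, hp.2⟩
  have hW2 : PP w v ⊆ PP 0 (N + H) := by
    intro p hp
    rw [mem_PP] at hp
    rw [mem_PP]
    exact ⟨⟨by omega, by omega⟩, hp.2⟩
  have hWp : ∀ p ∈ W, p.Prime := fun p hp => by
    rw [hW, mem_PP] at hp
    exact hp.2
  have hWu : ∀ p ∈ W, u < p := fun p hp => by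
    rw [hW, mem_PP] at hp
    exact hp.1.1
  rw [← hW] at hE hbad ⊢
  -- the vectors
  obtain ⟨a, ha⟩ : ∃ a : ℕ → Fin k → ℕ, a = fun n => gV h (PP w v \ W) E n := ⟨_, rfl⟩
  obtain ⟨r, hr⟩ : ∃ r : ℕ → Fin k → ℕ, r = fun n => gV h (PP 0 (N + H) \ PP w v) E n := ⟨_, rfl⟩
  obtain ⟨XF, hXF⟩ : ∃ XF : ℕ → Finset ℕ → Fin k → ℕ, XF = fun n D i => XX (nu h n) W D i + (a n i + r n i) :=
    ⟨_, rfl⟩
  obtain ⟨XT, hXT⟩ : ∃ XT : ℕ → Finset ℕ → Fin k → ℕ, XT = fun n D i => XX (nu h n) W D i + a n i := ⟨_, rfl⟩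
  have eT : ∀ n D, D ⊆ W → gV h (PP w v) (E ∪ D) n = XT n D := by
    intro n D hD
    rw [hXT, ha]
    funext j
    exact gV_split h hW1 hE hD n j
  have eF : ∀ n D, D ⊆ W → gV h (PP 0 (N + H)) (E ∪ D) n = XF n D := by
    intro n D hD
    rw [hXF, ha, hr]
    funext j
    dsimp only
    rw [gV_split h (hW1.trans hW2) hE hD n j]
    congr 1
    rw [gV_add h (U' := PP w v \ W) (sdiff_subset_sdiff hW2 (Subset.refl W)) n j]
    congr 2
    ext p
    simp only [mem_sdiff]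
    constructor
    · rintro ⟨⟨h2, h3⟩, h4⟩
      exact ⟨h2, fun h5 => h4 ⟨h5, h3⟩⟩
    · rintro ⟨h2, h3⟩
      exact ⟨⟨h2, fun h4 => h3 (hW1 h4)⟩, fun h4 => h3 h4.1⟩
  -- good integers
  have hgood : ∀ n ∈ Icc 1 N, n ∉ bad q h W N w B Y → ∀ G : (Fin k → ℕ) → ℝ, (∀ x, |G x| ≤ 1) →
      Ex q W (fun D => G (XF n D)) - Ex q W (fun D => G (XT n D)) ≤ k * (B + K) * ε := by
    intro n hn hnb G hG
    unfold bad at hnb
    rw [mem_filter] at hnb
    push Not at hnb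
    obtain ⟨g1, g2⟩ := hnb hn
    have hs := shift hY q h0 h1 W (nu h n) (fun p hp j h3 i hij =>
      nu_disj h hinj H u hH hHu n p (hWu p hp) j i hij h3) g1 G hG (∑ i, r n i) (a n) (r n) rfl
    have hs2 : ((∑ i, r n i : ℕ) : ℝ) ≤ k * (B + K) := by
      have : ∑ i, r n i ≤ ∑ _i : Fin k, (B + K) := by
        apply sum_le_sum
        intro i _
        rw [hr]
        dsimp only
        unfold gV
        have e1 : (PP 0 (N + H) \ PP w v) \ E ⊆ PP 0 w ∪ PP v (N + H) := by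
          intro p hp
          rw [mem_sdiff, mem_sdiff, mem_PP, mem_PP] at hp
          rw [mem_union, mem_PP, mem_PP]
          by_cases h3 : p ≤ w
          · exact Or.inl ⟨⟨hp.1.1.1.1, h3⟩, hp.1.1.2⟩
          · right
            refine ⟨⟨?_, hp.1.1.1.2⟩, hp.1.1.2⟩
            by_contra h4
            exact hp.1.2 ⟨⟨by omega, by omega⟩, hp.1.1.2⟩
        refine (sum_le_sum_of_subset e1).trans ?_
        rw [sum_union (by
          rw [disjoint_left]
          intro p hp hp2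
          rw [mem_PP] at hp hp2
          omega)]
        refine Nat.add_le_add (g2 i) ?_
        apply bigBound v (N + H) (n + h i) K
        · have := (mem_Icc.1 hn).1
          omega
        · have := (mem_Icc.1 hn).2
          have := hH i
          omega
      rw [sum_const, card_univ, Fintype.card_fin, smul_eq_mul] at this
      exact_mod_cast this
    have h5 := le_abs_self (Ex q W (fun D => G (fun i => XX (nu h n) W D i + (a n i + r n i))) -
      Ex q W (fun D => G (fun i => XX (nu h n) W D i + a n i)))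
    have h6 : ((∑ i, r n i : ℕ) : ℝ) * ε ≤ k * (B + K) * ε := mul_le_mul_of_nonneg_right hs2 hε
    rw [hXF, hXT]
    dsimp only
    linarith
  -- the middle term
  have hmid : ∑ l ∈ Bx, |∑ n ∈ Icc 1 N, (Ex q W (fun D => ind (XF n D) l) - Ex q W (fun D => ind (XT n D) l))| ≤
      δ * N := by
    have e1 : ∀ n ∈ Icc 1 N, ∑ l ∈ Bx, |Ex q W (fun D => ind (XF n D) l) - Ex q W (fun D => ind (XT n D) l)| ≤
        k * (B + K) * ε + if n ∈ bad q h W N w B Y then 2 else 0 := by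
      intro n hn
      obtain ⟨G, hG1, hG2⟩ := sign_sum (q := q) W Bx (XF n) (XT n)
      rw [hG2]
      split_ifs with hb
      · have := two_bound h0 h1 W G hG1 (XF n) (XT n)
        have : (0 : ℝ) ≤ k * (B + K) * ε := by positivity
        linarith
      · have := hgood n hn hb G hG1
        linarith
    calc _ ≤ ∑ l ∈ Bx, ∑ n ∈ Icc 1 N, |Ex q W (fun D => ind (XF n D) l) - Ex q W (fun D => ind (XT n D) l)| :=
          sum_le_sum fun l _ => abs_sum_le_sum_abs _ _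
      _ = ∑ n ∈ Icc 1 N, ∑ l ∈ Bx, |Ex q W (fun D => ind (XF n D) l) - Ex q W (fun D => ind (XT n D) l)| :=
          sum_comm
      _ ≤ ∑ n ∈ Icc 1 N, (k * (B + K) * ε + if n ∈ bad q h W N w B Y then 2 else 0) := sum_le_sum e1
      _ = k * (B + K) * ε * N + 2 * ((bad q h W N w B Y).card : ℝ) := by
          rw [sum_add_distrib, sum_const, Nat.card_Icc, nsmul_eq_mul, ← sum_filter, sum_const, nsmul_eq_mul]
          have e2 : (Icc 1 N).filter (fun n => n ∈ bad q h W N w B Y) = bad q h W N w B Y := by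
            ext n
            rw [mem_filter]
            refine ⟨fun h => h.2, fun h => ⟨?_, h⟩⟩
            unfold bad at h
            exact (mem_filter.1 h).1
          rw [e2]
          simp only [Nat.add_sub_cancel]
          ring
      _ ≤ δ * N := hbad
  -- the two outer terms
  obtain ⟨Z1, hZ1⟩ : ∃ Z1 : Finset ℕ → ℝ, Z1 = fun D => ∑ l ∈ Bx, |∑ n ∈ Icc 1 N, (ind (XF n D) l -
    Ex q W (fun D => ind (XF n D) l))| := ⟨_, rfl⟩
  obtain ⟨Z3, hZ3⟩ : ∃ Z3 : Finset ℕ → ℝ, Z3 = fun D => ∑ l ∈ Bx, |∑ n ∈ Icc 1 N, (ind (XT n D) l -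
    Ex q W (fun D => ind (XT n D) l))| := ⟨_, rfl⟩
  have hsh := shareCount W hWp u hu hWu h H N hH
  have hP : ∀ n ∈ Icc 1 N, shr h W n ⊆ W := fun n _ => filter_subset _ _
  have s1 := second h0 h1 W (Icc 1 N) Bx (fun n => shr h W n) hP XF (fun n _ D => by
    rw [hXF]
    funext j
    dsimp only
    rw [XX_inter])
  have s3 := second h0 h1 W (Icc 1 N) Bx (fun n => shr h W n) hP XT (fun n _ D => by
    rw [hXT]
    funext j
    dsimp only
    rw [XX_inter])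
  have hsh2 : (((Icc 1 N ×ˢ Icc 1 N).filter (fun x : ℕ × ℕ => ¬ Disjoint (shr h W x.1) (shr h W x.2))).card : ℝ) ≤
      ((k : ℝ) * ((N : ℝ) + H)) ^ 2 / (u : ℝ) := by
    refine le_trans (le_of_eq ?_) hsh
    congr!
  have s1' : Ex q W (fun D => Z1 D ^ 2) ≤ Bx.card * (((k : ℝ) * ((N : ℝ) + H)) ^ 2 / (u : ℝ)) := by
    rw [hZ1]
    refine s1.trans (mul_le_mul_of_nonneg_left ?_ (Nat.cast_nonneg _))
    refine le_trans (le_of_eq ?_) hsh2
    congr!
  have s3' : Ex q W (fun D => Z3 D ^ 2) ≤ Bx.card * (((k : ℝ) * ((N : ℝ) + H)) ^ 2 / (u : ℝ)) := by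
    rw [hZ3]
    refine s3.trans (mul_le_mul_of_nonneg_left ?_ (Nat.cast_nonneg _))
    refine le_trans (le_of_eq ?_) hsh2
    congr!
  have hZ10 : ∀ D, 0 ≤ Z1 D := fun D => by
    rw [hZ1]
    exact sum_nonneg fun _ _ => abs_nonneg _
  have hZ30 : ∀ D, 0 ≤ Z3 D := fun D => by
    rw [hZ3]
    exact sum_nonneg fun _ _ => abs_nonneg _
  have tri : ∀ D, D ⊆ W → Zdev h N (PP 0 (N + H)) (PP w v) Bx (E ∪ D) ≤ Z1 D + δ * N + Z3 D := by
    intro D hD
    unfold Zdev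
    refine le_trans ?_ (add_le_add (add_le_add (le_refl (Z1 D)) hmid) (le_refl (Z3 D)))
    rw [hZ1, hZ3]
    dsimp only
    rw [← sum_add_distrib, ← sum_add_distrib]
    apply sum_le_sum
    intro l _
    have e1 : ∑ n ∈ Icc 1 N, (ind (gV h (PP 0 (N + H)) (E ∪ D) n) l - ind (gV h (PP w v) (E ∪ D) n) l) =
        ∑ n ∈ Icc 1 N, (ind (XF n D) l - Ex q W (fun D => ind (XF n D) l)) +
        ∑ n ∈ Icc 1 N, (Ex q W (fun D => ind (XF n D) l) - Ex q W (fun D => ind (XT n D) l)) -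
        ∑ n ∈ Icc 1 N, (ind (XT n D) l - Ex q W (fun D => ind (XT n D) l)) := by
      rw [← sum_add_distrib, ← sum_sub_distrib]
      apply sum_congr rfl
      intro n _
      rw [eF n D hD, eT n D hD]
      ring
    rw [e1]
    refine (abs_sub _ _).trans ?_
    exact add_le_add (abs_add_le _ _) le_rfl
  have hδN : 0 < δ * N := by positivity
  calc Ex q W (fun D => if 3 * δ * N < Zdev h N (PP 0 (N + H)) (PP w v) Bx (E ∪ D) then (1 : ℝ) else 0)
      ≤ Ex q W (fun D => 1 / (δ * N) ^ 2 * (Z1 D ^ 2) + 1 / (δ * N) ^ 2 * (Z3 D ^ 2)) := by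
        apply Ex_mono h0 h1
        intro D hD
        have t := tri D hD
        split_ifs with hc
        · have h3 : δ * N < Z1 D ∨ δ * N < Z3 D := by
            by_contra hcon
            push Not at hcon
            linarith [hcon.1, hcon.2]
          have p1 : 0 ≤ 1 / (δ * N) ^ 2 * (Z1 D ^ 2) := by positivity
          have p3 : 0 ≤ 1 / (δ * N) ^ 2 * (Z3 D ^ 2) := by positivity
          rcases h3 with h3 | h3
          · have : 1 ≤ 1 / (δ * N) ^ 2 * (Z1 D ^ 2) := by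
              rw [one_div_mul_eq_div, one_le_div (by positivity)]
              exact pow_le_pow_left₀ hδN.le h3.le 2
            linarith
          · have : 1 ≤ 1 / (δ * N) ^ 2 * (Z3 D ^ 2) := by
              rw [one_div_mul_eq_div, one_le_div (by positivity)]
              exact pow_le_pow_left₀ hδN.le h3.le 2
            linarith
        · positivity
    _ = 1 / (δ * N) ^ 2 * Ex q W (fun D => Z1 D ^ 2) + 1 / (δ * N) ^ 2 * Ex q W (fun D => Z3 D ^ 2) := by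
        rw [Ex_add, Ex_mul, Ex_mul]
    _ ≤ 1 / (δ * N) ^ 2 * (Bx.card * (((k : ℝ) * ((N : ℝ) + H)) ^ 2 / (u : ℝ))) +
        1 / (δ * N) ^ 2 * (Bx.card * (((k : ℝ) * ((N : ℝ) + H)) ^ 2 / (u : ℝ))) :=
        add_le_add (mul_le_mul_of_nonneg_left s1' (by positivity)) (mul_le_mul_of_nonneg_left s3' (by positivity))
    _ = _ := by ring

theorem core {ε Y : ℝ} (hε : 0 ≤ ε) (hY : ∀ q : ℕ → ℝ, (∀ p, 0 ≤ q p) → (∀ p, q p ≤ 1) →
    ∀ P : Finset ℕ, Y ≤ ∑ p ∈ P, q p * (1 - q p) → ∀ G : ℕ → ℝ, (∀ n, |G n| ≤ 1) →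
    |Ex q P (fun D => G ((P \ D).card + 1)) - Ex q P (fun D => G (P \ D).card)| ≤ ε)
    {k : ℕ} (q : ℕ → ℝ) (h0 : ∀ p, 0 ≤ q p) (h1 : ∀ p, q p ≤ 1) (h : Fin k → ℕ) (hinj : Function.Injective h)
    (H N w u v K B : ℕ) (hN : 1 ≤ N) (hH : ∀ j, h j ≤ H) (hHu : H ≤ u) (hwu : w ≤ u) (hu : 1 ≤ u)
    (huv : u ≤ v) (hvM : v ≤ N + H) (hK : N + H < (v + 1) ^ (K + 1)) (Bx : Finset (Fin k → ℕ)) (δ : ℝ) (hδ : 0 < δ)
    (hbad : k * (B + K) * ε * N + 2 * ((bad q h (PP u v) N w B Y).card : ℝ) ≤ δ * N) :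
    Ex q (PP 0 (N + H)) (fun S => if 3 * δ * N < Zdev h N (PP 0 (N + H)) (PP w v) Bx S then (1 : ℝ) else 0) ≤
      2 * Bx.card * (((k : ℝ) * ((N : ℝ) + H)) ^ 2 / (u : ℝ)) / (δ * N) ^ 2 := by
  have hW : PP u v ⊆ PP 0 (N + H) := by
    intro p hp
    rw [mem_PP] at hp ⊢
    exact ⟨⟨by omega, by omega⟩, hp.2⟩
  rw [Ex_split (A := PP 0 (N + H) \ PP u v) sdiff_subset, Finset.sdiff_sdiff_eq_self hW]
  have key := Ex_mono h0 h1 (M := PP 0 (N + H) \ PP u v)
    (Φ := fun E => Ex q (PP u v) (fun D => if 3 * δ * N < Zdev h N (PP 0 (N + H)) (PP w v) Bx (E ∪ D)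
      then (1 : ℝ) else 0))
    (Ψ := fun _ => 2 * Bx.card * (((k : ℝ) * ((N : ℝ) + H)) ^ 2 / (u : ℝ)) / (δ * N) ^ 2)
    (fun E hE => inner hε hY q h0 h1 h hinj H N w u v K B hN hH hHu hwu hu huv hvM hK Bx δ hδ hbad E (by
      rw [disjoint_left]
      intro p hp hp2
      exact (mem_sdiff.1 (hE hp)).2 hp2))
  rwa [Ex_const] at key

/-- the number of exceptional integers -/
lemma bad_card {k : ℕ} (q : ℕ → ℝ) (h0 : ∀ p, 0 ≤ q p) (h1 : ∀ p, q p ≤ 1) (h : Fin k → ℕ) (H N w u v B : ℕ)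
    (hH : ∀ j, h j ≤ H) (hu : 1 ≤ u) (hB : 1 ≤ B) (Y L : ℝ) (hL : L = ∑ p ∈ PP u v, q p * (1 - q p) / p)
    (hL0 : 0 < L) (hYL : Y ≤ L / 2) :
    ((bad q h (PP u v) N w B Y).card : ℝ) ≤
      k * (4 / L * (N + H + 2 * v) + (N + H) / u + (N + H) * w / B) := by
  classical
  have hc0 : ∀ p, 0 ≤ q p * (1 - q p) := fun p => mul_nonneg (h0 p) (by linarith [h1 p])
  have hc1 : ∀ p, q p * (1 - q p) ≤ 1 := fun p => by nlinarith [h0 p, h1 p]
  have e1 : bad q h (PP u v) N w B Y ⊆ (univ : Finset (Fin k)).biUnion (fun j =>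
      ((Icc 1 N).filter (fun n => ∑ p ∈ (PP u v).filter (fun p => (n + h j).factorization p = 1),
        q p * (1 - q p) < Y)) ∪
      (Icc 1 N).filter (fun n => B < ∑ p ∈ PP 0 w, (n + h j).factorization p)) := by
    intro n hn
    unfold bad at hn
    rw [mem_filter] at hn
    rw [mem_biUnion]
    by_cases hc : ∀ j, Y ≤ ∑ p ∈ (PP u v).filter (fun p => nu h n j p = 1), q p * (1 - q p)
    · have h3 : ¬ ∀ j, ∑ p ∈ PP 0 w, (n + h j).factorization p ≤ B := fun h4 => hn.2 ⟨hc, h4⟩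
      push Not at h3
      obtain ⟨j, hj⟩ := h3
      exact ⟨j, mem_univ _, mem_union_right _ (mem_filter.2 ⟨hn.1, hj⟩)⟩
    · push Not at hc
      obtain ⟨j, hj⟩ := hc
      exact ⟨j, mem_univ _, mem_union_left _ (mem_filter.2 ⟨hn.1, hj⟩)⟩
  have e2 : ∀ j : Fin k, ((((Icc 1 N).filter (fun n => ∑ p ∈ (PP u v).filter (fun p => (n + h j).factorization p = 1),
        q p * (1 - q p) < Y)) ∪
      (Icc 1 N).filter (fun n => B < ∑ p ∈ PP 0 w, (n + h j).factorization p)).card : ℝ) ≤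
      4 / L * (N + H + 2 * v) + (N + H) / u + (N + H) * w / B := by
    intro j
    have hj : (h j : ℝ) ≤ H := by exact_mod_cast hH j
    have m1 := massCount (PP u v) (fun p hp => (mem_PP.1 hp).2) u v hu (fun p hp => (mem_PP.1 hp).1.1)
      (fun p hp => (mem_PP.1 hp).1.2) (fun p => q p * (1 - q p)) hc0 hc1 Y L hL hL0 hYL N (h j)
    have m2 := smallCount w B N (h j) hB
    have hu' : (0 : ℝ) < u := by exact_mod_cast hu
    have hB' : (0 : ℝ) < B := by exact_mod_cast hB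
    have m3 : (((Icc 1 N).filter (fun n => ∑ p ∈ (PP u v).filter (fun p => (n + h j).factorization p = 1),
        q p * (1 - q p) < Y)).card : ℝ) ≤ 4 / L * (N + H + 2 * v) + (N + H) / u := by
      refine le_trans (le_of_eq ?_) (m1.trans ?_)
      · congr!
      · gcongr
    have m4 : (((Icc 1 N).filter (fun n => B < ∑ p ∈ PP 0 w, (n + h j).factorization p)).card : ℝ) ≤
        (N + H) * w / B := by
      refine le_trans (le_of_eq ?_) (m2.trans ?_)
      · congr!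
      · gcongr
    have m5 := card_union_le ((Icc 1 N).filter (fun n => ∑ p ∈ (PP u v).filter (fun p =>
        (n + h j).factorization p = 1), q p * (1 - q p) < Y))
      ((Icc 1 N).filter (fun n => B < ∑ p ∈ PP 0 w, (n + h j).factorization p))
    have m6 := (Nat.cast_le (α := ℝ)).2 m5
    rw [Nat.cast_add] at m6
    linarith
  have e3 := (Nat.cast_le (α := ℝ)).2 ((card_le_card e1).trans card_biUnion_le)
  rw [Nat.cast_sum] at e3
  refine e3.trans ((sum_le_sum fun j _ => e2 j).trans (le_of_eq ?_))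
  rw [sum_const, card_univ, Fintype.card_fin, nsmul_eq_mul]

end Pool.Agent.K4H19.RO
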