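import Mathlib

set_option autoImplicit false

/-!
# Finite products of Bernoulli laws: the expectation operator
-/

namespace Pool.Agent.K4H19.RO

open Finset

/-- expectation of `Φ S`, where the random subset `S` of `M` contains each `p` independently with
probability `q p` -/
noncomputable def Ex (q : ℕ → ℝ) (M : Finset ℕ) (Φ : Finset ℕ → ℝ) : ℝ :=
  ∑ S ∈ M.powerset, (∏ p ∈ S, q p) * (∏ p ∈ M \ S, (1 - q p)) * Φ S

variable {q : ℕ → ℝ}

lemma Ex_congr {M : Finset ℕ} {Φ Ψ : Finset ℕ → ℝ} (h : ∀ S, S ⊆ M → Φ S = Ψ S) : Ex q M Φ = Ex q M Ψ := by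
  unfold Ex
  refine sum_congr rfl fun S hS => ?_
  rw [h S (mem_powerset.1 hS)]

lemma Ex_empty (Φ : Finset ℕ → ℝ) : Ex q ∅ Φ = Φ ∅ := by simp [Ex]

lemma Ex_insert {M : Finset ℕ} {p : ℕ} (hp : p ∉ M) (Φ : Finset ℕ → ℝ) :
    Ex q (insert p M) Φ = q p * Ex q M (fun S => Φ (insert p S)) + (1 - q p) * Ex q M Φ := by
  unfold Ex
  rw [sum_powerset_insert hp, add_comm, mul_sum, mul_sum]
  congr 1
  · refine sum_congr rfl fun S hS => ?_
    rw [mem_powerset] at hS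
    have hpS : p ∉ S := fun h => hp (hS h)
    rw [prod_insert hpS, insert_sdiff_insert, sdiff_insert_of_notMem hp]
    ring
  · refine sum_congr rfl fun S hS => ?_
    rw [mem_powerset] at hS
    have hpS : p ∉ S := fun h => hp (hS h)
    rw [insert_sdiff_of_notMem _ hpS, prod_insert (by simp [hp])]
    ring

lemma Ex_add (M : Finset ℕ) (Φ Ψ : Finset ℕ → ℝ) : Ex q M (fun S => Φ S + Ψ S) = Ex q M Φ + Ex q M Ψ := by
  unfold Ex
  rw [← sum_add_distrib]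
  exact sum_congr rfl fun S _ => by ring

lemma Ex_sub (M : Finset ℕ) (Φ Ψ : Finset ℕ → ℝ) : Ex q M (fun S => Φ S - Ψ S) = Ex q M Φ - Ex q M Ψ := by
  unfold Ex
  rw [← sum_sub_distrib]
  exact sum_congr rfl fun S _ => by ring

lemma Ex_mul (M : Finset ℕ) (c : ℝ) (Φ : Finset ℕ → ℝ) : Ex q M (fun S => c * Φ S) = c * Ex q M Φ := by
  unfold Ex
  rw [mul_sum]
  exact sum_congr rfl fun S _ => by ring

lemma Ex_sum {ι : Type*} (M : Finset ℕ) (s : Finset ι) (Φ : ι → Finset ℕ → ℝ) :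
    Ex q M (fun S => ∑ i ∈ s, Φ i S) = ∑ i ∈ s, Ex q M (Φ i) := by
  unfold Ex
  rw [sum_comm]
  exact sum_congr rfl fun S _ => by rw [mul_sum]

lemma Ex_const (M : Finset ℕ) (c : ℝ) : Ex q M (fun _ => c) = c := by
  unfold Ex
  rw [← sum_mul]
  have h := Finset.prod_add (fun p => q p) (fun p => 1 - q p) M
  have h2 : ∏ p ∈ M, (q p + (1 - q p)) = 1 := by
    apply prod_eq_one
    intro p _
    ring
  rw [h2] at h
  rw [← h, one_mul]

lemma Ex_union {A B : Finset ℕ} (hAB : Disjoint A B) (Φ : Finset ℕ → ℝ) :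
    Ex q (A ∪ B) Φ = Ex q A (fun S => Ex q B (fun T => Φ (S ∪ T))) := by
  induction A using Finset.induction_on generalizing Φ with
  | empty => simp [Ex_empty]
  | insert p A hp ih =>
    rw [disjoint_insert_left] at hAB
    rw [insert_union, Ex_insert (by simp [hp, hAB.1]), Ex_insert hp, ih hAB.2, ih hAB.2]
    congr 1
    congr 1
    apply Ex_congr
    intro S _
    apply Ex_congr
    intro T _
    rw [insert_union]

lemma Ex_mono (h0 : ∀ p, 0 ≤ q p) (h1 : ∀ p, q p ≤ 1) {M : Finset ℕ} {Φ Ψ : Finset ℕ → ℝ}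
    (h : ∀ S, S ⊆ M → Φ S ≤ Ψ S) : Ex q M Φ ≤ Ex q M Ψ := by
  unfold Ex
  apply sum_le_sum
  intro S hS
  apply mul_le_mul_of_nonneg_left (h S (mem_powerset.1 hS))
  exact mul_nonneg (prod_nonneg fun p _ => h0 p) (prod_nonneg fun p _ => by linarith [h1 p])

lemma Ex_nonneg (h0 : ∀ p, 0 ≤ q p) (h1 : ∀ p, q p ≤ 1) {M : Finset ℕ} {Φ : Finset ℕ → ℝ}
    (h : ∀ S, S ⊆ M → 0 ≤ Φ S) : 0 ≤ Ex q M Φ := by
  have := Ex_mono h0 h1 (M := M) (Φ := fun _ => 0) (Ψ := Φ) h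
  rwa [Ex_const] at this

lemma Ex_abs_le (h0 : ∀ p, 0 ≤ q p) (h1 : ∀ p, q p ≤ 1) (M : Finset ℕ) (Φ : Finset ℕ → ℝ) :
    |Ex q M Φ| ≤ Ex q M (fun S => |Φ S|) := by
  rw [abs_le]
  constructor
  · have : Ex q M (fun S => -1 * |Φ S|) ≤ Ex q M Φ := Ex_mono h0 h1 fun S _ => by
      linarith [neg_abs_le (Φ S)]
    rw [Ex_mul] at this
    linarith
  · exact Ex_mono h0 h1 fun S _ => le_abs_self _

lemma Ex_split {M A : Finset ℕ} (hA : A ⊆ M) (Φ : Finset ℕ → ℝ) :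
    Ex q M Φ = Ex q A (fun S => Ex q (M \ A) (fun T => Φ (S ∪ T))) := by
  rw [← Ex_union disjoint_sdiff, union_sdiff_of_subset hA]

lemma Ex_left {M A : Finset ℕ} (hA : A ⊆ M) (Φ : Finset ℕ → ℝ) (hΦ : ∀ S, Φ S = Φ (S ∩ A)) :
    Ex q M Φ = Ex q A Φ := by
  rw [Ex_split hA]
  apply Ex_congr
  intro S hS
  have : ∀ T, T ⊆ M \ A → Φ (S ∪ T) = Φ S := by
    intro T hT
    rw [hΦ, hΦ S]
    congr 1
    ext x
    simp only [mem_inter, mem_union]
    constructor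
    · rintro ⟨h | h, hx⟩
      · exact ⟨h, hx⟩
      · exact absurd hx (mem_sdiff.1 (hT h)).2
    · rintro ⟨h, hx⟩
      exact ⟨Or.inl h, hx⟩
  rw [Ex_congr this, Ex_const]

/-- independence -/
lemma Ex_indep {M A : Finset ℕ} (hA : A ⊆ M) (Φ Ψ : Finset ℕ → ℝ) (hΦ : ∀ S, Φ S = Φ (S ∩ A))
    (hΨ : ∀ S, Ψ S = Ψ (S \ A)) : Ex q M (fun S => Φ S * Ψ S) = Ex q M Φ * Ex q M Ψ := by
  have e1 : ∀ S T, S ⊆ A → T ⊆ M \ A → Φ (S ∪ T) = Φ S ∧ Ψ (S ∪ T) = Ψ T := by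
    intro S T hS hT
    constructor
    · rw [hΦ, hΦ S]
      congr 1
      ext x
      simp only [mem_inter, mem_union]
      constructor
      · rintro ⟨h | h, hx⟩
        · exact ⟨h, hx⟩
        · exact absurd hx (mem_sdiff.1 (hT h)).2
      · rintro ⟨h, hx⟩
        exact ⟨Or.inl h, hx⟩
    · rw [hΨ, hΨ T]
      congr 1
      ext x
      simp only [mem_sdiff, mem_union]
      constructor
      · rintro ⟨h | h, hx⟩
        · exact absurd (hS h) hx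
        · exact ⟨h, hx⟩
      · rintro ⟨h, hx⟩
        exact ⟨Or.inr h, hx⟩
  rw [Ex_split hA (fun S => Φ S * Ψ S), Ex_split hA Φ, Ex_split hA Ψ]
  have a1 : Ex q A (fun S => Ex q (M \ A) (fun T => Φ (S ∪ T) * Ψ (S ∪ T))) =
      Ex q A (fun S => Ex q (M \ A) Ψ * Φ S) := by
    apply Ex_congr
    intro S hS
    rw [Ex_congr (Ψ := fun T => Φ S * Ψ T) (fun T hT => by rw [(e1 S T hS hT).1, (e1 S T hS hT).2]), Ex_mul]
    ring
  have a2 : Ex q A (fun S => Ex q (M \ A) (fun T => Φ (S ∪ T))) = Ex q A Φ := by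
    apply Ex_congr
    intro S hS
    rw [Ex_congr (Ψ := fun _ => Φ S) (fun T hT => (e1 S T hS hT).1), Ex_const]
  have a3 : Ex q A (fun S => Ex q (M \ A) (fun T => Ψ (S ∪ T))) = Ex q (M \ A) Ψ := by
    rw [Ex_congr (Ψ := fun _ => Ex q (M \ A) Ψ) (fun S hS =>
      Ex_congr fun T hT => (e1 S T hS hT).2), Ex_const]
  rw [a1, a2, a3, Ex_mul]
  ring

end Pool.Agent.K4H19.RO
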