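import Pool.Agent.K4H19.RO.Asm

set_option autoImplicit false

/-!
# The theorems
-/

namespace Pool.Agent.K4H19.RO

open Finset Filter MeasureTheory ProbabilityTheory
open Pool.Agent.W208.TL (PP)

theorem main_ae {Ω : Type*} [MeasurableSpace Ω] (P : Measure Ω) [IsProbabilityMeasure P] (A : ℕ → Set Ω)
    (hA : ∀ p, MeasurableSet (A p)) (hind : iIndepSet A P) (q : ℕ → ℝ) (h0 : ∀ p, 0 ≤ q p) (h1 : ∀ p, q p ≤ 1)
    (hP : ∀ p, P (A p) = ENNReal.ofReal (q p))
    (hdiv : Tendsto (fun N : ℕ => ∑ p ∈ (Icc 1 N).filter (fun p : ℕ => p.Prime ∧ Real.log N < p),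
      q p * (1 - q p) / p) atTop atTop) :
    ∀ᵐ ω ∂P, ∀ (k : ℕ) (h : Fin k → ℕ), 1 ≤ k → Function.Injective h →
      Tendsto (fun N : ℕ => dev {p | ω ∈ A p} h N) atTop (nhds 0) := by
  rw [ae_all_iff]
  intro k
  rw [ae_all_iff]
  intro h
  by_cases hk : 1 ≤ k
  · by_cases hinj : Function.Injective h
    · obtain ⟨H, hH⟩ : ∃ H, H = ∑ i, h i := ⟨_, rfl⟩
      have hH1 : ∀ i, h i ≤ H := fun i => by
        rw [hH]
        exact single_le_sum (fun j _ => Nat.zero_le (h j)) (mem_univ i)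
      have key : ∀ᵐ ω ∂P, ∀ K w m : ℕ, 1 ≤ K → ∀ᶠ j : ℕ in atTop,
          Zdev h (NN j) (PP 0 (NN j + H)) (PP w (vv K (NN j)))
          (Fintype.piFinset (fun _ : Fin k => range (TT (NN j)))) (sel {p | ω ∈ A p} (PP 0 (NN j + H))) ≤
            3 * (1 / ((m : ℝ) + 1)) * (NN j : ℕ) := by
        rw [ae_all_iff]
        intro K
        rw [ae_all_iff]
        intro w
        rw [ae_all_iff]
        intro m
        by_cases hK : 1 ≤ K
        · filter_upwards [ae_small P A hA hind q h0 h1 hP hdiv h hinj H hH1 K w hK (1 / ((m : ℝ) + 1))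
            (by positivity)] with ω hω _
          exact hω
        · filter_upwards with ω h3
          exact absurd h3 hK
      filter_upwards [key] with ω hω _ _
      exact assemble {p | ω ∈ A p} hk h hinj H hH1 (fun K w hK m => hω K w m hK)
    · filter_upwards with ω _ h3
      exact absurd h3 hinj
  · filter_upwards with ω h3
    exact absurd h3 hk

/-- a sufficient condition -/
lemma div_of (q : ℕ → ℝ) (h0 : ∀ p, 0 ≤ q p) (h1 : ∀ p, q p ≤ 1)
    (hq : ∀ C : ℝ, ∃ p0 : ℕ, ∀ p : ℕ, p.Prime → p0 ≤ p → C ≤ q p * (1 - q p) * Real.log (Real.log p)) :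
    Tendsto (fun N : ℕ => ∑ p ∈ (Icc 1 N).filter (fun p : ℕ => p.Prime ∧ Real.log N < p),
      q p * (1 - q p) / p) atTop atTop := by
  obtain ⟨C0, hC0, hM⟩ := Pool.Agent.Helper923.HMertens.mertens_ratio
  rw [tendsto_atTop]
  intro C
  obtain ⟨p0, hp0⟩ := hq (2 * |C|)
  have hll : Tendsto (fun N : ℕ => Real.log (Real.log (N : ℝ))) atTop atTop :=
    Real.tendsto_log_atTop.comp log_tendsto
  have hlog : ∀ᶠ x : ℝ in atTop, Real.log x + C0 / Real.log 2 ≤ x / 2 := by
    have e1 := (Real.isLittleO_log_id_atTop.bound (by norm_num : (0 : ℝ) < 1 / 4))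
    filter_upwards [e1, eventually_ge_atTop (4 * (C0 / Real.log 2)), eventually_ge_atTop 1] with x hx hx2 hx3
    rw [Real.norm_eq_abs, Real.norm_eq_abs, id, abs_of_nonneg (by linarith : (0 : ℝ) ≤ x)] at hx
    have := le_abs_self (Real.log x)
    linarith
  filter_upwards [hll.eventually hlog, log_tendsto.eventually_ge_atTop (max (p0 : ℝ) 3),
    hll.eventually_ge_atTop 1, eventually_ge_atTop 3] with N g1 g2 g3 g4
  have g2a : (p0 : ℝ) ≤ Real.log N := le_trans (le_max_left _ _) g2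
  have g2b : (3 : ℝ) ≤ Real.log N := le_trans (le_max_right _ _) g2
  have hlN : 0 < Real.log N := by linarith
  have hset : (Icc 1 N).filter (fun p : ℕ => p.Prime ∧ Real.log N < p) =
      (Ioc ⌊Real.log N⌋₊ N).filter Nat.Prime := by
    ext p
    rw [mem_filter, mem_filter, mem_Icc, mem_Ioc, Nat.floor_lt hlN.le]
    constructor
    · rintro ⟨⟨_, h2⟩, h3, h4⟩
      exact ⟨⟨h4, h2⟩, h3⟩
    · rintro ⟨⟨h4, h2⟩, h3⟩
      exact ⟨⟨h3.pos, h2⟩, h3, h4⟩
  rw [hset]
  have hfl3 : 3 ≤ ⌊Real.log N⌋₊ := Nat.le_floor (by exact_mod_cast g2b)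
  have hflN : ⌊Real.log N⌋₊ ≤ N := by
    apply Nat.floor_le_of_le
    have hN0 : (0 : ℝ) < N := by exact_mod_cast (by omega : 0 < N)
    exact (Real.log_le_sub_one_of_pos hN0).trans (by linarith)
  have m1 := (abs_le.1 (hM ⌊Real.log N⌋₊ N (by omega) hflN)).1
  have hfl3r : (3 : ℝ) ≤ (⌊Real.log N⌋₊ : ℝ) := by exact_mod_cast hfl3
  have hlfl : Real.log 2 ≤ Real.log (⌊Real.log N⌋₊ : ℝ) := Real.log_le_log (by norm_num) (by linarith)
  have hl2 : 0 < Real.log 2 := Real.log_pos (by norm_num)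
  have e1 : Real.log (Real.log N / Real.log (⌊Real.log N⌋₊ : ℝ)) =
      Real.log (Real.log N) - Real.log (Real.log (⌊Real.log N⌋₊ : ℝ)) :=
    Real.log_div hlN.ne' (by linarith)
  have e2 : Real.log (Real.log (⌊Real.log N⌋₊ : ℝ)) ≤ Real.log (Real.log (Real.log N)) := by
    apply Real.log_le_log (by linarith)
    apply Real.log_le_log (by linarith)
    exact Nat.floor_le hlN.le
  have e3 : C0 / Real.log (⌊Real.log N⌋₊ : ℝ) ≤ C0 / Real.log 2 := by gcongr
  have m2 : Real.log (Real.log N) / 2 ≤ ∑ p ∈ (Ioc ⌊Real.log N⌋₊ N).filter Nat.Prime, (1 : ℝ) / p := by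
    rw [e1] at m1
    linarith
  have hpt : ∀ p ∈ (Ioc ⌊Real.log N⌋₊ N).filter Nat.Prime,
      2 * |C| / Real.log (Real.log N) * (1 / p) ≤ q p * (1 - q p) / p := by
    intro p hp
    rw [mem_filter, mem_Ioc] at hp
    obtain ⟨⟨h2, h3⟩, h4⟩ := hp
    have h5 : Real.log N < p := (Nat.floor_lt hlN.le).1 h2
    have h6 : p0 ≤ p := by
      have : (p0 : ℝ) ≤ p := by linarith
      exact_mod_cast this
    have h7 := hp0 p h4 h6
    have hp3 : (3 : ℝ) ≤ p := by linarith
    have h8 : (1 : ℝ) < Real.log p := by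
      rw [Real.lt_log_iff_exp_lt (by linarith)]
      have := Real.exp_one_lt_d9
      linarith
    have h9 : 0 < Real.log (Real.log p) := Real.log_pos h8
    have h10 : Real.log (Real.log p) ≤ Real.log (Real.log N) := by
      apply Real.log_le_log (by linarith)
      apply Real.log_le_log (by linarith)
      exact_mod_cast h3
    have h11 : 0 ≤ q p * (1 - q p) := mul_nonneg (h0 p) (by linarith [h1 p])
    have h12 : 2 * |C| / Real.log (Real.log N) ≤ q p * (1 - q p) := by
      rw [div_le_iff₀ (by linarith)]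
      exact h7.trans (mul_le_mul_of_nonneg_left h10 h11)
    rw [mul_one_div]
    apply div_le_div_of_nonneg_right h12 (Nat.cast_nonneg _)
  calc C ≤ |C| := le_abs_self C
    _ = 2 * |C| / Real.log (Real.log N) * (Real.log (Real.log N) / 2) := by
        have : Real.log (Real.log N) ≠ 0 := by linarith
        field_simp
    _ ≤ 2 * |C| / Real.log (Real.log N) * ∑ p ∈ (Ioc ⌊Real.log N⌋₊ N).filter Nat.Prime, (1 : ℝ) / p :=
        mul_le_mul_of_nonneg_left m2 (by positivity)
    _ = ∑ p ∈ (Ioc ⌊Real.log N⌋₊ N).filter Nat.Prime, 2 * |C| / Real.log (Real.log N) * (1 / p) := by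
        rw [mul_sum]
    _ ≤ _ := sum_le_sum hpt

/-- deterministic sets -/
theorem main_ex (Q : Set ℕ) [DecidablePred (· ∈ Q)]
    (hdiv : Tendsto (fun N : ℕ => ∑ p ∈ (Icc 1 N).filter (fun p : ℕ => (p.Prime ∧ Real.log N < p) ∧ p ∈ Q),
      (1 : ℝ) / p) atTop atTop) :
    ∃ D : Set ℕ, D ⊆ Q ∧ ∀ (k : ℕ) (h : Fin k → ℕ), 1 ≤ k → Function.Injective h →
      Tendsto (fun N : ℕ => dev D h N) atTop (nhds 0) := by
  classical
  obtain ⟨q, hq⟩ : ∃ q : ℕ → ℝ, q = fun p => if p ∈ Q then 1 / 2 else 0 := ⟨_, rfl⟩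
  have h0 : ∀ p, 0 ≤ q p := fun p => by
    rw [hq]
    dsimp only
    split_ifs <;> norm_num
  have h1 : ∀ p, q p ≤ 1 := fun p => by
    rw [hq]
    dsimp only
    split_ifs <;> norm_num
  obtain ⟨μ, hμ⟩ : ∃ μ : ℕ → Measure Bool, μ = fun p => ENNReal.ofReal (q p) • Measure.dirac true +
    ENNReal.ofReal (1 - q p) • Measure.dirac false := ⟨_, rfl⟩
  have hμp : ∀ p, IsProbabilityMeasure (μ p) := by
    intro p
    constructor
    rw [hμ]
    simp only [Measure.coe_add, Measure.coe_smul, Pi.add_apply, Pi.smul_apply, measure_univ, smul_eq_mul, mul_one]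
    rw [← ENNReal.ofReal_add (h0 p) (by linarith [h1 p])]
    norm_num
  have hμt : ∀ p, μ p {true} = ENNReal.ofReal (q p) := by
    intro p
    rw [hμ]
    simp
  obtain ⟨P, hPdef⟩ : ∃ P : Measure (ℕ → Bool), P = Measure.infinitePi μ := ⟨_, rfl⟩
  have : IsProbabilityMeasure P := by rw [hPdef]; infer_instance
  obtain ⟨A, hAdef⟩ : ∃ A : ℕ → Set (ℕ → Bool), A = fun p => {x | x p = true} := ⟨_, rfl⟩
  have hA : ∀ p, MeasurableSet (A p) := by
    intro p
    rw [hAdef]
    exact measurableSet_eq_fun (measurable_pi_apply p) measurable_const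
  have hprod : ∀ s : Finset ℕ, P (⋂ p ∈ s, A p) = ∏ p ∈ s, ENNReal.ofReal (q p) := by
    intro s
    have e1 : (⋂ p ∈ s, A p) = Set.pi s (fun _ => {true}) := by
      ext x
      rw [hAdef]
      simp
    rw [e1, hPdef, Measure.infinitePi_pi _ (fun p _ => measurableSet_singleton _)]
    exact prod_congr rfl fun p _ => hμt p
  have hP : ∀ p, P (A p) = ENNReal.ofReal (q p) := by
    intro p
    have := hprod {p}
    simpa using this
  have hind : iIndepSet A P := by
    rw [iIndepSet_iff_meas_biInter hA]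
    intro s
    rw [hprod s]
    exact prod_congr rfl fun p _ => (hP p).symm
  have hdiv2 : Tendsto (fun N : ℕ => ∑ p ∈ (Icc 1 N).filter (fun p : ℕ => p.Prime ∧ Real.log N < p),
      q p * (1 - q p) / p) atTop atTop := by
    have e1 : (fun N : ℕ => ∑ p ∈ (Icc 1 N).filter (fun p : ℕ => p.Prime ∧ Real.log N < p),
      q p * (1 - q p) / p) = fun N : ℕ => (1 / 4 : ℝ) * ∑ p ∈ (Icc 1 N).filter (fun p : ℕ =>
        (p.Prime ∧ Real.log N < p) ∧ p ∈ Q), (1 : ℝ) / p := by
      funext N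
      rw [sum_filter, sum_filter, mul_sum]
      apply sum_congr rfl
      intro p _
      rw [hq]
      dsimp only
      by_cases c1 : p.Prime ∧ Real.log N < p
      · by_cases c2 : p ∈ Q
        · rw [if_pos c1, if_pos c2, if_pos ⟨c1, c2⟩]
          ring
        · rw [if_pos c1, if_neg c2, if_neg (fun h => c2 h.2)]
          ring
      · rw [if_neg c1, if_neg (fun h => c1 h.1), mul_zero]
    rw [e1]
    exact hdiv.const_mul_atTop (by norm_num)
  have hae := main_ae P A hA hind q h0 h1 hP hdiv2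
  have hsub : ∀ᵐ x ∂P, ∀ p : ℕ, p ∉ Q → x ∉ A p := by
    rw [ae_all_iff]
    intro p
    by_cases hp : p ∈ Q
    · filter_upwards with x h3
      exact absurd hp h3
    · have e1 : P (A p) = 0 := by
        rw [hP p, hq]
        dsimp only
        rw [if_neg hp, ENNReal.ofReal_zero]
      have := measure_eq_zero_iff_ae_notMem.1 e1
      filter_upwards [this] with x hx _
      exact hx
  obtain ⟨x, hx1, hx2⟩ := (hae.and hsub).exists
  refine ⟨{p | x ∈ A p}, fun p hp => ?_, hx1⟩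
  by_contra hc
  exact hx2 p hc hp

end Pool.Agent.K4H19.RO
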