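import Pool.Agent.K4H19.RO.Ex

set_option autoImplicit false

/-!
# A sum of independent Bernoulli variables of large variance is nearly invariant under shifts
-/

namespace Pool.Agent.K4H19.RO

open Finset Polynomial

/-- the sum of the absolute values of the coefficients -/
noncomputable def nrm (f : ℝ[X]) : ℝ := ∑ i ∈ f.support, |f.coeff i|

lemma nrm_eq {f : ℝ[X]} {s : Finset ℕ} (h : f.support ⊆ s) : nrm f = ∑ i ∈ s, |f.coeff i| := by
  unfold nrm
  apply sum_subset h
  intro i _ hi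
  rw [notMem_support_iff] at hi
  rw [hi, abs_zero]

lemma nrm_nonneg (f : ℝ[X]) : 0 ≤ nrm f := sum_nonneg fun _ _ => abs_nonneg _

lemma nrm_add_le (f g : ℝ[X]) : nrm (f + g) ≤ nrm f + nrm g := by
  rw [nrm_eq (s := f.support ∪ g.support) support_add, nrm_eq (f := f) (s := f.support ∪ g.support)
    subset_union_left, nrm_eq (f := g) (s := f.support ∪ g.support) subset_union_right, ← sum_add_distrib]
  apply sum_le_sum
  intro i _
  rw [coeff_add]
  exact abs_add_le _ _

lemma nrm_sum_le {ι : Type*} (s : Finset ι) (f : ι → ℝ[X]) : nrm (∑ i ∈ s, f i) ≤ ∑ i ∈ s, nrm (f i) := by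
  classical
  induction s using Finset.induction_on with
  | empty => simp [nrm]
  | insert a s ha ih =>
    rw [sum_insert ha, sum_insert ha]
    exact (nrm_add_le _ _).trans (by linarith)

lemma nrm_monomial_mul (n : ℕ) (a : ℝ) (f : ℝ[X]) : nrm (monomial n a * f) ≤ |a| * nrm f := by
  have h : (monomial n a * f).support ⊆ f.support.image (fun i => i + n) := by
    intro i hi
    rw [mem_support_iff] at hi
    rw [mem_image]
    by_cases hni : n ≤ i
    · obtain ⟨j, rfl⟩ := Nat.exists_eq_add_of_le' hni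
      rw [coeff_monomial_mul] at hi
      exact ⟨j, mem_support_iff.2 (fun h => hi (by rw [h, mul_zero])), rfl⟩
    · exfalso
      apply hi
      rw [← C_mul_X_pow_eq_monomial, mul_assoc, coeff_C_mul, coeff_X_pow_mul', if_neg hni, mul_zero]
  rw [nrm_eq h, sum_image (fun x _ y _ hxy => by simpa using hxy)]
  unfold nrm
  rw [mul_sum]
  apply sum_le_sum
  intro i _
  rw [coeff_monomial_mul, abs_mul]

lemma nrm_mul_le (f g : ℝ[X]) : nrm (f * g) ≤ nrm f * nrm g := by
  conv_lhs => rw [f.as_sum_support, sum_mul]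
  refine (nrm_sum_le _ _).trans ?_
  unfold nrm
  rw [sum_mul]
  apply sum_le_sum
  intro i _
  exact nrm_monomial_mul i _ g

/-- `∑ coeff_i G i` -/
noncomputable def ev (G : ℕ → ℝ) (f : ℝ[X]) : ℝ := ∑ i ∈ f.support, f.coeff i * G i

lemma ev_eq {G : ℕ → ℝ} {f : ℝ[X]} {s : Finset ℕ} (h : f.support ⊆ s) :
    ev G f = ∑ i ∈ s, f.coeff i * G i := by
  unfold ev
  apply sum_subset h
  intro i _ hi
  rw [notMem_support_iff] at hi
  rw [hi, zero_mul]

lemma ev_add (G : ℕ → ℝ) (f g : ℝ[X]) : ev G (f + g) = ev G f + ev G g := by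
  rw [ev_eq (s := f.support ∪ g.support) support_add, ev_eq (f := f) (s := f.support ∪ g.support)
    subset_union_left, ev_eq (f := g) (s := f.support ∪ g.support) subset_union_right, ← sum_add_distrib]
  apply sum_congr rfl
  intro i _
  rw [coeff_add]
  ring

lemma ev_C_mul (G : ℕ → ℝ) (a : ℝ) (f : ℝ[X]) : ev G (C a * f) = a * ev G f := by
  rw [ev_eq (f := C a * f) (s := f.support) (fun i hi => by
    rw [mem_support_iff] at hi ⊢
    intro h
    exact hi (by rw [coeff_C_mul, h, mul_zero]))]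
  unfold ev
  rw [mul_sum]
  apply sum_congr rfl
  intro i _
  rw [coeff_C_mul]
  ring

lemma ev_X_mul (G : ℕ → ℝ) (f : ℝ[X]) : ev G (X * f) = ev (fun n => G (n + 1)) f := by
  have h : (X * f).support ⊆ f.support.image (fun i => i + 1) := by
    intro i hi
    rw [mem_support_iff] at hi
    rw [mem_image]
    cases i with
    | zero => simp at hi
    | succ j =>
      rw [coeff_X_mul] at hi
      exact ⟨j, mem_support_iff.2 hi, rfl⟩
  rw [ev_eq h, sum_image (fun x _ y _ hxy => by simpa using hxy)]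
  unfold ev
  apply sum_congr rfl
  intro i _
  rw [coeff_X_mul]

lemma ev_abs_le {G : ℕ → ℝ} (hG : ∀ n, |G n| ≤ 1) (f : ℝ[X]) : |ev G f| ≤ nrm f := by
  unfold ev nrm
  refine (abs_sum_le_sum_abs _ _).trans (sum_le_sum fun i _ => ?_)
  rw [abs_mul]
  exact (mul_le_mul_of_nonneg_left (hG i) (abs_nonneg _)).trans (by rw [mul_one])

/-- the law of the number of the kept elements -/
noncomputable def gen (q : ℕ → ℝ) (P : Finset ℕ) : ℝ[X] := ∏ p ∈ P, (C (q p) + C (1 - q p) * X)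

lemma Ex_card {q : ℕ → ℝ} (P : Finset ℕ) (G : ℕ → ℝ) :
    Ex q P (fun D => G (P \ D).card) = ev G (gen q P) := by
  induction P using Finset.induction_on generalizing G with
  | empty =>
    rw [Ex_empty]
    unfold gen
    rw [prod_empty, ev_eq (s := {0}) (by
      intro i hi
      rw [mem_support_iff, coeff_one] at hi
      by_contra h
      apply hi
      rw [if_neg]
      simpa using h)]
    simp
  | insert p P hp ih =>
    rw [Ex_insert hp]
    unfold gen
    rw [prod_insert hp, add_mul, ev_add, ev_C_mul, mul_assoc, ev_C_mul, ev_X_mul]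
    have e1 : Ex q P (fun S => G (insert p P \ insert p S).card) = Ex q P (fun D => G (P \ D).card) := by
      apply Ex_congr
      intro S _
      rw [insert_sdiff_insert, sdiff_insert_of_notMem hp]
    have e2 : Ex q P (fun S => G (insert p P \ S).card) = Ex q P (fun D => G ((P \ D).card + 1)) := by
      apply Ex_congr
      intro S hS
      have hpS : p ∉ S := fun h => hp (hS h)
      rw [insert_sdiff_of_notMem _ hpS, card_insert_of_notMem (by simp [hp])]
    rw [e1, e2, ih, ih (fun n => G (n + 1))]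
    rfl

lemma half_step (m : ℕ) : nrm ((X - 1) * (1 + X) ^ m) ≤ 2 ^ (m + 1) / Real.sqrt (m + 1) := by
  -- coefficients
  have hc : ∀ j, j ≤ m + 1 → (((X - 1) * (1 + X) ^ m : ℝ[X]).coeff j) =
      ((m + 1).choose j : ℝ) * (2 * j - (m + 1)) / (m + 1) := by
    intro j hj
    have hm1 : ((m : ℝ) + 1) ≠ 0 := by positivity
    rw [sub_mul, one_mul, coeff_sub, coeff_one_add_X_pow]
    cases j with
    | zero =>
      rw [mul_coeff_zero, coeff_X_zero, zero_mul]
      simp
      field_simp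
      ring
    | succ i =>
      rw [coeff_X_mul, coeff_one_add_X_pow]
      have h1 : ((m + 1).choose (i + 1) : ℝ) * (i + 1) = (m + 1) * (m.choose i : ℝ) := by
        have := Nat.add_one_mul_choose_eq m i
        have h2 : ((m + 1) * m.choose i : ℕ) = (m + 1).choose (i + 1) * (i + 1) := this
        have h3 : (((m + 1) * m.choose i : ℕ) : ℝ) = (((m + 1).choose (i + 1) * (i + 1) : ℕ) : ℝ) := by
          rw [h2]
        push_cast at h3
        linarith
      have h4 : ((m + 1).choose (i + 1) : ℝ) = (m.choose i : ℝ) + (m.choose (i + 1) : ℝ) := by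
        rw [Nat.choose_succ_succ]
        push_cast
        ring
      rw [eq_div_iff hm1]
      push_cast
      have h5 : ((m.choose i : ℝ) - (m.choose (i + 1) : ℝ)) = 2 * (m.choose i : ℝ) - ((m + 1).choose (i + 1) : ℝ) := by
        rw [h4]; ring
      rw [h5]
      nlinarith [h1]
  have hsup : ((X - 1) * (1 + X) ^ m : ℝ[X]).support ⊆ range (m + 2) := by
    intro i hi
    rw [mem_range]
    by_contra h
    rw [mem_support_iff] at hi
    apply hi
    obtain ⟨i', rfl⟩ : ∃ i', i = i' + 1 := ⟨i - 1, by omega⟩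
    rw [sub_mul, one_mul, coeff_sub, coeff_X_mul, coeff_one_add_X_pow, coeff_one_add_X_pow,
      Nat.choose_eq_zero_of_lt (by omega), Nat.choose_eq_zero_of_lt (by omega)]
    simp
  rw [nrm_eq hsup]
  have hm1 : (0 : ℝ) < (m : ℝ) + 1 := by positivity
  have e1 : ∑ j ∈ range (m + 2), |((X - 1) * (1 + X) ^ m : ℝ[X]).coeff j| =
      (∑ j ∈ range (m + 2), Real.sqrt ((m + 1).choose j) * (Real.sqrt ((m + 1).choose j) * |2 * (j : ℝ) - (m + 1)|)) / (m + 1) := by
    rw [sum_div]
    apply sum_congr rfl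
    intro j hj
    rw [mem_range] at hj
    rw [hc j (by omega), ← mul_assoc, Real.mul_self_sqrt (Nat.cast_nonneg _), abs_div, abs_mul,
      abs_of_nonneg (Nat.cast_nonneg _ : (0 : ℝ) ≤ ((m + 1).choose j : ℝ)), abs_of_pos hm1]
  rw [e1]
  have hCS := Finset.sum_mul_sq_le_sq_mul_sq (range (m + 2)) (fun j => Real.sqrt ((m + 1).choose j))
    (fun j : ℕ => Real.sqrt ((m + 1).choose j) * |2 * (j : ℝ) - (m + 1)|)
  have s1 : ∑ j ∈ range (m + 2), Real.sqrt ((m + 1).choose j) ^ 2 = 2 ^ (m + 1) := by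
    have : ∀ j ∈ range (m + 2), Real.sqrt ((m + 1).choose j) ^ 2 = ((m + 1).choose j : ℝ) := by
      intro j _
      rw [Real.sq_sqrt (Nat.cast_nonneg _)]
    rw [sum_congr rfl this]
    exact_mod_cast Nat.sum_range_choose (m + 1)
  have s2 : ∑ j ∈ range (m + 2), (Real.sqrt ((m + 1).choose j) * |2 * (j : ℝ) - (m + 1)|) ^ 2 =
      2 ^ (m + 1) * (m + 1) := by
    have hv := bernsteinPolynomial.variance ℝ (m + 1)
    have hv2 := congrArg (Polynomial.eval (1 / 2 : ℝ)) hv
    rw [eval_finsetSum] at hv2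
    have : ∀ j ∈ range (m + 2), (Real.sqrt ((m + 1).choose j) * |2 * (j : ℝ) - (m + 1)|) ^ 2 =
        4 * 2 ^ (m + 1) * Polynomial.eval (1 / 2 : ℝ) (((m + 1) • X - (j : ℝ[X])) ^ 2 * bernsteinPolynomial ℝ (m + 1) j) := by
      intro j hj
      rw [mem_range] at hj
      rw [mul_pow, Real.sq_sqrt (Nat.cast_nonneg _), sq_abs]
      unfold bernsteinPolynomial
      simp only [eval_mul, eval_pow, eval_sub, eval_X, eval_natCast, eval_one, nsmul_eq_mul, Nat.cast_add, Nat.cast_one, eval_add]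
      have e2 : (1 - 1 / 2 : ℝ) = 1 / 2 := by norm_num
      rw [e2]
      have e3 : (1 / 2 : ℝ) ^ j * (1 / 2 : ℝ) ^ (m + 1 - j) = (1 / 2) ^ (m + 1) := by
        rw [← pow_add]
        congr 1
        omega
      have e4 : (2 : ℝ) ^ (m + 1) * (1 / 2) ^ (m + 1) = 1 := by
        rw [← mul_pow]; norm_num
      calc ((m + 1).choose j : ℝ) * (2 * (j : ℝ) - (m + 1)) ^ 2
          = 4 * (((m + 1).choose j : ℝ) * ((m + 1) * (1 / 2) - j) ^ 2) * 1 := by ring
        _ = 4 * (((m + 1).choose j : ℝ) * ((m + 1) * (1 / 2) - j) ^ 2) * ((2 : ℝ) ^ (m + 1) * (1 / 2) ^ (m + 1)) := by rw [e4]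
        _ = _ := by rw [← e3]; ring
    rw [sum_congr rfl this, ← mul_sum, hv2]
    simp only [eval_mul, eval_sub, eval_X, eval_one, nsmul_eq_mul, Nat.cast_add, Nat.cast_one, eval_add, eval_natCast]
    ring
  rw [s1, s2] at hCS
  have hsq : (0 : ℝ) < Real.sqrt (m + 1) := Real.sqrt_pos.2 hm1
  have hnn : (0 : ℝ) ≤ ∑ j ∈ range (m + 2), Real.sqrt ((m + 1).choose j) * (Real.sqrt ((m + 1).choose j) * |2 * (j : ℝ) - (m + 1)|) :=
    sum_nonneg fun j _ => by positivity
  rw [div_le_div_iff₀ hm1 hsq]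
  have h6 : (∑ j ∈ range (m + 2), Real.sqrt ((m + 1).choose j) * (Real.sqrt ((m + 1).choose j) * |2 * (j : ℝ) - (m + 1)|)) ≤
      2 ^ (m + 1) * Real.sqrt (m + 1) := by
    apply le_of_sq_le_sq _ (by positivity)
    rw [mul_pow, Real.sq_sqrt hm1.le]
    calc _ ≤ _ := hCS
      _ = _ := by ring
  calc _ ≤ (2 ^ (m + 1) * Real.sqrt (m + 1)) * Real.sqrt (m + 1) := mul_le_mul_of_nonneg_right h6 hsq.le
    _ = 2 ^ (m + 1) * (m + 1) := by rw [mul_assoc, Real.mul_self_sqrt hm1.le]

lemma nrm_C_mul (a : ℝ) (f : ℝ[X]) : nrm (C a * f) ≤ |a| * nrm f := nrm_monomial_mul 0 a f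

lemma nrm_one : nrm 1 ≤ 1 := by
  rw [nrm_eq (s := {0}) (by
    intro i hi
    rw [mem_support_iff, coeff_one] at hi
    by_contra h
    apply hi
    rw [if_neg]
    simpa using h)]
  simp

lemma nrm_prod_le {ι : Type*} (s : Finset ι) (f : ι → ℝ[X]) : nrm (∏ i ∈ s, f i) ≤ ∏ i ∈ s, nrm (f i) := by
  classical
  induction s using Finset.induction_on with
  | empty => simpa using nrm_one
  | insert a s ha ih =>
    rw [prod_insert ha, prod_insert ha]
    exact (nrm_mul_le _ _).trans (mul_le_mul_of_nonneg_left ih (nrm_nonneg _))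

lemma nrm_lin (a b : ℝ) : nrm (C a + C b * X) ≤ |a| + |b| := by
  refine (nrm_add_le _ _).trans ?_
  have h1 : nrm (C a) ≤ |a| := by
    have := nrm_C_mul a 1
    rw [mul_one] at this
    exact this.trans (by nlinarith [nrm_one, abs_nonneg a])
  have h2 : nrm (C b * X) ≤ |b| := by
    refine (nrm_C_mul b X).trans ?_
    have : nrm (X : ℝ[X]) ≤ 1 := by
      have h := nrm_monomial_mul 1 1 (1 : ℝ[X])
      rw [mul_one, monomial_one_one_eq_X, abs_one, one_mul] at h
      exact h.trans nrm_one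
    nlinarith [abs_nonneg b]
  linarith

/-- the norm of the difference of the law and its shift -/
lemma nrm_gen {q : ℕ → ℝ} (h0 : ∀ p, 0 ≤ q p) (h1 : ∀ p, q p ≤ 1) (P : Finset ℕ) (M : ℕ) :
    nrm ((X - 1) * gen q P) ≤ 2 / Real.sqrt (M + 1) + 2 * 2 ^ M * Real.exp (-∑ p ∈ P, q p * (1 - q p)) := by
  have hr : ∀ p, 0 ≤ 1 - q p := fun p => by linarith [h1 p]
  have e0 : gen q P = ∑ A ∈ P.powerset, (∏ p ∈ A, (C (q p * (1 - q p)) * (1 + X))) *
      ∏ p ∈ P \ A, (C (q p ^ 2) + C ((1 - q p) ^ 2) * X) := by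
    rw [← Finset.prod_add]
    unfold gen
    apply prod_congr rfl
    intro p _
    have e1 : C (q p) = C (q p * (1 - q p)) + C (q p ^ 2) := by
      rw [← C_add]; congr 1; ring
    have e2 : C (1 - q p) = C (q p * (1 - q p)) + C ((1 - q p) ^ 2) := by
      rw [← C_add]; congr 1; ring
    rw [e2, mul_add, mul_one, add_mul]
    rw [show C (q p) = C (q p * (1 - q p)) + C (q p ^ 2) from e1]
    ring_nf
  rw [e0, mul_sum]
  refine (nrm_sum_le _ _).trans ?_
  have key : ∀ A ∈ P.powerset, nrm ((X - 1) * ((∏ p ∈ A, (C (q p * (1 - q p)) * (1 + X))) *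
      ∏ p ∈ P \ A, (C (q p ^ 2) + C ((1 - q p) ^ 2) * X))) ≤
      (∏ p ∈ A, (2 * (q p * (1 - q p)))) * (∏ p ∈ P \ A, (1 - 2 * (q p * (1 - q p)))) * (2 / Real.sqrt (M + 1)) +
      (∏ p ∈ A, (q p * (1 - q p))) * (∏ p ∈ P \ A, (1 - 2 * (q p * (1 - q p)))) * (2 * 2 ^ M) := by
    intro A _
    have c1 : 0 ≤ ∏ p ∈ A, (q p * (1 - q p)) := prod_nonneg fun p _ => mul_nonneg (h0 p) (hr p)
    have c2 : 0 ≤ ∏ p ∈ P \ A, (1 - 2 * (q p * (1 - q p))) := prod_nonneg fun p _ => by
      nlinarith [sq_nonneg (1 - 2 * q p)]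
    have b1 : nrm (∏ p ∈ P \ A, (C (q p ^ 2) + C ((1 - q p) ^ 2) * X)) ≤
        ∏ p ∈ P \ A, (1 - 2 * (q p * (1 - q p))) := by
      refine (nrm_prod_le _ _).trans (prod_le_prod (fun p _ => nrm_nonneg _) fun p _ => ?_)
      refine (nrm_lin _ _).trans (le_of_eq ?_)
      rw [abs_of_nonneg (sq_nonneg _), abs_of_nonneg (sq_nonneg _)]
      ring
    have b2 : nrm ((X - 1) * ∏ p ∈ A, (C (q p * (1 - q p)) * (1 + X))) ≤
        (∏ p ∈ A, (q p * (1 - q p))) * (2 ^ (A.card + 1) / Real.sqrt (A.card + 1)) := by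
      have : (X - 1) * ∏ p ∈ A, (C (q p * (1 - q p)) * (1 + X)) =
          C (∏ p ∈ A, (q p * (1 - q p))) * ((X - 1) * (1 + X) ^ A.card) := by
        rw [prod_mul_distrib, prod_const, map_prod]
        ring
      rw [this]
      refine (nrm_C_mul _ _).trans ?_
      rw [abs_of_nonneg c1]
      exact mul_le_mul_of_nonneg_left (half_step _) c1
    have b3 : (2 : ℝ) ^ (A.card + 1) / Real.sqrt (A.card + 1) ≤ 2 ^ A.card * (2 / Real.sqrt (M + 1)) + 2 * 2 ^ M := by
      rcases le_or_gt M A.card with h | h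
      · have h5 : Real.sqrt (M + 1) ≤ Real.sqrt (A.card + 1) :=
          Real.sqrt_le_sqrt (by have : (M : ℝ) ≤ A.card := by exact_mod_cast h
                                linarith)
        have h6 : 0 < Real.sqrt ((M : ℝ) + 1) := Real.sqrt_pos.2 (by positivity)
        calc (2 : ℝ) ^ (A.card + 1) / Real.sqrt (A.card + 1) ≤ 2 ^ (A.card + 1) / Real.sqrt (M + 1) :=
              div_le_div_of_nonneg_left (by positivity) h6 h5
          _ = 2 ^ A.card * (2 / Real.sqrt (M + 1)) := by rw [pow_succ]; ring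
          _ ≤ _ := by linarith [show (0 : ℝ) ≤ 2 * 2 ^ M by positivity]
      · have h5 : (1 : ℝ) ≤ Real.sqrt (A.card + 1) := by
          rw [Real.one_le_sqrt]
          linarith [show (0 : ℝ) ≤ A.card from Nat.cast_nonneg _]
        have h6 : (2 : ℝ) ^ (A.card + 1) ≤ 2 * 2 ^ M := by
          rw [pow_succ, mul_comm]
          exact mul_le_mul_of_nonneg_left (pow_le_pow_right₀ (by norm_num) h.le) (by norm_num)
        calc (2 : ℝ) ^ (A.card + 1) / Real.sqrt (A.card + 1) ≤ 2 ^ (A.card + 1) / 1 :=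
              div_le_div_of_nonneg_left (by positivity) one_pos h5
          _ = 2 ^ (A.card + 1) := by rw [div_one]
          _ ≤ 2 * 2 ^ M := h6
          _ ≤ _ := by linarith [show (0 : ℝ) ≤ 2 ^ A.card * (2 / Real.sqrt (M + 1)) by positivity]
    rw [← mul_assoc]
    refine (nrm_mul_le _ _).trans ?_
    calc _ ≤ ((∏ p ∈ A, (q p * (1 - q p))) * (2 ^ (A.card + 1) / Real.sqrt (A.card + 1))) *
          ∏ p ∈ P \ A, (1 - 2 * (q p * (1 - q p))) :=
          mul_le_mul b2 b1 (nrm_nonneg _) (by positivity)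
      _ ≤ ((∏ p ∈ A, (q p * (1 - q p))) * (2 ^ A.card * (2 / Real.sqrt (M + 1)) + 2 * 2 ^ M)) *
          ∏ p ∈ P \ A, (1 - 2 * (q p * (1 - q p))) :=
          mul_le_mul_of_nonneg_right (mul_le_mul_of_nonneg_left b3 c1) c2
      _ = _ := by
          have e2 : ∏ p ∈ A, (2 * (q p * (1 - q p))) = 2 ^ A.card * ∏ p ∈ A, (q p * (1 - q p)) := by
            rw [prod_mul_distrib, prod_const]
          rw [e2]
          ring
  refine (sum_le_sum key).trans ?_
  rw [sum_add_distrib, ← sum_mul, ← sum_mul, ← Finset.prod_add, ← Finset.prod_add]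
  have d1 : ∏ p ∈ P, (2 * (q p * (1 - q p)) + (1 - 2 * (q p * (1 - q p)))) = 1 :=
    prod_eq_one fun p _ => by ring
  have d2 : ∏ p ∈ P, ((q p * (1 - q p)) + (1 - 2 * (q p * (1 - q p)))) ≤
      Real.exp (-∑ p ∈ P, q p * (1 - q p)) := by
    rw [← sum_neg_distrib, Real.exp_sum]
    apply prod_le_prod
    · intro p _
      nlinarith [sq_nonneg (1 - 2 * q p)]
    · intro p _
      have := Real.add_one_le_exp (-(q p * (1 - q p)))
      linarith
  rw [d1, one_mul, mul_comm (∏ p ∈ P, _)]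
  linarith [mul_le_mul_of_nonneg_left d2 (show (0 : ℝ) ≤ 2 * 2 ^ M by positivity)]

/-- **Near invariance under one step.** -/
lemma smooth_one (ε : ℝ) (hε : 0 < ε) : ∃ Y : ℝ, ∀ q : ℕ → ℝ, (∀ p, 0 ≤ q p) → (∀ p, q p ≤ 1) →
    ∀ P : Finset ℕ, Y ≤ ∑ p ∈ P, q p * (1 - q p) → ∀ G : ℕ → ℝ, (∀ n, |G n| ≤ 1) →
    |Ex q P (fun D => G ((P \ D).card + 1)) - Ex q P (fun D => G (P \ D).card)| ≤ ε := by
  obtain ⟨M, hM⟩ : ∃ M : ℕ, 2 / Real.sqrt (M + 1) ≤ ε / 2 := by
    obtain ⟨M, hM⟩ := exists_nat_ge ((4 / ε) ^ 2)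
    refine ⟨M, ?_⟩
    have h6 : 0 < Real.sqrt ((M : ℝ) + 1) := Real.sqrt_pos.2 (by positivity)
    rw [div_le_iff₀ h6]
    have h7 : 4 / ε ≤ Real.sqrt ((M : ℝ) + 1) := by
      apply Real.le_sqrt_of_sq_le
      linarith
    rw [div_le_iff₀ hε] at h7
    linarith
  refine ⟨Real.log (2 * 2 ^ M * (2 / ε)), ?_⟩
  intro q h0 h1 P hP G hG
  have e1 := Ex_card (q := q) P (fun n => G (n + 1))
  have e2 := Ex_card (q := q) P G
  rw [e1, e2, ← ev_X_mul]
  have e3 : ev G (X * gen q P) - ev G (gen q P) = ev G ((X - 1) * gen q P) := by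
    have : X * gen q P = (X - 1) * gen q P + gen q P := by ring
    rw [this, ev_add]
    ring
  rw [e3]
  refine (ev_abs_le hG _).trans ((nrm_gen h0 h1 P M).trans ?_)
  have h8 : 2 * 2 ^ M * Real.exp (-∑ p ∈ P, q p * (1 - q p)) ≤ ε / 2 := by
    have h9 : Real.exp (-∑ p ∈ P, q p * (1 - q p)) ≤ Real.exp (-Real.log (2 * 2 ^ M * (2 / ε))) :=
      Real.exp_le_exp.2 (by linarith)
    rw [Real.exp_neg (Real.log _), Real.exp_log (by positivity)] at h9
    calc _ ≤ 2 * 2 ^ M * (2 * 2 ^ M * (2 / ε))⁻¹ := mul_le_mul_of_nonneg_left h9 (by positivity)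
      _ = ε / 2 := by field_simp
  linarith

end Pool.Agent.K4H19.RO
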