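import Pool.Agent.K4H19.RO.Sm1

set_option autoImplicit false

/-!
# Vectors of sums of independent variables over disjoint sets: near invariance under shifts
-/

namespace Pool.Agent.K4H19.RO

open Finset

/-- the contribution of the kept elements of `W`, when `D` is deleted -/
def XX {k : ℕ} (ν : Fin k → ℕ → ℕ) (W D : Finset ℕ) (i : Fin k) : ℕ := ∑ p ∈ W \ D, ν i p

/-- one step in one coordinate -/
lemma step {ε Y : ℝ} (hY : ∀ q : ℕ → ℝ, (∀ p, 0 ≤ q p) → (∀ p, q p ≤ 1) →
    ∀ P : Finset ℕ, Y ≤ ∑ p ∈ P, q p * (1 - q p) → ∀ G : ℕ → ℝ, (∀ n, |G n| ≤ 1) →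
    |Ex q P (fun D => G ((P \ D).card + 1)) - Ex q P (fun D => G (P \ D).card)| ≤ ε)
    {k : ℕ} (q : ℕ → ℝ) (h0 : ∀ p, 0 ≤ q p) (h1 : ∀ p, q p ≤ 1) (W : Finset ℕ)
    (ν : Fin k → ℕ → ℕ) (j : Fin k) (hν : ∀ p ∈ W, ν j p = 1 → ∀ i, i ≠ j → ν i p = 0)
    (hV : Y ≤ ∑ p ∈ W.filter (fun p => ν j p = 1), q p * (1 - q p))
    (F : (Fin k → ℕ) → ℝ) (hF : ∀ l, |F l| ≤ 1) (a : Fin k → ℕ) :
    |Ex q W (fun D => F (fun i => XX ν W D i + a i + if i = j then 1 else 0)) -
      Ex q W (fun D => F (fun i => XX ν W D i + a i))| ≤ ε := by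
  obtain ⟨A, hA⟩ : ∃ A, A = W.filter (fun p => ν j p = 1) := ⟨_, rfl⟩
  rw [← hA] at hV
  have hAW : A ⊆ W := by rw [hA]; exact filter_subset _ _
  have hWA : W \ A ⊆ W := sdiff_subset
  have hc : W \ (W \ A) = A := by
    rw [_root_.sdiff_sdiff_eq_self hAW]
  -- values
  have hval : ∀ T, T ⊆ W \ A → ∀ S, S ⊆ A → ∀ i, XX ν W (T ∪ S) i =
      (if i = j then (A \ S).card else 0) + ∑ p ∈ (W \ A) \ T, ν i p := by
    intro T hT S hS i
    unfold XX
    have e1 : W \ (T ∪ S) = (A \ S) ∪ ((W \ A) \ T) := by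
      ext x
      simp only [mem_sdiff, mem_union]
      constructor
      · rintro ⟨hx, h⟩
        by_cases hxA : x ∈ A
        · exact Or.inl ⟨hxA, fun h' => h (Or.inr h')⟩
        · exact Or.inr ⟨⟨hx, hxA⟩, fun h' => h (Or.inl h')⟩
      · rintro (⟨hx, h⟩ | ⟨⟨hx, hxA⟩, h⟩)
        · refine ⟨hAW hx, ?_⟩
          rintro (h' | h')
          · exact (mem_sdiff.1 (hT h')).2 hx
          · exact h h'
        · refine ⟨hx, ?_⟩
          rintro (h' | h')
          · exact h h'
          · exact hxA (hS h')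
    have e2 : Disjoint (A \ S) ((W \ A) \ T) := by
      rw [Finset.disjoint_left]
      intro x hx hx'
      exact (mem_sdiff.1 (mem_sdiff.1 hx').1).2 (mem_sdiff.1 hx).1
    rw [e1, sum_union e2]
    congr 1
    split_ifs with hij
    · rw [card_eq_sum_ones]
      apply sum_congr rfl
      intro p hp
      have := (mem_sdiff.1 hp).1
      rw [hA, mem_filter] at this
      rw [hij]
      exact this.2
    · apply sum_eq_zero
      intro p hp
      have := (mem_sdiff.1 hp).1
      rw [hA, mem_filter] at this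
      exact hν p this.1 this.2 i hij
  rw [Ex_split hWA, Ex_split hWA (fun D => F (fun i => XX ν W D i + a i)), ← Ex_sub, hc]
  refine (Ex_abs_le h0 h1 _ _).trans ?_
  refine (Ex_mono h0 h1 (Ψ := fun _ => ε) ?_).trans (by rw [Ex_const])
  intro T hT
  have := hY q h0 h1 A hV (fun n => F (fun i => (if i = j then n else 0) + ∑ p ∈ (W \ A) \ T, ν i p + a i))
    (fun n => hF _)
  refine le_trans (le_of_eq ?_) this
  congr 2
  · apply Ex_congr
    intro S hS
    congr 1
    funext i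
    rw [hval T hT S hS i]
    split_ifs <;> omega
  · apply Ex_congr
    intro S hS
    congr 1
    funext i
    rw [hval T hT S hS i]

/-- shifts by vectors -/
lemma shift {ε Y : ℝ} (hY : ∀ q : ℕ → ℝ, (∀ p, 0 ≤ q p) → (∀ p, q p ≤ 1) →
    ∀ P : Finset ℕ, Y ≤ ∑ p ∈ P, q p * (1 - q p) → ∀ G : ℕ → ℝ, (∀ n, |G n| ≤ 1) →
    |Ex q P (fun D => G ((P \ D).card + 1)) - Ex q P (fun D => G (P \ D).card)| ≤ ε)
    {k : ℕ} (q : ℕ → ℝ) (h0 : ∀ p, 0 ≤ q p) (h1 : ∀ p, q p ≤ 1) (W : Finset ℕ)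
    (ν : Fin k → ℕ → ℕ) (hν : ∀ p ∈ W, ∀ j, ν j p = 1 → ∀ i, i ≠ j → ν i p = 0)
    (hV : ∀ j, Y ≤ ∑ p ∈ W.filter (fun p => ν j p = 1), q p * (1 - q p))
    (F : (Fin k → ℕ) → ℝ) (hF : ∀ l, |F l| ≤ 1) (s : ℕ) : ∀ (a r : Fin k → ℕ), ∑ i, r i = s →
    |Ex q W (fun D => F (fun i => XX ν W D i + (a i + r i))) -
      Ex q W (fun D => F (fun i => XX ν W D i + a i))| ≤ s * ε := by
  induction s with
  | zero =>
    intro a r hr
    have : ∀ i, r i = 0 := fun i => by
      have := (Finset.sum_eq_zero_iff.1 hr) i (mem_univ i)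
      exact this
    simp [this]
  | succ s ih =>
    intro a r hr
    obtain ⟨j, hj⟩ : ∃ j, 0 < r j := by
      by_contra h
      push Not at h
      have : ∑ i, r i = 0 := sum_eq_zero fun i _ => Nat.le_zero.1 (h i)
      omega
    obtain ⟨r', hr'⟩ : ∃ r' : Fin k → ℕ, r' = fun i => if i = j then r i - 1 else r i := ⟨_, rfl⟩
    have hrr : ∀ i, r i = r' i + if i = j then 1 else 0 := by
      intro i
      rw [hr']
      dsimp only
      split_ifs with h
      · rw [h]; omega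
      · rfl
    have hs' : ∑ i, r' i = s := by
      have h2 : ∑ i, r i = ∑ i, r' i + 1 := by
        rw [sum_congr rfl (fun i _ => hrr i), sum_add_distrib]
        simp
      omega
    have h3 := ih a r' hs'
    have h4 := step hY q h0 h1 W ν j (fun p hp h => hν p hp j h) (hV j) F hF (fun i => a i + r' i)
    have e1 : (fun D => F (fun i => XX ν W D i + (a i + r i))) =
        (fun D => F (fun i => XX ν W D i + (a i + r' i) + if i = j then 1 else 0)) := by
      funext D
      congr 1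
      funext i
      rw [hrr i]
      ring
    rw [e1]
    push_cast
    calc _ ≤ |Ex q W (fun D => F (fun i => XX ν W D i + (a i + r' i) + if i = j then 1 else 0)) -
          Ex q W (fun D => F (fun i => XX ν W D i + (a i + r' i)))| +
          |Ex q W (fun D => F (fun i => XX ν W D i + (a i + r' i))) - Ex q W (fun D => F (fun i => XX ν W D i + a i))| :=
          abs_sub_le _ _ _
      _ ≤ ε + s * ε := add_le_add h4 h3
      _ = (s + 1) * ε := by ring

end Pool.Agent.K4H19.RO
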