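import Pool.Agent.K4H19.RO.Core
import Pool.Agent.Y831.RC.WWb

set_option autoImplicit false

/-!
# The window
-/

namespace Pool.Agent.K4H19.RO

open Finset Filter
open Pool.Agent.W208.TL (PP)

/-- lower end of the window -/
noncomputable def uu (k N : ℕ) : ℕ := ⌊(Real.log N) ^ (k + 4)⌋₊

/-- upper end of the window -/
noncomputable def vv (K N : ℕ) : ℕ := ⌊(N : ℝ) ^ (1 / (K : ℝ))⌋₊

/-- the number of values -/
def TT (N : ℕ) : ℕ := Nat.log 2 (2 * N) + 1

lemma log_tendsto : Tendsto (fun N : ℕ => Real.log (N : ℝ)) atTop atTop :=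
  Real.tendsto_log_atTop.comp tendsto_natCast_atTop_atTop

lemma uu_tendsto (k : ℕ) : Tendsto (uu k) atTop atTop := by
  unfold uu
  exact (tendsto_nat_floor_atTop (α := ℝ)).comp ((tendsto_pow_atTop (by omega)).comp log_tendsto)

lemma vv_tendsto (K : ℕ) (hK : 1 ≤ K) : Tendsto (vv K) atTop atTop := by
  unfold vv
  apply (tendsto_nat_floor_atTop (α := ℝ)).comp
  apply (tendsto_rpow_atTop _).comp tendsto_natCast_atTop_atTop
  have : (0 : ℝ) < K := by exact_mod_cast hK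
  positivity

lemma vv_pow (K N : ℕ) (hK : 1 ≤ K) : (vv K N) ^ K ≤ N := by
  have hK' : (K : ℝ) ≠ 0 := by
    have : (0 : ℝ) < K := by exact_mod_cast hK
    exact this.ne'
  have h1 : ((vv K N : ℕ) : ℝ) ≤ (N : ℝ) ^ (1 / (K : ℝ)) := Nat.floor_le (by positivity)
  have h2 : ((vv K N : ℕ) : ℝ) ^ K ≤ ((N : ℝ) ^ (1 / (K : ℝ))) ^ K := pow_le_pow_left₀ (Nat.cast_nonneg _) h1 K
  rw [← Real.rpow_natCast ((N : ℝ) ^ (1 / (K : ℝ))) K, ← Real.rpow_mul (Nat.cast_nonneg _), one_div,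
    inv_mul_cancel₀ hK', Real.rpow_one] at h2
  exact_mod_cast h2

lemma vv_lt (K N : ℕ) (hK : 1 ≤ K) : N < (vv K N + 1) ^ K := by
  have hK' : (K : ℝ) ≠ 0 := by
    have : (0 : ℝ) < K := by exact_mod_cast hK
    exact this.ne'
  have h1 : (N : ℝ) ^ (1 / (K : ℝ)) < (vv K N : ℝ) + 1 := Nat.lt_floor_add_one _
  have h2 : ((N : ℝ) ^ (1 / (K : ℝ))) ^ K < ((vv K N : ℝ) + 1) ^ K := pow_lt_pow_left₀ h1 (by positivity) (by omega)
  rw [← Real.rpow_natCast ((N : ℝ) ^ (1 / (K : ℝ))) K, ← Real.rpow_mul (Nat.cast_nonneg _), one_div,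
    inv_mul_cancel₀ hK', Real.rpow_one] at h2
  exact_mod_cast h2

lemma uu_le_vv (k K : ℕ) (hK : 1 ≤ K) : ∀ᶠ N : ℕ in atTop, uu k N ≤ vv K N := by
  have hK' : (0 : ℝ) < K := by exact_mod_cast hK
  have h1 := (isLittleO_log_rpow_rpow_atTop (s := 1 / (K : ℝ)) ((k + 4 : ℕ) : ℝ) (by positivity)).bound
    (one_pos)
  have h2 := (tendsto_natCast_atTop_atTop (R := ℝ)).eventually h1
  filter_upwards [h2, eventually_ge_atTop 1] with N hN hN1
  unfold uu vv
  apply Nat.floor_le_floor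
  rw [Real.rpow_natCast, one_mul, Real.norm_eq_abs, Real.norm_eq_abs, abs_of_nonneg (by positivity),
    abs_of_nonneg (by positivity)] at hN
  exact hN

lemma vv_le (K N : ℕ) (hK : 1 ≤ K) : vv K N ≤ N := by
  refine le_trans ?_ (vv_pow K N hK)
  exact Nat.le_self_pow (by omega) _

lemma sum_union_le' (s t : Finset ℕ) (f : ℕ → ℝ) (hf : ∀ p, 0 ≤ f p) :
    ∑ p ∈ s ∪ t, f p ≤ ∑ p ∈ s, f p + ∑ p ∈ t, f p := by
  have := sum_union_inter (s₁ := s) (s₂ := t) (f := f)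
  have h2 : 0 ≤ ∑ p ∈ s ∩ t, f p := sum_nonneg fun p _ => hf p
  linarith

/-- the mass of the window -/
lemma mass_window (q : ℕ → ℝ) (h0 : ∀ p, 0 ≤ q p) (h1 : ∀ p, q p ≤ 1)
    (hdiv : Tendsto (fun N : ℕ => ∑ p ∈ (Icc 1 N).filter (fun p : ℕ => p.Prime ∧ Real.log N < p),
      q p * (1 - q p) / p) atTop atTop) (k K : ℕ) (hK : 1 ≤ K) :
    Tendsto (fun N : ℕ => ∑ p ∈ PP (uu k N) (vv K N), q p * (1 - q p) / p) atTop atTop := by
  obtain ⟨C, hC, hM⟩ := Pool.Agent.Y831.RC.sum_ratio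
  have hc0 : ∀ p, 0 ≤ q p * (1 - q p) := fun p => mul_nonneg (h0 p) (by linarith [h1 p])
  have hc1 : ∀ p, q p * (1 - q p) ≤ 1 := fun p => by nlinarith [h0 p, h1 p]
  have hK' : (0 : ℝ) < K := by exact_mod_cast hK
  have hl2 : 0 < Real.log 2 := Real.log_pos (by norm_num)
  have key : ∀ᶠ N : ℕ in atTop, ∑ p ∈ (Icc 1 N).filter (fun p : ℕ => p.Prime ∧ Real.log N < p), q p * (1 - q p) / p +
      (-(Real.log ((k + 4 : ℕ) : ℝ) + C / Real.log 2) - (Real.log K + C / Real.log 2)) ≤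
      ∑ p ∈ PP (uu k N) (vv K N), q p * (1 - q p) / p := by
    filter_upwards [log_tendsto.eventually_ge_atTop 2, (vv_tendsto K hK).eventually_ge_atTop 2,
      eventually_ge_atTop 2] with N hN1 hN2 hN3
    have hlog0 : 0 < Real.log (Real.log N) := Real.log_pos (by linarith)
    have hlog2 : Real.log 2 ≤ Real.log (Real.log N) := Real.log_le_log (by norm_num) hN1
    have hNr : (2 : ℝ) ≤ N := by exact_mod_cast hN3
    have m1 := hM (Real.log N) ((Real.log N) ^ (k + 4)) hN1 (le_self_pow₀ (by linarith) (by omega))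
    have e1 : Real.log ((Real.log N) ^ (k + 4)) / Real.log (Real.log N) = ((k + 4 : ℕ) : ℝ) := by
      rw [Real.log_pow, mul_div_assoc, div_self hlog0.ne', mul_one]
    rw [e1] at m1
    have m1' : ∑ p ∈ PP ⌊Real.log N⌋₊ (uu k N), (1 : ℝ) / p ≤ Real.log ((k + 4 : ℕ) : ℝ) + C / Real.log 2 := by
      refine m1.trans (add_le_add le_rfl ?_)
      gcongr
    have h2N : (2 : ℝ) ≤ (N : ℝ) ^ (1 / (K : ℝ)) := by
      have := Nat.floor_le (a := (N : ℝ) ^ (1 / (K : ℝ))) (by positivity)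
      have h3 : ((2 : ℕ) : ℝ) ≤ (vv K N : ℝ) := by exact_mod_cast hN2
      push_cast at h3
      exact h3.trans this
    have h4N : (N : ℝ) ^ (1 / (K : ℝ)) ≤ N := by
      conv_rhs => rw [← Real.rpow_one (N : ℝ)]
      apply Real.rpow_le_rpow_of_exponent_le (by linarith)
      rw [div_le_one hK']
      exact_mod_cast hK
    have m2 := hM ((N : ℝ) ^ (1 / (K : ℝ))) N h2N h4N
    have hlN : 0 < Real.log N := by linarith
    have e2 : Real.log N / Real.log ((N : ℝ) ^ (1 / (K : ℝ))) = K := by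
      rw [Real.log_rpow (by linarith)]
      field_simp
    rw [e2, Nat.floor_natCast] at m2
    have m2' : ∑ p ∈ PP (vv K N) N, (1 : ℝ) / p ≤ Real.log K + C / Real.log 2 := by
      refine m2.trans (add_le_add le_rfl ?_)
      have : Real.log 2 ≤ Real.log ((N : ℝ) ^ (1 / (K : ℝ))) := Real.log_le_log (by norm_num) h2N
      gcongr
    have hsub : (Icc 1 N).filter (fun p : ℕ => p.Prime ∧ Real.log N < p) ⊆
        (PP ⌊Real.log N⌋₊ (uu k N) ∪ PP (uu k N) (vv K N)) ∪ PP (vv K N) N := by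
      intro p hp
      rw [mem_filter, mem_Icc] at hp
      obtain ⟨⟨_, hpN⟩, hpp, hpl⟩ := hp
      have hfl : ⌊Real.log N⌋₊ < p := (Nat.floor_lt hlN.le).2 hpl
      rw [mem_union, mem_union, mem_PP, mem_PP, mem_PP]
      by_cases c1 : p ≤ uu k N
      · exact Or.inl (Or.inl ⟨⟨hfl, c1⟩, hpp⟩)
      · by_cases c2 : p ≤ vv K N
        · exact Or.inl (Or.inr ⟨⟨by omega, c2⟩, hpp⟩)
        · exact Or.inr ⟨⟨by omega, hpN⟩, hpp⟩
    have hle : ∀ s : Finset ℕ, ∑ p ∈ s, q p * (1 - q p) / p ≤ ∑ p ∈ s, (1 : ℝ) / p := by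
      intro s
      apply sum_le_sum
      intro p _
      have := hc1 p
      gcongr
    have hnn : ∀ p : ℕ, 0 ≤ q p * (1 - q p) / p := fun p => div_nonneg (hc0 p) (Nat.cast_nonneg _)
    have t1 : ∑ p ∈ (Icc 1 N).filter (fun p : ℕ => p.Prime ∧ Real.log N < p), q p * (1 - q p) / p ≤
        ∑ p ∈ PP ⌊Real.log N⌋₊ (uu k N), q p * (1 - q p) / p + ∑ p ∈ PP (uu k N) (vv K N), q p * (1 - q p) / p +
        ∑ p ∈ PP (vv K N) N, q p * (1 - q p) / p := by
      refine (sum_le_sum_of_subset_of_nonneg hsub fun p _ _ => hnn p).trans ?_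
      refine (sum_union_le' _ _ _ hnn).trans ?_
      exact add_le_add (sum_union_le' _ _ _ hnn) le_rfl
    have t2 := hle (PP ⌊Real.log N⌋₊ (uu k N))
    have t3 := hle (PP (vv K N) N)
    linarith
  exact tendsto_atTop_mono' atTop key (tendsto_atTop_add_const_right _ _ hdiv)

/-- the logarithm in base two -/
lemma TT_le (N : ℕ) (hN : 8 ≤ N) : (TT N : ℝ) ≤ 4 * Real.log N := by
  unfold TT
  have h1 : (2 : ℝ) ^ (Nat.log 2 (2 * N)) ≤ 2 * N := by
    exact_mod_cast Nat.pow_log_le_self 2 (by omega : 2 * N ≠ 0)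
  have hNr : (8 : ℝ) ≤ N := by exact_mod_cast hN
  have h2 := Real.log_le_log (by positivity) h1
  rw [Real.log_pow, Real.log_mul (by norm_num) (by linarith)] at h2
  have h3 : (0.6931 : ℝ) < Real.log 2 := by
    have := Real.log_two_gt_d9
    linarith
  have h4 : Real.log 8 ≤ Real.log N := Real.log_le_log (by norm_num) hNr
  have h5 : Real.log 8 = 3 * Real.log 2 := by
    rw [show (8 : ℝ) = 2 ^ 3 by norm_num, Real.log_pow]
    norm_num
  push_cast
  nlinarith [Nat.cast_nonneg (α := ℝ) (Nat.log 2 (2 * N))]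

/-- vectors take values in the box -/
lemma gV_lt {k : ℕ} (h : Fin k → ℕ) (M T : ℕ) (S : Finset ℕ) (hM : M < 2 ^ T) (hT : 1 ≤ T) (n : ℕ) (hn : 1 ≤ n)
    (hnM : ∀ j, n + h j ≤ M) (j : Fin k) (U : Finset ℕ) (hU : U ⊆ PP 0 M) : gV h U S n j < T := by
  unfold gV
  have h1 : ∑ p ∈ U \ S, (n + h j).factorization p ≤ ∑ p ∈ PP 1 M, (n + h j).factorization p := by
    apply sum_le_sum_of_subset
    intro p hp
    have hp2 := mem_PP.1 (hU (mem_sdiff.1 hp).1)
    exact mem_PP.2 ⟨⟨hp2.2.one_lt, hp2.1.2⟩, hp2.2⟩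
  have h2 := bigBound 1 M (n + h j) (T - 1) (by omega) (by
    rw [Nat.sub_add_cancel hT]
    exact lt_of_le_of_lt (hnM j) hM)
  omega

/-- the probability estimate -/
theorem prob_small {k : ℕ} (q : ℕ → ℝ) (h0 : ∀ p, 0 ≤ q p) (h1 : ∀ p, q p ≤ 1)
    (hdiv : Tendsto (fun N : ℕ => ∑ p ∈ (Icc 1 N).filter (fun p : ℕ => p.Prime ∧ Real.log N < p),
      q p * (1 - q p) / p) atTop atTop) (h : Fin k → ℕ) (hinj : Function.Injective h) (H : ℕ) (hH : ∀ j, h j ≤ H)
    (K w : ℕ) (hK : 1 ≤ K) (δ : ℝ) (hδ : 0 < δ) : ∃ C : ℝ, ∀ᶠ N : ℕ in atTop,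
    Ex q (PP 0 (N + H)) (fun S => if 3 * δ * N < Zdev h N (PP 0 (N + H)) (PP w (vv K N))
      (Fintype.piFinset (fun _ : Fin k => range (TT N))) S then (1 : ℝ) else 0) ≤ C / (Real.log N) ^ 4 := by
  -- parameters
  obtain ⟨B, hB1, hB⟩ : ∃ B : ℕ, 1 ≤ B ∧ 32 * k * w ≤ δ * B := by
    obtain ⟨B, hB⟩ := exists_nat_ge (32 * k * w / δ)
    refine ⟨B + 1, by omega, ?_⟩
    rw [div_le_iff₀ hδ] at hB
    push_cast
    linarith
  obtain ⟨ε, hε⟩ : ∃ ε : ℝ, ε = δ / (4 * (k * (B + K) + 1)) := ⟨_, rfl⟩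
  have hden : (0 : ℝ) < 4 * (k * (B + K) + 1) := by positivity
  have hε0 : 0 < ε := by rw [hε]; positivity
  have hε1 : k * (B + K) * ε ≤ δ / 4 := by
    rw [hε, ← mul_div_assoc, div_le_div_iff₀ hden (by norm_num)]
    nlinarith
  obtain ⟨Y, hY⟩ := smooth_one ε hε0
  obtain ⟨L0, hL0⟩ : ∃ L0 : ℝ, L0 = max (2 * |Y| + 1) (128 * k / δ) := ⟨_, rfl⟩
  obtain ⟨U0, hU0⟩ : ∃ U0 : ℕ, 32 * k ≤ δ * U0 := by
    obtain ⟨U0, hU0⟩ := exists_nat_ge (32 * k / δ)
    refine ⟨U0, ?_⟩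
    rw [div_le_iff₀ hδ] at hU0
    linarith
  refine ⟨16 * 4 ^ k * k ^ 2 / δ ^ 2, ?_⟩
  filter_upwards [(mass_window q h0 h1 hdiv k K hK).eventually_ge_atTop L0, (uu_tendsto k).eventually_ge_atTop
    (max (max H w) (max 1 U0)), uu_le_vv k K hK, eventually_ge_atTop (max H 8), log_tendsto.eventually_ge_atTop 2,
    (vv_tendsto K hK).eventually_ge_atTop 1] with N g1 g2 g3 g4 g5 g6
  have g2a : H ≤ uu k N := le_trans (le_trans (le_max_left _ _) (le_max_left _ _)) g2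
  have g2b : w ≤ uu k N := le_trans (le_trans (le_max_right _ _) (le_max_left _ _)) g2
  have g2c : 1 ≤ uu k N := le_trans (le_trans (le_max_left _ _) (le_max_right _ _)) g2
  have g2d : U0 ≤ uu k N := le_trans (le_trans (le_max_right _ _) (le_max_right _ _)) g2
  have g4a : H ≤ N := le_trans (le_max_left _ _) g4
  have g4b : 8 ≤ N := le_trans (le_max_right _ _) g4
  have hNr : (8 : ℝ) ≤ N := by exact_mod_cast g4b
  have hHr : (H : ℝ) ≤ N := by exact_mod_cast g4a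
  obtain ⟨L, hL⟩ : ∃ L, L = ∑ p ∈ PP (uu k N) (vv K N), q p * (1 - q p) / p := ⟨_, rfl⟩
  rw [← hL] at g1
  have hL1 : 2 * |Y| + 1 ≤ L := le_trans (by rw [hL0]; exact le_max_left _ _) g1
  have hL2 : 128 * k / δ ≤ L := le_trans (by rw [hL0]; exact le_max_right _ _) g1
  have hLpos : 0 < L := by linarith [abs_nonneg Y]
  have hYL : Y ≤ L / 2 := by linarith [le_abs_self Y]
  have hvN : vv K N ≤ N := vv_le K N hK
  have hvNr : ((vv K N : ℕ) : ℝ) ≤ N := by exact_mod_cast hvN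
  have hKN : N + H < (vv K N + 1) ^ (K + 1) := by
    have h3 := vv_lt K N hK
    rw [pow_succ]
    calc N + H ≤ N * 2 := by omega
      _ < (vv K N + 1) ^ K * 2 := by omega
      _ ≤ (vv K N + 1) ^ K * (vv K N + 1) := Nat.mul_le_mul_left _ (by omega)
  have hbc := bad_card q h0 h1 h H N w (uu k N) (vv K N) B hH g2c hB1 Y L hL hLpos hYL
  have hu0 : (0 : ℝ) < uu k N := by exact_mod_cast g2c
  have hB0 : (0 : ℝ) < B := by exact_mod_cast hB1
  have b1 : (k : ℝ) * (4 / L * (N + H + 2 * vv K N)) ≤ δ / 8 * N := by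
    have e1 : (N : ℝ) + H + 2 * vv K N ≤ 4 * N := by linarith
    have e2 : (k : ℝ) * (4 / L * (4 * N)) ≤ δ / 8 * N := by
      have : (k : ℝ) * (4 / L * (4 * N)) = 16 * k / L * N := by ring
      rw [this]
      apply mul_le_mul_of_nonneg_right _ (by linarith)
      rw [div_le_iff₀ hLpos]
      rw [div_le_iff₀ hδ] at hL2
      linarith
    refine le_trans ?_ e2
    gcongr
  have b2 : (k : ℝ) * ((N + H) / uu k N) ≤ δ / 8 * N := by
    have e1 : (k : ℝ) * ((N + H) / uu k N) ≤ k * ((2 * N) / uu k N) := by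
      gcongr
      linarith
    refine e1.trans ?_
    have e2 : (k : ℝ) * ((2 * N) / uu k N) = 2 * k / uu k N * N := by ring
    rw [e2]
    apply mul_le_mul_of_nonneg_right _ (by linarith)
    rw [div_le_iff₀ hu0]
    have : δ * U0 ≤ δ * uu k N := mul_le_mul_of_nonneg_left (by exact_mod_cast g2d) hδ.le
    linarith [Nat.cast_nonneg (α := ℝ) k]
  have b3 : (k : ℝ) * ((N + H) * w / B) ≤ δ / 8 * N := by
    have e1 : (k : ℝ) * ((N + H) * w / B) ≤ k * ((2 * N) * w / B) := by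
      gcongr
      linarith
    refine e1.trans ?_
    have e2 : (k : ℝ) * ((2 * N) * w / B) = 2 * k * w / B * N := by ring
    rw [e2]
    apply mul_le_mul_of_nonneg_right _ (by linarith)
    rw [div_le_iff₀ hB0]
    have : (0 : ℝ) ≤ k * w := by positivity
    nlinarith
  have hbad : k * (B + K) * ε * N + 2 * ((bad q h (PP (uu k N) (vv K N)) N w B Y).card : ℝ) ≤ δ * N := by
    have e1 : k * (B + K) * ε * N ≤ δ / 4 * N := mul_le_mul_of_nonneg_right hε1 (by linarith)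
    have e2 : (k : ℝ) * (4 / L * (N + H + 2 * vv K N) + (N + H) / uu k N + (N + H) * w / B) =
      (k : ℝ) * (4 / L * (N + H + 2 * vv K N)) + (k : ℝ) * ((N + H) / uu k N) + (k : ℝ) * ((N + H) * w / B) := by ring
    rw [e2] at hbc
    have : (0 : ℝ) ≤ δ * N := by positivity
    linarith
  have hc := core hε0.le hY q h0 h1 h hinj H N w (uu k N) (vv K N) K B (by omega) hH g2a g2b g2c g3 (by omega) hKN
    (Fintype.piFinset (fun _ : Fin k => range (TT N))) δ hδ hbad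
  refine hc.trans ?_
  have hcard : ((Fintype.piFinset (fun _ : Fin k => range (TT N))).card : ℝ) = (TT N : ℝ) ^ k := by
    rw [Fintype.card_piFinset, prod_const, card_univ, Fintype.card_fin, card_range]
    push_cast
    rfl
  rw [hcard]
  have hlog : 0 < Real.log N := by linarith
  have hu2 : (Real.log N) ^ (k + 4) / 2 ≤ uu k N := by
    have e1 : (Real.log N) ^ (k + 4) < (uu k N : ℝ) + 1 := Nat.lt_floor_add_one _
    have e2 : (1 : ℝ) ≤ uu k N := by exact_mod_cast g2c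
    linarith
  have hT := TT_le N g4b
  have hTk : (TT N : ℝ) ^ k ≤ (4 * Real.log N) ^ k := pow_le_pow_left₀ (Nat.cast_nonneg _) hT k
  have e5 : ((k : ℝ) * ((N : ℝ) + H)) ^ 2 ≤ (2 * k * N) ^ 2 := by
    apply pow_le_pow_left₀ (by positivity)
    nlinarith [Nat.cast_nonneg (α := ℝ) k]
  calc 2 * (TT N : ℝ) ^ k * (((k : ℝ) * ((N : ℝ) + H)) ^ 2 / (uu k N : ℝ)) / (δ * N) ^ 2
      ≤ 2 * (4 * Real.log N) ^ k * ((2 * k * N) ^ 2 / ((Real.log N) ^ (k + 4) / 2)) / (δ * N) ^ 2 := by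
        gcongr
    _ = 16 * 4 ^ k * k ^ 2 / δ ^ 2 / (Real.log N) ^ 4 := by
        have hN0 : (N : ℝ) ≠ 0 := by linarith
        rw [mul_pow, pow_add]
        field_simp
        ring

end Pool.Agent.K4H19.RO
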